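import Pool.Agent.MP_13e7a1_an.H82.Spec

/-!
Pointwise algebra of the real formalism.
-/

open scoped ContDiff Topology Matrix
open Set Metric MeasureTheory Filter

noncomputable section

namespace Pool.Agent.MP_13e7a1_an.H82

/-! ### `pf` -/

theorem pf_comm (β γ : Mat) : pf β γ = pf γ β := by unfold pf; ring

theorem pf_add_left (β β' γ : Mat) : pf (β + β') γ = pf β γ + pf β' γ := by
  simp only [pf, Matrix.add_apply]; ring

theorem pf_add_right (β γ γ' : Mat) : pf β (γ + γ') = pf β γ + pf β γ' := by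
  simp only [pf, Matrix.add_apply]; ring

theorem pf_sub_left (β β' γ : Mat) : pf (β - β') γ = pf β γ - pf β' γ := by
  simp only [pf, Matrix.sub_apply]; ring

theorem pf_sub_right (β γ γ' : Mat) : pf β (γ - γ') = pf β γ - pf β γ' := by
  simp only [pf, Matrix.sub_apply]; ring

theorem pf_smul_left (t : ℝ) (β γ : Mat) : pf (t • β) γ = t * pf β γ := by
  simp only [pf, Matrix.smul_apply, smul_eq_mul]; ring

theorem pf_smul_right (t : ℝ) (β γ : Mat) : pf β (t • γ) = t * pf β γ := by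
  simp only [pf, Matrix.smul_apply, smul_eq_mul]; ring

theorem pf_neg_left (β γ : Mat) : pf (-β) γ = -pf β γ := by
  simp only [pf, Matrix.neg_apply]; ring

theorem pf_neg_right (β γ : Mat) : pf β (-γ) = -pf β γ := by
  simp only [pf, Matrix.neg_apply]; ring

@[simp] theorem pf_zero_left (γ : Mat) : pf 0 γ = 0 := by simp [pf]

@[simp] theorem pf_zero_right (γ : Mat) : pf γ 0 = 0 := by simp [pf]

theorem abs_pf_le {β γ : Mat} {a b : ℝ} (hβ : ∀ i j, |β i j| ≤ a) (hγ : ∀ i j, |γ i j| ≤ b) :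
    |pf β γ| ≤ 6 * (a * b) := by
  have ha : 0 ≤ a := (abs_nonneg _).trans (hβ 0 0)
  have h : ∀ i j k l, |β i j * γ k l| ≤ a * b := fun i j k l => by
    rw [abs_mul]; exact mul_le_mul (hβ i j) (hγ k l) (abs_nonneg _) ha
  have h1 := abs_le.1 (h 0 1 2 3)
  have h2 := abs_le.1 (h 0 2 1 3)
  have h3 := abs_le.1 (h 0 3 1 2)
  have h4 := abs_le.1 (h 1 2 0 3)
  have h5 := abs_le.1 (h 1 3 0 2)
  have h6 := abs_le.1 (h 2 3 0 1)
  unfold pf
  rw [abs_le]
  constructor <;> linarith [h1.1, h1.2, h2.1, h2.2, h3.1, h3.2, h4.1, h4.2, h5.1, h5.2, h6.1, h6.2]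

/-! ### `wd`, `cj` -/

theorem wd_apply (p q : V) (i j : Fin 4) : wd p q i j = p i * q j - p j * q i := rfl

theorem wd_add_left (p p' q : V) : wd (p + p') q = wd p q + wd p' q := by
  ext i j; simp only [wd_apply, Matrix.add_apply, Pi.add_apply]; ring

theorem wd_add_right (p q q' : V) : wd p (q + q') = wd p q + wd p q' := by
  ext i j; simp only [wd_apply, Matrix.add_apply, Pi.add_apply]; ring

theorem wd_sub_left (p p' q : V) : wd (p - p') q = wd p q - wd p' q := by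
  ext i j; simp only [wd_apply, Matrix.sub_apply, Pi.sub_apply]; ring

theorem wd_sub_right (p q q' : V) : wd p (q - q') = wd p q - wd p q' := by
  ext i j; simp only [wd_apply, Matrix.sub_apply, Pi.sub_apply]; ring

theorem wd_smul_left (t : ℝ) (p q : V) : wd (t • p) q = t • wd p q := by
  ext i j; simp only [wd_apply, Matrix.smul_apply, Pi.smul_apply, smul_eq_mul]; ring

theorem wd_smul_right (t : ℝ) (p q : V) : wd p (t • q) = t • wd p q := by
  ext i j; simp only [wd_apply, Matrix.smul_apply, Pi.smul_apply, smul_eq_mul]; ring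

theorem wd_neg_right (p q : V) : wd p (-q) = -wd p q := by
  ext i j; simp only [wd_apply, Matrix.neg_apply, Pi.neg_apply]; ring

theorem wd_swap (p q : V) : wd q p = -wd p q := by
  ext i j; simp only [wd_apply, Matrix.neg_apply]; ring

@[simp] theorem wd_zero_left (q : V) : wd 0 q = 0 := by
  ext i j; simp [wd_apply]

@[simp] theorem wd_zero_right (q : V) : wd q 0 = 0 := by
  ext i j; simp [wd_apply]

theorem wd_transpose (p q : V) : (wd p q)ᵀ = -wd p q := by
  ext i j; simp only [wd_apply, Matrix.transpose_apply, Matrix.neg_apply]; ring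

theorem wd_eq (p q : V) : wd p q = Matrix.vecMulVec p q - Matrix.vecMulVec q p := by
  ext i j; simp only [wd_apply, Matrix.sub_apply, Matrix.vecMulVec_apply]; ring

theorem abs_wd_le (p q : V) (i j : Fin 4) : |wd p q i j| ≤ 2 * (‖p‖ * ‖q‖) := by
  have h : ∀ k l, |p k * q l| ≤ ‖p‖ * ‖q‖ := fun k l => by
    rw [abs_mul]
    exact mul_le_mul (norm_le_pi_norm p k) (norm_le_pi_norm q l) (abs_nonneg _) (norm_nonneg _)
  have h1 := abs_le.1 (h i j)
  have h2 := abs_le.1 (h j i)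
  rw [wd_apply, abs_le]
  constructor <;> linarith [h1.1, h1.2, h2.1, h2.2]

theorem cj_apply (J : Mat) (p : V) (j : Fin 4) : cj J p j = -∑ i, p i * J i j := by
  simp [cj, Matrix.vecMul, dotProduct]

theorem cj_add (J : Mat) (p q : V) : cj J (p + q) = cj J p + cj J q := by
  simp only [cj, Matrix.add_vecMul]; abel

theorem cj_sub (J : Mat) (p q : V) : cj J (p - q) = cj J p - cj J q := by
  simp only [cj, Matrix.sub_vecMul]; abel

theorem cj_smul (J : Mat) (t : ℝ) (p : V) : cj J (t • p) = t • cj J p := by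
  simp only [cj, Matrix.smul_vecMul, smul_neg]

@[simp] theorem cj_zero (J : Mat) : cj J 0 = 0 := by simp [cj]

theorem cj_cj {J : Mat} (h : J * J = -1) (p : V) : cj J (cj J p) = -p := by
  simp [cj, Matrix.neg_vecMul, Matrix.vecMul_vecMul, h, Matrix.vecMul_neg]

theorem norm_cj_le {J : Mat} {a : ℝ} (h : ∀ i j, |J i j| ≤ a) (p : V) :
    ‖cj J p‖ ≤ 4 * a * ‖p‖ := by
  have ha : 0 ≤ a := (abs_nonneg _).trans (h 0 0)
  refine (pi_norm_le_iff_of_nonneg (by positivity)).2 fun j => ?_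
  rw [cj_apply, Real.norm_eq_abs, abs_neg]
  calc |∑ i, p i * J i j| ≤ ∑ i, |p i * J i j| := Finset.abs_sum_le_sum_abs _ _
    _ ≤ ∑ _i : Fin 4, ‖p‖ * a := Finset.sum_le_sum fun i _ => by
        rw [abs_mul]
        exact mul_le_mul (norm_le_pi_norm p i) (h i j) (abs_nonneg _) (norm_nonneg _)
    _ = 4 * a * ‖p‖ := by simp; ring

theorem abs_dot_le (p q : V) : |p ⬝ᵥ q| ≤ 4 * (‖p‖ * ‖q‖) := by
  calc |p ⬝ᵥ q| ≤ ∑ i, |p i * q i| := Finset.abs_sum_le_sum_abs _ _
    _ ≤ ∑ _i : Fin 4, ‖p‖ * ‖q‖ := Finset.sum_le_sum fun i _ => by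
        rw [abs_mul]
        exact mul_le_mul (norm_le_pi_norm p i) (norm_le_pi_norm q i) (abs_nonneg _) (norm_nonneg _)
    _ = 4 * (‖p‖ * ‖q‖) := by simp

theorem conj_wd (J : Mat) (p q : V) : Jᵀ * wd p q * J = wd (cj J p) (cj J q) := by
  ext i j
  simp only [wd_apply, cj_apply, Matrix.mul_apply, Matrix.transpose_apply, Fin.sum_univ_four]
  ring

theorem pf_al_al (p q r s : V) :
    pf (wd p s - wd q r) (wd p s - wd q r) = 2 * pf (wd p r) (wd q s) := by
  simp only [pf, Matrix.sub_apply, wd_apply]; ring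

/-! ### Invariant, anti-invariant and positive forms -/

theorem IsInv.add {J β γ : Mat} (h : IsInv J β) (h' : IsInv J γ) : IsInv J (β + γ) :=
  ⟨by rw [Matrix.transpose_add, h.1, h'.1]; abel,
    by rw [Matrix.mul_add, Matrix.add_mul, h.2, h'.2]⟩

theorem IsInv.smul {J β : Mat} (h : IsInv J β) (t : ℝ) : IsInv J (t • β) :=
  ⟨by rw [Matrix.transpose_smul, h.1, smul_neg],
    by rw [Matrix.mul_smul, Matrix.smul_mul, h.2]⟩

theorem IsInv.neg {J β : Mat} (h : IsInv J β) : IsInv J (-β) := by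
  simpa using h.smul (-1)

theorem IsInv.sub {J β γ : Mat} (h : IsInv J β) (h' : IsInv J γ) : IsInv J (β - γ) := by
  rw [sub_eq_add_neg]; exact h.add h'.neg

theorem IsInv.zero (J : Mat) : IsInv J 0 := ⟨by simp, by simp⟩

theorem IsAnti.add {J β γ : Mat} (h : IsAnti J β) (h' : IsAnti J γ) : IsAnti J (β + γ) :=
  ⟨by rw [Matrix.transpose_add, h.1, h'.1]; abel,
    by rw [Matrix.mul_add, Matrix.add_mul, h.2, h'.2]; abel⟩

theorem IsAnti.smul {J β : Mat} (h : IsAnti J β) (t : ℝ) : IsAnti J (t • β) :=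
  ⟨by rw [Matrix.transpose_smul, h.1, smul_neg],
    by rw [Matrix.mul_smul, Matrix.smul_mul, h.2, smul_neg]⟩

theorem IsAnti.neg {J β : Mat} (h : IsAnti J β) : IsAnti J (-β) := by
  simpa using h.smul (-1)

theorem IsAnti.sub {J β γ : Mat} (h : IsAnti J β) (h' : IsAnti J γ) : IsAnti J (β - γ) := by
  rw [sub_eq_add_neg]; exact h.add h'.neg

theorem IsPos.add {J β γ : Mat} (h : IsPos J β) (h' : IsPos J γ) : IsPos J (β + γ) :=
  ⟨h.1.add h'.1, fun Z => by
    rw [Matrix.add_mulVec, dotProduct_add]; exact add_nonneg (h.2 Z) (h'.2 Z)⟩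

theorem IsPos.smul {J β : Mat} (h : IsPos J β) {t : ℝ} (ht : 0 ≤ t) : IsPos J (t • β) :=
  ⟨h.1.smul t, fun Z => by
    rw [Matrix.smul_mulVec, dotProduct_smul, smul_eq_mul]; exact mul_nonneg ht (h.2 Z)⟩

theorem IsPos.zero (J : Mat) : IsPos J 0 := ⟨IsInv.zero J, fun Z => by simp⟩

theorem tr_mul_tr {J : Mat} (h : J * J = -1) : Jᵀ * Jᵀ = -1 := by
  rw [← Matrix.transpose_mul, h]; simp

theorem conj_conj {J : Mat} (h : J * J = -1) (β : Mat) : Jᵀ * (Jᵀ * β * J) * J = β := by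
  calc Jᵀ * (Jᵀ * β * J) * J = (Jᵀ * Jᵀ) * β * (J * J) := by simp only [Matrix.mul_assoc]
    _ = β := by rw [tr_mul_tr h, h]; simp

theorem conj_transpose' {J β : Mat} (hβ : βᵀ = -β) : (Jᵀ * β * J)ᵀ = -(Jᵀ * β * J) := by
  rw [Matrix.transpose_mul, Matrix.transpose_mul, Matrix.transpose_transpose, hβ]
  simp [Matrix.mul_assoc]

theorem plus_inv {J β : Mat} (h : J * J = -1) (hβ : βᵀ = -β) : IsInv J (plus J β) := by
  refine ⟨?_, ?_⟩
  · rw [plus, Matrix.transpose_smul, Matrix.transpose_add, conj_transpose' hβ, hβ, ← smul_neg]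
    congr 1; abel
  · rw [plus, Matrix.mul_smul, Matrix.smul_mul, Matrix.mul_add, Matrix.add_mul, conj_conj h,
      add_comm]

theorem minus_anti {J β : Mat} (h : J * J = -1) (hβ : βᵀ = -β) : IsAnti J (minus J β) := by
  refine ⟨?_, ?_⟩
  · rw [minus, Matrix.transpose_smul, Matrix.transpose_sub, conj_transpose' hβ, hβ, ← smul_neg]
    congr 1; abel
  · rw [minus, Matrix.mul_smul, Matrix.smul_mul, Matrix.mul_sub, Matrix.sub_mul, conj_conj h,
      ← smul_neg]
    congr 1; abel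

theorem plus_add (J β γ : Mat) : plus J (β + γ) = plus J β + plus J γ := by
  simp only [plus, Matrix.mul_add, Matrix.add_mul, smul_add]; abel

theorem plus_smul (J β : Mat) (t : ℝ) : plus J (t • β) = t • plus J β := by
  simp only [plus, Matrix.mul_smul, Matrix.smul_mul, ← smul_add]; rw [smul_comm]

theorem minus_add (J β γ : Mat) : minus J (β + γ) = minus J β + minus J γ := by
  simp only [minus, Matrix.mul_add, Matrix.add_mul, smul_add, smul_sub]; abel

theorem minus_smul (J β : Mat) (t : ℝ) : minus J (t • β) = t • minus J β := by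
  simp only [minus, Matrix.mul_smul, Matrix.smul_mul, ← smul_sub]; rw [smul_comm]

theorem dot_wd (p q Z W : V) : Z ⬝ᵥ (wd p q *ᵥ W) = (p ⬝ᵥ Z) * (q ⬝ᵥ W) - (q ⬝ᵥ Z) * (p ⬝ᵥ W) := by
  simp only [dotProduct, Matrix.mulVec, wd_apply, Fin.sum_univ_four]; ring

theorem cj_dot (J : Mat) (p Z : V) : cj J p ⬝ᵥ Z = -(p ⬝ᵥ (J *ᵥ Z)) := by
  rw [cj, neg_dotProduct, Matrix.dotProduct_mulVec]

theorem dot_wd_cj {J : Mat} (h : J * J = -1) (p Z : V) :
    Z ⬝ᵥ (wd p (cj J p) *ᵥ (J *ᵥ Z)) = (p ⬝ᵥ Z) ^ 2 + (p ⬝ᵥ (J *ᵥ Z)) ^ 2 := by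
  rw [dot_wd, cj_dot, cj_dot, Matrix.mulVec_mulVec, h, Matrix.neg_mulVec, Matrix.one_mulVec,
    dotProduct_neg]
  ring

theorem wd_cj_pos {J : Mat} (h : J * J = -1) (p : V) : IsPos J (wd p (cj J p)) := by
  refine ⟨⟨wd_transpose _ _, ?_⟩, fun Z => ?_⟩
  · rw [conj_wd, cj_cj h, wd_neg_right, ← wd_swap]
  · rw [dot_wd_cj h]; positivity

theorem al_anti {J : Mat} (h : J * J = -1) (p q : V) :
    IsAnti J (wd p (cj J q) - wd q (cj J p)) := by
  refine ⟨?_, ?_⟩
  · rw [Matrix.transpose_sub, wd_transpose, wd_transpose]; abel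
  · rw [Matrix.mul_sub, Matrix.sub_mul, conj_wd, conj_wd, cj_cj h, cj_cj h, wd_neg_right,
      wd_neg_right, wd_swap (cj J q) p, wd_swap (cj J p) q]
    abel

theorem dot_om {J : Mat} (h : J * J = -1) (Z : V) :
    Z ⬝ᵥ (om J *ᵥ (J *ᵥ Z)) = Z ⬝ᵥ Z + (J *ᵥ Z) ⬝ᵥ (J *ᵥ Z) := by
  rw [om, Matrix.sub_mulVec, dotProduct_sub, Matrix.mulVec_mulVec Z J J, h, Matrix.neg_mulVec,
    Matrix.one_mulVec, dotProduct_neg, Matrix.dotProduct_mulVec Z Jᵀ, Matrix.vecMul_transpose]
  ring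

theorem om_pos {J : Mat} (h : J * J = -1) : IsPos J (om J) := by
  refine ⟨⟨?_, ?_⟩, fun Z => ?_⟩
  · rw [om, Matrix.transpose_sub, Matrix.transpose_transpose]; abel
  · rw [om, Matrix.mul_sub, Matrix.sub_mul, tr_mul_tr h, Matrix.mul_assoc, h]; simp; abel
  · rw [dot_om h]
    exact add_nonneg (Finset.sum_nonneg fun i _ => mul_self_nonneg _)
      (Finset.sum_nonneg fun i _ => mul_self_nonneg _)

/-! ### Matrices of endomorphisms -/

theorem sum_bas (Z : E) : ∑ j, Z j • bas j = Z := by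
  ext i
  simp [bas, Fin.sum_univ_four]
  fin_cases i <;> simp

theorem apply_eq_mulVec (A : E →L[ℝ] E) (Z : E) : (A Z).ofLp = mat A *ᵥ Z.ofLp := by
  ext i
  conv_lhs => rw [← sum_bas Z]
  simp [mat, Matrix.mulVec, dotProduct, map_sum, mul_comm]

theorem cov_dot (P : E →L[ℝ] ℝ) (Z : E) : cov P ⬝ᵥ Z.ofLp = P Z := by
  conv_rhs => rw [← sum_bas Z]
  simp [cov, dotProduct, map_sum, mul_comm]

theorem mat_sq {A : E →L[ℝ] E} (h : ∀ Z, A (A Z) = -Z) : mat A * mat A = -1 := by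
  ext i j
  have h1 := congrFun (apply_eq_mulVec A (A (bas j))) i
  rw [h] at h1
  simp only [Matrix.mul_apply, Matrix.neg_apply]
  have h2 : ∑ k, mat A i k * mat A k j = (mat A *ᵥ (A (bas j)).ofLp) i := by
    simp [Matrix.mulVec, dotProduct, mat]
  rw [h2, ← h1]
  simp [bas, Matrix.one_apply]

theorem dot_self_eq (Z : E) : Z.ofLp ⬝ᵥ Z.ofLp = ‖Z‖ ^ 2 := by
  rw [EuclideanSpace.real_norm_sq_eq]; simp [dotProduct, sq]

namespace Ctx

variable (c : Ctx)

theorem M_sq (x : E) : c.M x * c.M x = -1 := mat_sq (c.sq x)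

theorem abs_o : |c.o| = 1 := by rcases c.o_sign with h | h <;> simp [h]

theorem w_comm (β γ : Mat) : c.w β γ = c.w γ β := by simp only [w, pf_comm β]

theorem w_add_left (β β' γ : Mat) : c.w (β + β') γ = c.w β γ + c.w β' γ := by
  simp only [w, pf_add_left]; ring

theorem w_add_right (β γ γ' : Mat) : c.w β (γ + γ') = c.w β γ + c.w β γ' := by
  simp only [w, pf_add_right]; ring

theorem w_sub_left (β β' γ : Mat) : c.w (β - β') γ = c.w β γ - c.w β' γ := by
  simp only [w, pf_sub_left]; ring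

theorem w_sub_right (β γ γ' : Mat) : c.w β (γ - γ') = c.w β γ - c.w β γ' := by
  simp only [w, pf_sub_right]; ring

theorem w_smul_left (t : ℝ) (β γ : Mat) : c.w (t • β) γ = t * c.w β γ := by
  simp only [w, pf_smul_left]; ring

theorem w_smul_right (t : ℝ) (β γ : Mat) : c.w β (t • γ) = t * c.w β γ := by
  simp only [w, pf_smul_right]; ring

theorem w_neg_left (β γ : Mat) : c.w (-β) γ = -c.w β γ := by simp only [w, pf_neg_left]; ring

theorem w_neg_right (β γ : Mat) : c.w β (-γ) = -c.w β γ := by simp only [w, pf_neg_right]; ring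

@[simp] theorem w_zero_left (γ : Mat) : c.w 0 γ = 0 := by simp [w]

@[simp] theorem w_zero_right (γ : Mat) : c.w γ 0 = 0 := by simp [w]

theorem abs_w (β γ : Mat) : |c.w β γ| = |pf β γ| := by rw [w, abs_mul, c.abs_o, one_mul]

theorem abs_w_le {β γ : Mat} {a b : ℝ} (hβ : ∀ i j, |β i j| ≤ a) (hγ : ∀ i j, |γ i j| ≤ b) :
    |c.w β γ| ≤ 6 * (a * b) := by rw [abs_w]; exact abs_pf_le hβ hγ

theorem s_add_left (x : E) (p p' q : V) : c.s x (p + p') q = c.s x p q + c.s x p' q :=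
  wd_add_left _ _ _

theorem s_add_right (x : E) (p q q' : V) : c.s x p (q + q') = c.s x p q + c.s x p q' := by
  simp only [s, cj_add, wd_add_right]

theorem s_sub_left (x : E) (p p' q : V) : c.s x (p - p') q = c.s x p q - c.s x p' q :=
  wd_sub_left _ _ _

theorem s_sub_right (x : E) (p q q' : V) : c.s x p (q - q') = c.s x p q - c.s x p q' := by
  simp only [s, cj_sub, wd_sub_right]

theorem s_smul_left (x : E) (t : ℝ) (p q : V) : c.s x (t • p) q = t • c.s x p q :=
  wd_smul_left _ _ _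

theorem s_smul_right (x : E) (t : ℝ) (p q : V) : c.s x p (t • q) = t • c.s x p q := by
  simp only [s, cj_smul, wd_smul_right]

@[simp] theorem s_zero_left (x : E) (q : V) : c.s x 0 q = 0 := wd_zero_left _

@[simp] theorem s_zero_right (x : E) (q : V) : c.s x q 0 = 0 := by simp [s]

theorem al_sub_right (x : E) (p q q' : V) : c.al x p (q - q') = c.al x p q - c.al x p q' := by
  simp only [al, s_sub_left, s_sub_right]; abel

@[simp] theorem al_zero_left (x : E) (q : V) : c.al x 0 q = 0 := by simp [al]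

@[simp] theorem al_zero_right (x : E) (q : V) : c.al x q 0 = 0 := by simp [al]

theorem s_pos (x : E) (p : V) : c.Pos x (c.s x p p) := wd_cj_pos (c.M_sq x) p

theorem al_anti (x : E) (p q : V) : IsAnti (c.M x) (c.al x p q) := H82.al_anti (c.M_sq x) p q

theorem Om_pos (x : E) : c.Pos x (c.Om x) := om_pos (c.M_sq x)

theorem w_al_al (x : E) (p q : V) :
    c.w (c.al x p q) (c.al x p q) = 2 * c.w (c.s x p p) (c.s x q q) := by
  simp only [w, al, s, pf_al_al]; ring

theorem Pos.add {c : Ctx} {x : E} {β γ : Mat} (h : c.Pos x β) (h' : c.Pos x γ) :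
    c.Pos x (β + γ) := IsPos.add h h'

theorem Pos.smul {c : Ctx} {x : E} {β : Mat} (h : c.Pos x β) {t : ℝ} (ht : 0 ≤ t) :
    c.Pos x (t • β) := IsPos.smul h ht

/-- Enlarging the multiple of `ω`. -/
theorem Pos.mono {c : Ctx} {x : E} {β : Mat} {s t : ℝ} (h : c.Pos x (β + s • c.Om x))
    (hst : s ≤ t) : c.Pos x (β + t • c.Om x) := by
  have := h.add ((c.Om_pos x).smul (sub_nonneg.2 hst))
  convert this using 1
  rw [sub_smul]; abel

theorem w_Om_Om (x : E) : 0 < c.w (c.Om x) (c.Om x) := c.o_pos x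

theorem w_pos (hA : SLinA) {x : E} {β γ : Mat} (h : c.Pos x β) (h' : c.Pos x γ) :
    0 ≤ c.w β γ := hA.pos_pos _ _ (c.M_sq x) (c.o_pos x) _ _ h h'

theorem w_anti (hA : SLinA) {x : E} {β : Mat} (h : IsAnti (c.M x) β) : 0 ≤ c.w β β :=
  hA.anti_nonneg _ _ (c.M_sq x) (c.o_pos x) _ h

theorem w_orth (hB : SLinB) {x : E} {β γ : Mat} (h : IsInv (c.M x) β) (h' : IsAnti (c.M x) γ) :
    c.w β γ = 0 := by rw [w, hB.orth _ (c.M_sq x) _ _ h h', mul_zero]

theorem anti_cs (hA : SLinA) {x : E} {β γ : Mat} (h : IsAnti (c.M x) β) (h' : IsAnti (c.M x) γ)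
    {t : ℝ} (ht : 0 < t) : |c.w β γ| ≤ t / 2 * c.w β β + 1 / (2 * t) * c.w γ γ := by
  have h1 := c.w_anti hA ((h.smul t).add h')
  have h2 := c.w_anti hA ((h.smul t).sub h')
  simp only [w_add_left, w_add_right, w_sub_left, w_sub_right, w_smul_left, w_smul_right,
    c.w_comm γ β] at h1 h2
  have e : t / 2 * c.w β β + 1 / (2 * t) * c.w γ γ =
      (t * (t * c.w β β) + c.w γ γ) / (2 * t) := by field_simp
  rw [e, le_div_iff₀ (by positivity), ← abs_of_pos (show 0 < 2 * t by positivity), ← abs_mul,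
    abs_le]
  constructor <;> nlinarith

end Ctx

end Pool.Agent.MP_13e7a1_an.H82
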