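import Pool.Agent.MP_13e7a1_an.H82.Local
import Pool.Agent.MP_13e7a1_an.H17.AP
import Pool.Agent.MP_13e7a1_an.H19.Smooth
import Pool.Agent.MP_13e7a1_an.H24.WG
import Pool.Agent.MP_13e7a1_an.H33.Ker
import Pool.Agent.MP_13e7a1_an.H39.W12
import Pool.Agent.MP_13e7a1_an.H42.CTU
import Pool.Agent.MP_13e7a1_an.H48.Disc
import Pool.Agent.MP_13e7a1_an.H50.Abs
import Pool.Agent.MP_13e7a1_an.H54.CauB
import Pool.Agent.MP_13e7a1_an.H54.Sup
import Pool.Agent.MP_13e7a1_an.H54.Tri
import Pool.Agent.MP_13e7a1_an.H59.LinB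
import Pool.Agent.MP_13e7a1_an.H61.Chart
import Pool.Agent.MP_13e7a1_an.H61.Main
import Pool.Agent.MP_13e7a1_an.H63.Nemy
import Pool.Agent.MP_13e7a1_an.H64.Lap
import Pool.Agent.MP_13e7a1_an.H65.CTL
import Pool.Agent.MP_13e7a1_an.H70.CauA
import Pool.Agent.MP_13e7a1_an.H71.B3
import Pool.Agent.MP_13e7a1_an.H71.Int
import Pool.Agent.MP_13e7a1_an.H72.Semi
import Pool.Agent.MP_13e7a1_an.H79.B1
import Pool.Agent.MP_13e7a1_an.H79.B2
import Pool.Agent.MP_13e7a1_an.H79.Pt
import Pool.Agent.MP_13e7a1_an.H95.AE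
import Pool.Agent.MP_13e7a1_an.H98.LinA

/-!
Assembly of the steps.
-/

namespace Pool.Agent.MP_13e7a1_an.H82

universe uu

theorem linB : SLinB := H59.linB H98.linA

theorem disc : SDisc := H48.disc H70.cauA (H54.cauB H70.cauA) (H72.semi H63.nemy H70.cauA)

theorem intA : SIntA := H71.intA linB H79.pt

theorem intB : SIntB := H71.intB linB H79.pt

theorem ap : SAP := H17.ap disc H54.sup (H19.smooth H33.ker H64.lap)

theorem w12 : SW12 := H39.w12 H98.linA linB intB

theorem ctu : SCTU := H42.ctu H98.linA linB intA intB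

theorem ctl : SCTL := H65.ctl H98.linA linB intA intB (H54.tri H98.linA linB H79.pt intA intB)

theorem loc : SLocal :=
  local_ H79.pt ap (H95.ae disc) w12 ctu ctl (H50.abs_ H98.linA linB H79.pt intA intB) (H24.wg intA)

theorem main : SMain.{uu} :=
  H61.main (H79.b1 linB) (H79.b2 linB) (H71.b3 linB) (H64.pshL disc) (H61.chart H98.linA) loc

end Pool.Agent.MP_13e7a1_an.H82
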