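import Pool.Agent.MP_13e7a1_an.H82.Alg

/-!
Linearity, smoothness, bounds on compact sets, integral tools.
-/

open scoped ContDiff Topology Matrix
open Set Metric MeasureTheory Filter

noncomputable section

namespace Pool.Agent.MP_13e7a1_an.H82

/-! ### `pd`, `grad`, `d1` -/

theorem contDiff_pd {f : E → ℝ} (hf : ContDiff ℝ ∞ f) (i : Fin 4) : ContDiff ℝ ∞ (pd i f) := by
  unfold pd
  exact (hf.fderiv_right (m := ∞) le_rfl).clm_apply contDiff_const

theorem contDiff_grad {f : E → ℝ} (hf : ContDiff ℝ ∞ f) : ContDiff ℝ ∞ (grad f) :=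
  contDiff_pi.2 fun i => contDiff_pd hf i

theorem continuous_grad {f : E → ℝ} (hf : ContDiff ℝ ∞ f) : Continuous (grad f) :=
  (contDiff_grad hf).continuous

theorem diffAt {f : E → ℝ} (hf : ContDiff ℝ ∞ f) (x : E) : DifferentiableAt ℝ f x :=
  (hf.differentiable (by simp)) x

theorem grad_eq_cov (f : E → ℝ) (x : E) : grad f x = cov (fderiv ℝ f x) := rfl

theorem pd_add {f g : E → ℝ} {x : E} (hf : DifferentiableAt ℝ f x) (hg : DifferentiableAt ℝ g x)
    (i : Fin 4) : pd i (fun y => f y + g y) x = pd i f x + pd i g x := by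
  simp only [pd]; rw [fderiv_fun_add hf hg]; rfl

theorem pd_sub {f g : E → ℝ} {x : E} (hf : DifferentiableAt ℝ f x) (hg : DifferentiableAt ℝ g x)
    (i : Fin 4) : pd i (fun y => f y - g y) x = pd i f x - pd i g x := by
  simp only [pd]; rw [fderiv_fun_sub hf hg]; rfl

theorem pd_mul {f g : E → ℝ} {x : E} (hf : DifferentiableAt ℝ f x) (hg : DifferentiableAt ℝ g x)
    (i : Fin 4) : pd i (fun y => f y * g y) x = f x * pd i g x + g x * pd i f x := by
  simp only [pd]; rw [fderiv_fun_mul hf hg]; simp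

theorem pd_const_mul {f : E → ℝ} {x : E} (hf : DifferentiableAt ℝ f x) (t : ℝ) (i : Fin 4) :
    pd i (fun y => t * f y) x = t * pd i f x := by
  simp only [pd]; rw [fderiv_const_mul hf]; simp

theorem pd_neg (f : E → ℝ) (x : E) (i : Fin 4) : pd i (fun y => -f y) x = -pd i f x := by
  simp only [pd]; rw [fderiv_fun_neg]; rfl

@[simp] theorem pd_const (t : ℝ) (x : E) (i : Fin 4) : pd i (fun _ => t) x = 0 := by simp [pd]

theorem pd_sum {ι : Type} (s : Finset ι) {f : ι → E → ℝ} {x : E}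
    (hf : ∀ k ∈ s, DifferentiableAt ℝ (f k) x) (i : Fin 4) :
    pd i (fun y => ∑ k ∈ s, f k y) x = ∑ k ∈ s, pd i (f k) x := by
  simp only [pd]; rw [fderiv_fun_sum hf]; simp

theorem pd_congr {f g : E → ℝ} {x : E} (h : f =ᶠ[𝓝 x] g) (i : Fin 4) : pd i f x = pd i g x := by
  simp only [pd]; rw [h.fderiv_eq]

theorem pd_comp {f : E → ℝ} {ψ : ℝ → ℝ} {x : E} (hf : DifferentiableAt ℝ f x)
    (hψ : DifferentiableAt ℝ ψ (f x)) (i : Fin 4) :
    pd i (fun y => ψ (f y)) x = deriv ψ (f x) * pd i f x := by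
  simp only [pd]
  have h := (hψ.hasDerivAt.comp_hasFDerivAt x hf.hasFDerivAt).fderiv
  rw [show fderiv ℝ (fun y => ψ (f y)) x = _ from h]
  simp

theorem pd_comm {f : E → ℝ} (hf : ContDiff ℝ ∞ f) (i j : Fin 4) (x : E) :
    pd i (pd j f) x = pd j (pd i f) x := by
  have h1 : DifferentiableAt ℝ (fderiv ℝ f) x :=
    ((hf.fderiv_right (m := ∞) le_rfl).differentiable (by simp)) x
  have h2 : ∀ k l, pd k (pd l f) x = fderiv ℝ (fderiv ℝ f) x (bas k) (bas l) := fun k l => by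
    unfold pd
    rw [fderiv_clm_apply h1 (differentiableAt_const _)]
    simp
  rw [h2, h2]
  exact (hf.contDiffAt.isSymmSndFDerivAt (by simp; norm_cast)) _ _

theorem grad_add {f g : E → ℝ} (hf : ContDiff ℝ ∞ f) (hg : ContDiff ℝ ∞ g) (x : E) :
    grad (fun y => f y + g y) x = grad f x + grad g x :=
  funext fun i => pd_add (diffAt hf x) (diffAt hg x) i

theorem grad_sub {f g : E → ℝ} (hf : ContDiff ℝ ∞ f) (hg : ContDiff ℝ ∞ g) (x : E) :
    grad (fun y => f y - g y) x = grad f x - grad g x :=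
  funext fun i => pd_sub (diffAt hf x) (diffAt hg x) i

theorem grad_mul {f g : E → ℝ} (hf : ContDiff ℝ ∞ f) (hg : ContDiff ℝ ∞ g) (x : E) :
    grad (fun y => f y * g y) x = f x • grad g x + g x • grad f x :=
  funext fun i => pd_mul (diffAt hf x) (diffAt hg x) i

theorem grad_const_mul {f : E → ℝ} (hf : ContDiff ℝ ∞ f) (t : ℝ) (x : E) :
    grad (fun y => t * f y) x = t • grad f x :=
  funext fun i => pd_const_mul (diffAt hf x) t i

@[simp] theorem grad_const (t : ℝ) (x : E) : grad (fun _ => t) x = 0 :=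
  funext fun i => pd_const t x i

theorem grad_comp {f : E → ℝ} {ψ : ℝ → ℝ} (hf : ContDiff ℝ ∞ f) (hψ : ContDiff ℝ ∞ ψ) (x : E) :
    grad (fun y => ψ (f y)) x = deriv ψ (f x) • grad f x :=
  funext fun i => pd_comp (diffAt hf x) ((hψ.differentiable (by simp)) _) i

theorem grad_congr {f g : E → ℝ} {x : E} (h : f =ᶠ[𝓝 x] g) : grad f x = grad g x :=
  funext fun i => pd_congr h i

theorem grad_congr' {f g : E → ℝ} {x : E} (h : f =ᶠ[𝓝 x] g) : grad f =ᶠ[𝓝 x] grad g :=
  h.eventually_nhds.mono fun _ hy => grad_congr hy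

/-- A function that vanishes off a closed set vanishes near every point off that set. -/
theorem eventually_zero {F : Type} [Zero F] {D : Set E} (hD : IsClosed D) {h : E → F}
    (h0 : ∀ x, x ∉ D → h x = 0) {x : E} (hx : x ∉ D) : h =ᶠ[𝓝 x] fun _ => 0 :=
  Filter.eventually_of_mem (hD.isOpen_compl.mem_nhds hx) fun y hy => h0 y hy

theorem grad_zero_off {D : Set E} (hD : IsClosed D) {h : E → ℝ} (h0 : ∀ x, x ∉ D → h x = 0)
    {x : E} (hx : x ∉ D) : grad h x = 0 := by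
  rw [grad_congr (eventually_zero hD h0 hx), grad_const]

theorem d1_apply (a : E → V) (x : E) (i j : Fin 4) :
    d1 a x i j = pd i (fun y => a y j) x - pd j (fun y => a y i) x := rfl

theorem d1_transpose (a : E → V) (x : E) : (d1 a x)ᵀ = -d1 a x := by
  ext i j; simp only [d1_apply, Matrix.transpose_apply, Matrix.neg_apply]; ring

theorem d1_congr {a b : E → V} {x : E} (h : a =ᶠ[𝓝 x] b) : d1 a x = d1 b x := by
  ext i j
  rw [d1_apply, d1_apply, pd_congr (h.mono fun y hy => congrFun hy j),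
    pd_congr (h.mono fun y hy => congrFun hy i)]

theorem comp_diff {a : E → V} (ha : ContDiff ℝ ∞ a) (j : Fin 4) : ContDiff ℝ ∞ fun y => a y j :=
  contDiff_pi.1 ha j

theorem d1_add {a b : E → V} (ha : ContDiff ℝ ∞ a) (hb : ContDiff ℝ ∞ b) (x : E) :
    d1 (fun y => a y + b y) x = d1 a x + d1 b x := by
  ext i j
  simp only [d1_apply, Matrix.add_apply, Pi.add_apply]
  rw [pd_add (diffAt (comp_diff ha j) x) (diffAt (comp_diff hb j) x),
    pd_add (diffAt (comp_diff ha i) x) (diffAt (comp_diff hb i) x)]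
  ring

theorem d1_smul {h : E → ℝ} {a : E → V} (hh : ContDiff ℝ ∞ h) (ha : ContDiff ℝ ∞ a) (x : E) :
    d1 (fun y => h y • a y) x = wd (grad h x) (a x) + h x • d1 a x := by
  ext i j
  simp only [d1_apply, Matrix.add_apply, Pi.smul_apply, smul_eq_mul, Matrix.smul_apply, wd_apply,
    grad]
  rw [pd_mul (diffAt hh x) (diffAt (comp_diff ha j) x),
    pd_mul (diffAt hh x) (diffAt (comp_diff ha i) x)]
  ring

theorem d1_const_smul {a : E → V} (ha : ContDiff ℝ ∞ a) (t : ℝ) (x : E) :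
    d1 (fun y => t • a y) x = t • d1 a x := by
  rw [d1_smul (h := fun _ => t) contDiff_const ha]; simp

theorem d1_grad {f : E → ℝ} (hf : ContDiff ℝ ∞ f) (x : E) : d1 (grad f) x = 0 := by
  ext i j
  exact sub_eq_zero.2 (pd_comm hf i j x)

theorem contDiff_d1 {a : E → V} (ha : ContDiff ℝ ∞ a) (i j : Fin 4) :
    ContDiff ℝ ∞ fun x => d1 a x i j :=
  (contDiff_pd (comp_diff ha j) i).sub (contDiff_pd (comp_diff ha i) j)

/-! ### Smooth matrix fields -/

/-- A matrix field with smooth entries. -/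
def SmM (β : E → Mat) : Prop := ∀ i j, ContDiff ℝ ∞ fun x => β x i j

theorem SmM.continuous {β : E → Mat} (h : SmM β) : Continuous β :=
  continuous_matrix fun i j => (h i j).continuous

theorem SmM.add {β γ : E → Mat} (h : SmM β) (h' : SmM γ) : SmM fun x => β x + γ x :=
  fun i j => (h i j).add (h' i j)

theorem SmM.sub {β γ : E → Mat} (h : SmM β) (h' : SmM γ) : SmM fun x => β x - γ x :=
  fun i j => (h i j).sub (h' i j)

theorem SmM.smul {β : E → Mat} {t : E → ℝ} (ht : ContDiff ℝ ∞ t) (h : SmM β) :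
    SmM fun x => t x • β x := fun i j => ht.mul (h i j)

theorem SmM.mul {β γ : E → Mat} (h : SmM β) (h' : SmM γ) : SmM fun x => β x * γ x := fun i j => by
  simp only [Matrix.mul_apply]
  exact ContDiff.sum fun k _ => (h i k).mul (h' k j)

theorem SmM.transpose {β : E → Mat} (h : SmM β) : SmM fun x => (β x)ᵀ := fun i j => h j i

theorem SmM.pf {β γ : E → Mat} (h : SmM β) (h' : SmM γ) : ContDiff ℝ ∞ fun x => pf (β x) (γ x) := by
  unfold H82.pf
  exact ((((((h 0 1).mul (h' 2 3)).sub ((h 0 2).mul (h' 1 3))).add ((h 0 3).mul (h' 1 2))).add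
    ((h 1 2).mul (h' 0 3))).sub ((h 1 3).mul (h' 0 2))).add ((h 2 3).mul (h' 0 1))

theorem smM_wd {p q : E → V} (hp : ContDiff ℝ ∞ p) (hq : ContDiff ℝ ∞ q) :
    SmM fun x => wd (p x) (q x) := fun i j =>
  ((comp_diff hp i).mul (comp_diff hq j)).sub ((comp_diff hp j).mul (comp_diff hq i))

theorem contDiff_cj {β : E → Mat} (h : SmM β) {p : E → V} (hp : ContDiff ℝ ∞ p) :
    ContDiff ℝ ∞ fun x => cj (β x) (p x) := contDiff_pi.2 fun j => by
  simp only [cj_apply]
  exact (ContDiff.sum fun k _ => (comp_diff hp k).mul (h k j)).neg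

theorem continuous_pf {X : Type} [TopologicalSpace X] {β γ : X → Mat} (h : Continuous β)
    (h' : Continuous γ) : Continuous fun x => pf (β x) (γ x) := by
  unfold pf
  fun_prop

theorem continuous_wd {X : Type} [TopologicalSpace X] {p q : X → V} (hp : Continuous p)
    (hq : Continuous q) : Continuous fun x => wd (p x) (q x) :=
  continuous_matrix fun i j => by simp only [wd_apply]; fun_prop

theorem continuous_cj {X : Type} [TopologicalSpace X] {β : X → Mat} {p : X → V}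
    (h : Continuous β) (hp : Continuous p) : Continuous fun x => cj (β x) (p x) :=
  continuous_pi fun j => by simp only [cj_apply]; fun_prop

theorem exists_entry_bound {D : Set E} (hD : IsCompact D) {β : E → Mat} (h : Continuous β) :
    ∃ C : ℝ, 0 ≤ C ∧ ∀ x ∈ D, ∀ i j, |β x i j| ≤ C := by
  obtain ⟨C, hC⟩ := hD.exists_bound_of_continuousOn
    (f := fun x => fun i j => β x i j) (by fun_prop)
  refine ⟨max C 0, le_max_right _ _, fun x hx i j => ?_⟩
  exact ((norm_le_pi_norm (fun j => β x i j) j).trans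
    ((norm_le_pi_norm (fun i j => β x i j) i).trans (hC x hx))).trans (le_max_left _ _)

theorem exists_bound {F : Type} [NormedAddCommGroup F] {D : Set E} (hD : IsCompact D) {h : E → F}
    (hc : Continuous h) : ∃ C : ℝ, 0 ≤ C ∧ ∀ x ∈ D, ‖h x‖ ≤ C := by
  obtain ⟨C, hC⟩ := hD.exists_bound_of_continuousOn hc.continuousOn
  exact ⟨max C 0, le_max_right _ _, fun x hx => (hC x hx).trans (le_max_left _ _)⟩

namespace Ctx

variable (c : Ctx)

theorem smM_M : SmM c.M := fun i j => by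
  simp only [M, mat, Matrix.of_apply]
  exact (EuclideanSpace.proj (𝕜 := ℝ) i).contDiff.comp (c.smooth.clm_apply contDiff_const)

theorem smM_Om : SmM c.Om := c.smM_M.transpose.sub c.smM_M

theorem contDiff_dc {f : E → ℝ} (hf : ContDiff ℝ ∞ f) :
    ContDiff ℝ ∞ fun y => cj (mat (c.J y)) (grad f y) :=
  contDiff_cj c.smM_M (contDiff_grad hf)

theorem smM_ddc {f : E → ℝ} (hf : ContDiff ℝ ∞ f) : SmM (ddc c.J f) :=
  contDiff_d1 (c.contDiff_dc hf)

theorem smM_plus {β : E → Mat} (h : SmM β) : SmM fun x => plus (c.M x) (β x) :=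
  SmM.smul (t := fun _ => (1 / 2 : ℝ)) contDiff_const
    (h.add ((c.smM_M.transpose.mul h).mul c.smM_M))

theorem smM_minus {β : E → Mat} (h : SmM β) : SmM fun x => minus (c.M x) (β x) :=
  SmM.smul (t := fun _ => (1 / 2 : ℝ)) contDiff_const
    (h.sub ((c.smM_M.transpose.mul h).mul c.smM_M))

theorem smM_T {f : E → ℝ} (hf : ContDiff ℝ ∞ f) : SmM (c.T f) := c.smM_plus (c.smM_ddc hf)

theorem contDiff_cjc (p : V) : ContDiff ℝ ∞ fun y => cj (mat (c.J y)) p :=
  contDiff_cj c.smM_M contDiff_const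

theorem smM_Nu_const (p : V) : SmM fun x => c.Nu x p := c.smM_minus (contDiff_d1 (c.contDiff_cjc p))

theorem Nu_add (x : E) (p q : V) : c.Nu x (p + q) = c.Nu x p + c.Nu x q := by
  simp only [Nu, nu, cj_add]
  rw [d1_add (c.contDiff_cjc p) (c.contDiff_cjc q), minus_add]

theorem Nu_smul (x : E) (t : ℝ) (p : V) : c.Nu x (t • p) = t • c.Nu x p := by
  simp only [Nu, nu, cj_smul]
  rw [d1_const_smul (c.contDiff_cjc p), minus_smul]

@[simp] theorem Nu_zero (x : E) : c.Nu x 0 = 0 := by simpa using c.Nu_smul x 0 0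

theorem Nu_sub (x : E) (p q : V) : c.Nu x (p - q) = c.Nu x p - c.Nu x q := by
  rw [sub_eq_add_neg, Nu_add, ← neg_one_smul ℝ q, Nu_smul]; simp [sub_eq_add_neg]

theorem Nu_eq_sum (x : E) (p : V) : c.Nu x p = ∑ k, p k • c.Nu x (Pi.single k 1) := by
  have h : p = p 0 • Pi.single 0 1 + p 1 • Pi.single 1 1 + p 2 • Pi.single 2 1
      + p 3 • Pi.single 3 1 := by
    ext i; fin_cases i <;> simp
  conv_lhs => rw [h]
  simp only [Nu_add, Nu_smul, Fin.sum_univ_four]

theorem smM_Nu {p : E → V} (hp : ContDiff ℝ ∞ p) : SmM fun x => c.Nu x (p x) := fun i j => by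
  simp only [c.Nu_eq_sum _ (p _), Matrix.sum_apply, Matrix.smul_apply, smul_eq_mul]
  exact ContDiff.sum fun k _ => (comp_diff hp k).mul (c.smM_Nu_const _ i j)

theorem smM_s {p q : E → V} (hp : ContDiff ℝ ∞ p) (hq : ContDiff ℝ ∞ q) :
    SmM fun x => c.s x (p x) (q x) := smM_wd hp (contDiff_cj c.smM_M hq)

theorem continuous_M : Continuous c.M := c.smM_M.continuous

theorem continuous_Om : Continuous c.Om := c.smM_Om.continuous

theorem continuous_T {f : E → ℝ} (hf : ContDiff ℝ ∞ f) : Continuous (c.T f) :=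
  (c.smM_T hf).continuous

theorem continuous_ddc {f : E → ℝ} (hf : ContDiff ℝ ∞ f) : Continuous (ddc c.J f) :=
  (c.smM_ddc hf).continuous

theorem continuous_Nu {p : E → V} (hp : Continuous p) : Continuous fun x => c.Nu x (p x) := by
  simp only [c.Nu_eq_sum _ (p _)]
  exact continuous_finsetSum _ fun k _ =>
    ((continuous_apply k).comp hp).smul (c.smM_Nu_const _).continuous

theorem continuous_s {p q : E → V} (hp : Continuous p) (hq : Continuous q) :
    Continuous fun x => c.s x (p x) (q x) := continuous_wd hp (continuous_cj c.continuous_M hq)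

theorem continuous_al {p q : E → V} (hp : Continuous p) (hq : Continuous q) :
    Continuous fun x => c.al x (p x) (q x) := (c.continuous_s hp hq).sub (c.continuous_s hq hp)

theorem continuous_w {β γ : E → Mat} (h : Continuous β) (h' : Continuous γ) :
    Continuous fun x => c.w (β x) (γ x) := continuous_const.mul (continuous_pf h h')

theorem continuous_n {p q : E → V} (hp : Continuous p) (hq : Continuous q) :
    Continuous fun x => c.n x (p x) (q x) := c.continuous_w (c.continuous_Nu hp) (c.continuous_Nu hq)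

theorem Eden_eq (φ : E → ℝ) (p q : V) (x : E) : c.o * Eden c.J φ p q x =
    -c.w (c.s x p q) (ddc c.J φ x) + c.w (c.al x p (grad φ x)) (c.Nu x q) - φ x * c.n x p q := by
  simp only [Eden, w, s, al, n, Nu, M]; ring

theorem continuous_Eden {φ : E → ℝ} (hφ : ContDiff ℝ ∞ φ) {p q : E → V} (hp : Continuous p)
    (hq : Continuous q) : Continuous fun x => c.o * Eden c.J φ (p x) (q x) x := by
  simp only [Eden_eq]
  exact ((c.continuous_w (c.continuous_s hp hq) (c.continuous_ddc hφ)).neg.add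
    (c.continuous_w (c.continuous_al hp (continuous_grad hφ)) (c.continuous_Nu hq))).sub
    (hφ.continuous.mul (c.continuous_n hp hq))

theorem n_comm (x : E) (p q : V) : c.n x p q = c.n x q p := c.w_comm _ _

theorem n_add_left (x : E) (p p' q : V) : c.n x (p + p') q = c.n x p q + c.n x p' q := by
  simp only [n, Nu_add, w_add_left]

theorem n_add_right (x : E) (p q q' : V) : c.n x p (q + q') = c.n x p q + c.n x p q' := by
  simp only [n, Nu_add, w_add_right]

theorem n_sub_left (x : E) (p p' q : V) : c.n x (p - p') q = c.n x p q - c.n x p' q := by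
  simp only [n, Nu_sub, w_sub_left]

theorem n_sub_right (x : E) (p q q' : V) : c.n x p (q - q') = c.n x p q - c.n x p q' := by
  simp only [n, Nu_sub, w_sub_right]

theorem n_smul_left (x : E) (t : ℝ) (p q : V) : c.n x (t • p) q = t * c.n x p q := by
  simp only [n, Nu_smul, w_smul_left]

theorem n_smul_right (x : E) (t : ℝ) (p q : V) : c.n x p (t • q) = t * c.n x p q := by
  simp only [n, Nu_smul, w_smul_right]

@[simp] theorem n_zero_left (x : E) (q : V) : c.n x 0 q = 0 := by simp [n]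

@[simp] theorem n_zero_right (x : E) (q : V) : c.n x q 0 = 0 := by simp [n]

theorem Eden_sub_left (φ : E → ℝ) (p p' q : V) (x : E) :
    c.o * Eden c.J φ (p - p') q x = c.o * Eden c.J φ p q x - c.o * Eden c.J φ p' q x := by
  simp only [Eden_eq, al, s_sub_left, s_sub_right, w_sub_left, n_sub_left]; ring

theorem Eden_sub_right (φ : E → ℝ) (p q q' : V) (x : E) :
    c.o * Eden c.J φ p (q - q') x = c.o * Eden c.J φ p q x - c.o * Eden c.J φ p q' x := by
  simp only [Eden_eq, s_sub_right, w_sub_left, n_sub_right, Nu_sub, w_sub_right]; ring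

/-! ### `T` is linear and local -/

theorem ddc_congr {f g : E → ℝ} {x : E} (h : f =ᶠ[𝓝 x] g) : ddc c.J f x = ddc c.J g x :=
  d1_congr ((grad_congr' h).mono fun y hy => by simp only [hy])

theorem T_congr {f g : E → ℝ} {x : E} (h : f =ᶠ[𝓝 x] g) : c.T f x = c.T g x := by
  simp only [T, TT, c.ddc_congr h]

theorem ddc_add {f g : E → ℝ} (hf : ContDiff ℝ ∞ f) (hg : ContDiff ℝ ∞ g) (x : E) :
    ddc c.J (fun y => f y + g y) x = ddc c.J f x + ddc c.J g x := by
  simp only [ddc, grad_add hf hg, cj_add]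
  exact d1_add (c.contDiff_dc hf) (c.contDiff_dc hg) x

theorem ddc_const_mul {f : E → ℝ} (hf : ContDiff ℝ ∞ f) (t : ℝ) (x : E) :
    ddc c.J (fun y => t * f y) x = t • ddc c.J f x := by
  simp only [ddc, grad_const_mul hf, cj_smul]
  exact d1_const_smul (c.contDiff_dc hf) t x

@[simp] theorem ddc_const (t : ℝ) (x : E) : ddc c.J (fun _ => t) x = 0 := by
  ext i j; simp [ddc, d1_apply]

theorem T_add {f g : E → ℝ} (hf : ContDiff ℝ ∞ f) (hg : ContDiff ℝ ∞ g) (x : E) :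
    c.T (fun y => f y + g y) x = c.T f x + c.T g x := by
  simp only [T, TT, c.ddc_add hf hg, plus_add]

theorem T_const_mul {f : E → ℝ} (hf : ContDiff ℝ ∞ f) (t : ℝ) (x : E) :
    c.T (fun y => t * f y) x = t • c.T f x := by
  simp only [T, TT, c.ddc_const_mul hf, plus_smul]

@[simp] theorem T_const (t : ℝ) (x : E) : c.T (fun _ => t) x = 0 := by
  simp [T, TT, plus]

theorem T_sub {f g : E → ℝ} (hf : ContDiff ℝ ∞ f) (hg : ContDiff ℝ ∞ g) (x : E) :
    c.T (fun y => f y - g y) x = c.T f x - c.T g x := by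
  have h := c.T_add hf (contDiff_const.mul hg : ContDiff ℝ ∞ fun y => (-1 : ℝ) * g y) x
  rw [c.T_const_mul hg] at h
  simpa [sub_eq_add_neg] using h

theorem T_add_const {f : E → ℝ} (hf : ContDiff ℝ ∞ f) (t : ℝ) (x : E) :
    c.T (fun y => f y + t) x = c.T f x := by
  rw [c.T_add hf contDiff_const]; simp

theorem T_inv (f : E → ℝ) (x : E) : IsInv (c.M x) (c.T f x) :=
  plus_inv (c.M_sq x) (d1_transpose _ _)

theorem Nu_anti (x : E) (p : V) : IsAnti (c.M x) (c.Nu x p) :=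
  minus_anti (c.M_sq x) (d1_transpose _ _)

theorem n_nonneg (hA : SLinA) (x : E) (p : V) : 0 ≤ c.n x p p := c.w_anti hA (c.Nu_anti x p)

theorem Eden_zero {φ : E → ℝ} {x : E} (h : φ =ᶠ[𝓝 x] fun _ => 0) (p q : V) :
    c.o * Eden c.J φ p q x = 0 := by
  rw [Eden_eq, c.ddc_congr h, grad_congr h, h.eq_of_nhds]; simp

/-! ### Bounds on compact sets -/

theorem s_bd {D : Set E} (hD : IsCompact D) :
    ∃ C : ℝ, 0 ≤ C ∧ ∀ x ∈ D, ∀ p q : V, ∀ i j, |c.s x p q i j| ≤ C * (‖p‖ * ‖q‖) := by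
  obtain ⟨a, ha, h⟩ := exists_entry_bound hD c.continuous_M
  refine ⟨8 * a, by positivity, fun x hx p q i j => (abs_wd_le _ _ i j).trans ?_⟩
  have := mul_le_mul_of_nonneg_left (norm_cj_le (h x hx) q) (norm_nonneg p)
  nlinarith

theorem al_bd {D : Set E} (hD : IsCompact D) :
    ∃ C : ℝ, 0 ≤ C ∧ ∀ x ∈ D, ∀ p q : V, ∀ i j, |c.al x p q i j| ≤ C * (‖p‖ * ‖q‖) := by
  obtain ⟨a, ha, h⟩ := c.s_bd hD
  refine ⟨2 * a, by positivity, fun x hx p q i j => ?_⟩
  rw [al, Matrix.sub_apply]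
  have h1 := h x hx p q i j
  have h2 := h x hx q p i j
  calc _ ≤ |c.s x p q i j| + |c.s x q p i j| := abs_sub _ _
    _ ≤ _ := by nlinarith

theorem Nu_bd {D : Set E} (hD : IsCompact D) :
    ∃ C : ℝ, 0 ≤ C ∧ ∀ x ∈ D, ∀ p : V, ∀ i j, |c.Nu x p i j| ≤ C * ‖p‖ := by
  choose a ha h using fun k : Fin 4 =>
    exists_entry_bound hD (c.smM_Nu_const (Pi.single k 1)).continuous
  refine ⟨∑ k, a k, Finset.sum_nonneg fun k _ => ha k, fun x hx p i j => ?_⟩
  rw [c.Nu_eq_sum, Matrix.sum_apply, Finset.sum_mul]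
  refine (Finset.abs_sum_le_sum_abs _ _).trans (Finset.sum_le_sum fun k _ => ?_)
  rw [Matrix.smul_apply, smul_eq_mul, abs_mul, mul_comm]
  exact mul_le_mul (h k x hx i j) (norm_le_pi_norm p k) (abs_nonneg _) (ha k)

theorem n_bd {D : Set E} (hD : IsCompact D) :
    ∃ C : ℝ, 0 ≤ C ∧ ∀ x ∈ D, ∀ p q : V, |c.n x p q| ≤ C * (‖p‖ * ‖q‖) := by
  obtain ⟨a, ha, h⟩ := c.Nu_bd hD
  refine ⟨6 * a ^ 2, by positivity, fun x hx p q => ?_⟩
  refine (c.abs_w_le (h x hx p) (h x hx q)).trans (le_of_eq ?_)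
  ring

theorem ws_bd {D : Set E} (hD : IsCompact D) {β : E → Mat} (hβ : Continuous β) :
    ∃ C : ℝ, 0 ≤ C ∧ ∀ x ∈ D, ∀ p q : V, |c.w (c.s x p q) (β x)| ≤ C * (‖p‖ * ‖q‖) := by
  obtain ⟨a, ha, h⟩ := c.s_bd hD
  obtain ⟨b, hb, h'⟩ := exists_entry_bound hD hβ
  refine ⟨6 * a * b, by positivity, fun x hx p q => ?_⟩
  refine (c.abs_w_le (h x hx p q) (h' x hx)).trans (le_of_eq ?_)
  ring

theorem walNu_bd {D : Set E} (hD : IsCompact D) :
    ∃ C : ℝ, 0 ≤ C ∧ ∀ x ∈ D, ∀ p q r : V,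
      |c.w (c.al x p q) (c.Nu x r)| ≤ C * (‖p‖ * ‖q‖ * ‖r‖) := by
  obtain ⟨a, ha, h⟩ := c.al_bd hD
  obtain ⟨b, hb, h'⟩ := c.Nu_bd hD
  refine ⟨6 * a * b, by positivity, fun x hx p q r => ?_⟩
  refine (c.abs_w_le (h x hx p q) (h' x hx r)).trans (le_of_eq ?_)
  ring

theorem eden_bd {D : Set E} (hD : IsCompact D) {φ : E → ℝ} (hφ : ContDiff ℝ ∞ φ) :
    ∃ C : ℝ, 0 ≤ C ∧ ∀ x ∈ D, ∀ p q : V, |c.o * Eden c.J φ p q x| ≤ C * (‖p‖ * ‖q‖) := by
  obtain ⟨a, ha, h1⟩ := c.ws_bd hD (c.continuous_ddc hφ)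
  obtain ⟨b, hb, h2⟩ := c.walNu_bd hD
  obtain ⟨d, hd, h3⟩ := c.n_bd hD
  obtain ⟨e, he, h4⟩ := exists_bound hD (continuous_grad hφ)
  obtain ⟨f, hf, h5⟩ := exists_bound hD hφ.continuous
  refine ⟨a + b * e + f * d, by positivity, fun x hx p q => ?_⟩
  rw [Eden_eq]
  have k1 := h1 x hx p q
  have k2 : |c.w (c.al x p (grad φ x)) (c.Nu x q)| ≤ b * e * (‖p‖ * ‖q‖) := by
    refine (h2 x hx p _ q).trans ?_
    have : ‖p‖ * ‖grad φ x‖ * ‖q‖ ≤ e * (‖p‖ * ‖q‖) := by
      have := mul_le_mul_of_nonneg_left (h4 x hx) (mul_nonneg (norm_nonneg p) (norm_nonneg q))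
      nlinarith
    nlinarith
  have k3 : |φ x * c.n x p q| ≤ f * d * (‖p‖ * ‖q‖) := by
    rw [abs_mul, mul_assoc]
    exact mul_le_mul (h5 x hx) (h3 x hx p q) (abs_nonneg _) hf
  have k1' := abs_le.1 k1
  have k2' := abs_le.1 k2
  have k3' := abs_le.1 k3
  rw [abs_le]
  constructor <;> nlinarith [k1'.1, k1'.2, k2'.1, k2'.2, k3'.1, k3'.2]

/-- Positive forms are controlled by their trace. -/
theorem trace_bd (hB : SLinB) {D : Set E} (hD : IsCompact D) :
    ∃ C : ℝ, 0 < C ∧ ∀ x ∈ D, ∀ β : Mat, c.Pos x β → ∀ i j, |β i j| ≤ C * c.w β (c.Om x) := by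
  obtain ⟨a, -, h⟩ := exists_entry_bound hD c.continuous_M
  obtain ⟨C, hC, h'⟩ := hB.trace a
  exact ⟨C, hC, fun x hx β hβ i j =>
    h' _ _ (c.M_sq x) c.o_sign (c.o_pos x) (h x hx) β hβ i j⟩

theorem pos_pf_bd (hB : SLinB) {D : Set E} (hD : IsCompact D) {τ : E → Mat} (hτ : Continuous τ) :
    ∃ C : ℝ, 0 ≤ C ∧ ∀ x ∈ D, ∀ β : Mat, c.Pos x β → |pf β (τ x)| ≤ C * c.w β (c.Om x) := by
  obtain ⟨a, ha, h⟩ := c.trace_bd hB hD
  obtain ⟨b, hb, h'⟩ := exists_entry_bound hD hτ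
  refine ⟨6 * a * b, by positivity, fun x hx β hβ => ?_⟩
  refine (abs_pf_le (h x hx β hβ) (h' x hx)).trans (le_of_eq ?_)
  ring

theorem coer (hB : SLinB) {D : Set E} (hD : IsCompact D) :
    ∃ a : ℝ, 0 < a ∧ ∀ x ∈ D, ∀ p : V, a * ‖p‖ ^ 2 ≤ c.w (c.s x p p) (c.Om x) := by
  obtain ⟨C, hC, h⟩ := c.trace_bd hB hD
  obtain ⟨b, hb, h'⟩ := exists_entry_bound hD c.continuous_M
  refine ⟨1 / (4 * C * (b + 1)), by positivity, fun x hx p => ?_⟩
  have hw := h x hx _ (c.s_pos x p)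
  have hw0 : 0 ≤ C * c.w (c.s x p p) (c.Om x) := (abs_nonneg _).trans (hw 0 0)
  have key : ∀ i, p i ^ 2 ≤ 4 * (b + 1) * (C * c.w (c.s x p p) (c.Om x)) := fun i => by
    have h1 := dot_wd_cj (c.M_sq x) p (Pi.single i 1)
    have h2 : Pi.single i 1 ⬝ᵥ (wd p (cj (c.M x) p) *ᵥ (c.M x *ᵥ Pi.single i 1)) =
        ∑ j, c.s x p p i j * c.M x j i := by
      simp [Matrix.mulVec, dotProduct, s, Pi.single_apply]
    have h3 : ∑ j, c.s x p p i j * c.M x j i ≤
        ∑ _j : Fin 4, (C * c.w (c.s x p p) (c.Om x)) * (b + 1) :=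
      Finset.sum_le_sum fun j _ => (le_abs_self _).trans (by
        rw [abs_mul]
        exact mul_le_mul (hw i j) ((h' x hx j i).trans (by linarith)) (abs_nonneg _) hw0)
    rw [h2] at h1
    simp only [dotProduct_single, mul_one] at h1
    simp only [Finset.sum_const, Finset.card_univ, Fintype.card_fin, nsmul_eq_mul] at h3
    push_cast at h3
    nlinarith [sq_nonneg (p ⬝ᵥ (c.M x *ᵥ Pi.single i 1))]
  have h4 : ‖p‖ ≤ √(4 * (b + 1) * (C * c.w (c.s x p p) (c.Om x))) :=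
    (pi_norm_le_iff_of_nonneg (Real.sqrt_nonneg _)).2 fun i => Real.abs_le_sqrt (key i)
  have h5 : ‖p‖ ^ 2 ≤ 4 * (b + 1) * (C * c.w (c.s x p p) (c.Om x)) := by
    have := pow_le_pow_left₀ (norm_nonneg p) h4 2
    rwa [Real.sq_sqrt (by positivity)] at this
  rw [div_mul_eq_mul_div, one_mul, div_le_iff₀ (by positivity)]
  nlinarith

theorem omom_bd {D : Set E} (hD : IsCompact D) :
    ∃ a : ℝ, 0 < a ∧ ∀ x ∈ D, a ≤ c.w (c.Om x) (c.Om x) := by
  rcases D.eq_empty_or_nonempty with h | h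
  · exact ⟨1, one_pos, by simp [h]⟩
  obtain ⟨x, -, hx⟩ := hD.exists_isMinOn h
    (c.continuous_w c.continuous_Om c.continuous_Om).continuousOn
  exact ⟨_, c.w_Om_Om x, fun y hy => hx hy⟩

/-- A continuous invariant field is dominated by a multiple of `ω` on a compact set. -/
theorem dominate {D : Set E} (hD : IsCompact D) {β : E → Mat} (hβ : Continuous β)
    (hi : ∀ x, IsInv (c.M x) (β x)) :
    ∃ K : ℝ, 0 ≤ K ∧ ∀ x ∈ D, c.Pos x (β x + K • c.Om x) ∧ c.Pos x (-β x + K • c.Om x) := by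
  obtain ⟨b, hb, h⟩ := exists_entry_bound hD hβ
  have key : ∀ x ∈ D, ∀ Z W : V, |Z ⬝ᵥ (β x *ᵥ W)| ≤ 8 * b * (Z ⬝ᵥ Z + W ⬝ᵥ W) := by
    intro x hx Z W
    have h1 : ∀ i j, |Z i * (β x i j * W j)| ≤ b / 2 * (Z i * Z i + W j * W j) := fun i j => by
      rw [abs_mul, abs_mul]
      have := h x hx i j
      have h2 : |Z i| * |W j| ≤ (Z i * Z i + W j * W j) / 2 := by
        nlinarith [sq_nonneg (|Z i| - |W j|), abs_mul_abs_self (Z i), abs_mul_abs_self (W j)]
      have h3 : 0 ≤ |Z i| * |W j| := by positivity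
      nlinarith
    have h2 : Z ⬝ᵥ (β x *ᵥ W) = ∑ i, ∑ j, Z i * (β x i j * W j) := by
      simp [dotProduct, Matrix.mulVec, Finset.mul_sum]
    have h3 : |Z ⬝ᵥ (β x *ᵥ W)| ≤ ∑ i, ∑ j, b / 2 * (Z i * Z i + W j * W j) := by
      rw [h2]
      exact (Finset.abs_sum_le_sum_abs _ _).trans (Finset.sum_le_sum fun i _ =>
        (Finset.abs_sum_le_sum_abs _ _).trans (Finset.sum_le_sum fun j _ => h1 i j))
    refine h3.trans ?_
    simp only [dotProduct, Fin.sum_univ_four]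
    nlinarith [mul_nonneg hb (mul_self_nonneg (Z 0)), mul_nonneg hb (mul_self_nonneg (Z 1)),
      mul_nonneg hb (mul_self_nonneg (Z 2)), mul_nonneg hb (mul_self_nonneg (Z 3)),
      mul_nonneg hb (mul_self_nonneg (W 0)), mul_nonneg hb (mul_self_nonneg (W 1)),
      mul_nonneg hb (mul_self_nonneg (W 2)), mul_nonneg hb (mul_self_nonneg (W 3))]
  refine ⟨8 * b, by positivity, fun x hx => ⟨⟨(hi x).add ((c.Om_pos x).1.smul _), fun Z => ?_⟩,
    ⟨(hi x).neg.add ((c.Om_pos x).1.smul _), fun Z => ?_⟩⟩⟩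
  · rw [Matrix.add_mulVec, dotProduct_add, Matrix.smul_mulVec, dotProduct_smul, Om,
      dot_om (c.M_sq x), smul_eq_mul]
    linarith [(abs_le.1 (key x hx Z (c.M x *ᵥ Z))).1]
  · rw [Matrix.add_mulVec, dotProduct_add, Matrix.smul_mulVec, dotProduct_smul, Om,
      dot_om (c.M_sq x), smul_eq_mul, Matrix.neg_mulVec, dotProduct_neg]
    linarith [(abs_le.1 (key x hx Z (c.M x *ᵥ Z))).2]

theorem T_dominate {D : Set E} (hD : IsCompact D) {f : E → ℝ} (hf : ContDiff ℝ ∞ f) :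
    ∃ K : ℝ, 0 ≤ K ∧ ∀ x ∈ D, c.Pos x (c.T f x + K • c.Om x) ∧ c.Pos x (-c.T f x + K • c.Om x) :=
  c.dominate hD (c.continuous_T hf) (c.T_inv f)

end Ctx

end Pool.Agent.MP_13e7a1_an.H82
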