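import Pool.Agent.MP_13e7a1_an.H82.Defs

/-!
Internal real formalism: covectors are `V`, real 2-forms are antisymmetric matrices.
-/

open scoped ContDiff Topology Matrix
open Set Metric MeasureTheory Filter

noncomputable section

namespace Pool.Agent.MP_13e7a1_an.H82

abbrev V := Fin 4 → ℝ
abbrev Mat := Matrix (Fin 4) (Fin 4) ℝ

/-- Matrix of an endomorphism of `E`. -/
def mat (A : E →L[ℝ] E) : Mat := Matrix.of fun i j => A (bas j) i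

/-- Components of a covector. -/
def cov (P : E →L[ℝ] ℝ) : V := fun i => P (bas i)

/-- Derivative in the `i`-th coordinate. -/
def pd (i : Fin 4) (f : E → ℝ) (x : E) : ℝ := fderiv ℝ f x (bas i)

/-- Components of `df`. -/
def grad (f : E → ℝ) (x : E) : V := fun i => pd i f x

/-- `p^c = -p ∘ J`. -/
def cj (J : Mat) (p : V) : V := -(p ᵥ* J)

/-- `p ∧ q`. -/
def wd (p q : V) : Mat := Matrix.of fun i j => p i * q j - p j * q i

/-- Exterior derivative of a field of covectors. -/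
def d1 (a : E → V) (x : E) : Mat :=
  Matrix.of fun i j => pd i (fun y => a y j) x - pd j (fun y => a y i) x

/-- `β ∧ γ` on the standard basis. -/
def pf (β γ : Mat) : ℝ :=
  β 0 1 * γ 2 3 - β 0 2 * γ 1 3 + β 0 3 * γ 1 2 + β 1 2 * γ 0 3 - β 1 3 * γ 0 2 + β 2 3 * γ 0 1

/-- `J`-invariant part. -/
def plus (J β : Mat) : Mat := (1 / 2 : ℝ) • (β + Jᵀ * β * J)

/-- `J`-anti-invariant part. -/
def minus (J β : Mat) : Mat := (1 / 2 : ℝ) • (β - Jᵀ * β * J)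

/-- The positive form `∑ dx_k ∧ d^c x_k`. -/
def om (J : Mat) : Mat := Jᵀ - J

def IsInv (J β : Mat) : Prop := βᵀ = -β ∧ Jᵀ * β * J = β

def IsAnti (J β : Mat) : Prop := βᵀ = -β ∧ Jᵀ * β * J = -β

def IsPos (J β : Mat) : Prop := IsInv J β ∧ ∀ Z : V, 0 ≤ Z ⬝ᵥ (β *ᵥ (J *ᵥ Z))

/-- `dd^c f`. -/
def ddc (J : E → E →L[ℝ] E) (f : E → ℝ) (x : E) : Mat :=
  d1 (fun y => cj (mat (J y)) (grad f y)) x

/-- `T_f`, the invariant part of `dd^c f`. -/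
def TT (J : E → E →L[ℝ] E) (f : E → ℝ) (x : E) : Mat := plus (mat (J x)) (ddc J f x)

/-- `ν(p)`, the anti-invariant part of `dd^c f` when `df = p`. -/
def nu (J : E → E →L[ℝ] E) (x : E) (p : V) : Mat :=
  minus (mat (J x)) (d1 (fun y => cj (mat (J y)) p) x)

/-- The density `E_φ (p, q)`. -/
def Eden (J : E → E →L[ℝ] E) (φ : E → ℝ) (p q : V) (x : E) : ℝ :=
  -pf (wd p (cj (mat (J x)) q)) (ddc J φ x)
    + pf (wd p (cj (mat (J x)) (grad φ x)) - wd (grad φ x) (cj (mat (J x)) p)) (nu J x q)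
    - φ x * pf (nu J x p) (nu J x q)

/-- A smooth almost complex structure on all of `ℝ⁴`, with its orientation sign. -/
structure Ctx where
  J : E → E →L[ℝ] E
  o : ℝ
  smooth : ContDiff ℝ ∞ J
  sq : ∀ x Z, J x (J x Z) = -Z
  o_sign : o = 1 ∨ o = -1
  o_pos : ∀ x, 0 < o * pf (om (mat (J x))) (om (mat (J x)))

namespace Ctx

variable (c : Ctx)

def M (x : E) : Mat := mat (c.J x)

def w (β γ : Mat) : ℝ := c.o * pf β γ

def T (f : E → ℝ) (x : E) : Mat := TT c.J f x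

def Nu (x : E) (p : V) : Mat := nu c.J x p

def Om (x : E) : Mat := om (c.M x)

def Pos (x : E) (β : Mat) : Prop := IsPos (c.M x) β

/-- `p ∧ q^c`. -/
def s (x : E) (p q : V) : Mat := wd p (cj (c.M x) q)

/-- `p ∧ q^c - q ∧ p^c`. -/
def al (x : E) (p q : V) : Mat := c.s x p q - c.s x q p

def n (x : E) (p q : V) : ℝ := c.w (c.Nu x p) (c.Nu x q)

/-- `∫_D φ T_a ∧ T_b`. -/
def N (D : Set E) (φ a b : E → ℝ) : ℝ := ∫ x in D, φ x * c.w (c.T a x) (c.T b x)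

/-- First order coefficient of `L_Z`. -/
def b (Z x : E) : E := fderiv ℝ c.J x (c.J x Z) Z - fderiv ℝ c.J x Z (c.J x Z)

/-- `L_Z f = dd^c f (Z, JZ)`. -/
def L (Z : E) (f : E → ℝ) (x : E) : ℝ :=
  fderiv ℝ (fderiv ℝ f) x Z Z + fderiv ℝ (fderiv ℝ f) x (c.J x Z) (c.J x Z)
    + fderiv ℝ f x (c.b Z x)

/-- Cauchy-Riemann equation on the unit disc. -/
def Hol (γ : ℂ → E) : Prop :=
  ∀ ζ ∈ ball (0 : ℂ) 1, ∀ v : ℂ, fderiv ℝ γ ζ (Complex.I * v) = c.J (γ ζ) (fderiv ℝ γ ζ v)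

/-- The part of plurisubharmonicity that the proof uses. -/
def Psh (U : Set E) (u : E → ℝ) : Prop :=
  UpperSemicontinuousOn u U ∧
    ∀ γ : ℂ → E, ContDiff ℝ ∞ γ → MapsTo γ (ball 0 1) U → c.Hol γ →
      ∀ r : ℝ, 0 < r → r < 1 → u (γ 0) ≤ Real.circleAverage (fun ζ => u (γ ζ)) 0 r

/-- A smooth family of holomorphic discs through all points near `p` in all small directions. -/
structure Fam (p : E) (R δ : ℝ) (lam : E × E × ℂ → E) : Prop where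
  smooth : ContDiff ℝ ∞ lam
  zero : ∀ x ∈ ball p δ, ∀ Z ∈ ball (0 : E) δ, lam (x, Z, 0) = x
  vel : ∀ x ∈ ball p δ, ∀ Z ∈ ball (0 : E) δ, fderiv ℝ (fun ζ => lam (x, Z, ζ)) 0 1 = Z
  hol : ∀ x ∈ ball p δ, ∀ Z ∈ ball (0 : E) δ, c.Hol (fun ζ => lam (x, Z, ζ))
  maps : ∀ x ∈ ball p δ, ∀ Z ∈ ball (0 : E) δ, ∀ ζ ∈ ball (0 : ℂ) 1, lam (x, Z, ζ) ∈ ball p R
  lin : ∀ ζ ∈ ball (0 : ℂ) 1, fderiv ℝ (fun W => lam (p, W, ζ)) 0 =
    ζ.re • ContinuousLinearMap.id ℝ E + ζ.im • c.J p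

/-- A decreasing sequence of smooth almost plurisubharmonic functions on `D`. -/
structure App (D : Set E) (f η : ℕ → E → ℝ) (K : ℝ) : Prop where
  smooth : ∀ j, ContDiff ℝ ∞ (f j)
  smooth' : ∀ j, ContDiff ℝ ∞ (η j)
  anti : ∀ j, ∀ x ∈ D, f (j + 1) x ≤ f j x
  bdd : ∀ j, ∀ x ∈ D, |f j x| ≤ K
  nonneg : ∀ j, ∀ x ∈ D, 0 ≤ η j x
  le : ∀ j, ∀ x ∈ D, η j x ≤ K
  pos : ∀ j, ∀ x ∈ D, c.Pos x (c.T (f j) x + η j x • c.Om x)

end Ctx

/-- The differentials are Cauchy in `L²(D)`. -/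
def Cau (D : Set E) (f : ℕ → E → ℝ) : Prop :=
  ∀ ε > 0, ∃ N : ℕ, ∀ j ≥ N, ∀ k ≥ N, ∫ x in D, ‖grad (f j) x - grad (f k) x‖ ^ 2 ≤ ε

/-- Convergence to zero in `W^{1,2}(D)`. -/
def Small (D : Set E) (η : ℕ → E → ℝ) : Prop :=
  Tendsto (fun j => ∫ x in D, η j x ^ 2) atTop (𝓝 0) ∧
    Tendsto (fun j => ∫ x in D, ‖grad (η j) x‖ ^ 2) atTop (𝓝 0)

/-- The convex cut `χ`: zero on `s ≤ 0`, slope one on `s ≥ 1`. -/
def chi (s : ℝ) : ℝ := ∫ t in (0 : ℝ)..s, Real.smoothTransition t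

/-- The primitive of `χ`. -/
def chi2 (s : ℝ) : ℝ := ∫ t in (0 : ℝ)..s, chi t

/-- Regularised maximum. -/
def mx (a b : E → ℝ) (x : E) : ℝ := b x + chi (a x - b x)

/-- Supremum convolution over `S`. -/
def supc (S : Set E) (u : E → ℝ) (ε : ℝ) (x : E) : ℝ :=
  sSup ((fun y => u y - ‖x - y‖ ^ 2 / ε) '' S)

/-- Mollification with the kernel `σ²` at scale `κ`. -/
def moll (σ : E → ℝ) (κ : ℝ) (h : E → ℝ) (x : E) : ℝ := ∫ y, σ y ^ 2 * h (x - κ • y)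

/-- Kernels of the Cauchy transform. -/
def k1 (ζ : ℂ) : ℝ := ζ.re / (2 * Real.pi * ‖ζ‖ ^ 2)

def k2 (ζ : ℂ) : ℝ := ζ.im / (2 * Real.pi * ‖ζ‖ ^ 2)

/-- Cauchy transform for the complex structure `A` on `F`; it inverts `dbar A`. -/
def cT {F : Type} [NormedAddCommGroup F] [NormedSpace ℝ F] (A : F →L[ℝ] F) (g : ℂ → F) (z : ℂ) :
    F :=
  ∫ ζ : ℂ, (k1 ζ • g (z - ζ) - k2 ζ • A (g (z - ζ)))

/-- `∂_s + A ∂_t`. -/
def dbar {F : Type} [NormedAddCommGroup F] [NormedSpace ℝ F] (A : F →L[ℝ] F) (g : ℂ → F) (z : ℂ) :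
    F :=
  fderiv ℝ g z 1 + A (fderiv ℝ g z Complex.I)

end Pool.Agent.MP_13e7a1_an.H82
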