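import Pool.Agent.MP_13e7a1_an.H82.Tools
import Pool.Agent.MP_13e7a1_an.H61.Main

/-!
Regularised maxima, modifications near the boundary of a ball, good approximating sequences.
-/

open scoped ContDiff Topology Matrix
open Set Metric MeasureTheory Filter

noncomputable section

namespace Pool.Agent.MP_13e7a1_an.H82

theorem contDiff_mx {a b : E → ℝ} (ha : ContDiff ℝ ∞ a) (hb : ContDiff ℝ ∞ b) :
    ContDiff ℝ ∞ (mx a b) := hb.add (contDiff_chi.comp (ha.sub hb))

theorem mx_mono {a b a' b' : E → ℝ} {x : E} (ha : a x ≤ a' x) (hb : b x ≤ b' x) :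
    mx a b x ≤ mx a' b' x := by
  have h1 := monotone_chi (show a x - b x ≤ a' x - b x by linarith)
  have h2 := monotone_sub_chi (show a' x - b' x ≤ a' x - b x by linarith)
  simp only [mx] at *
  linarith

theorem le_mx (a b : E → ℝ) (x : E) : b x ≤ mx a b x := by
  simp only [mx]; linarith [chi_nonneg (a x - b x)]

theorem abs_mx_le {a b : E → ℝ} {x : E} {K : ℝ} (ha : |a x| ≤ K) (hb : |b x| ≤ K) :
    |mx a b x| ≤ 3 * K := by
  have h1 := abs_le.1 ha
  have h2 := abs_le.1 hb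
  have h3 := chi_le_self (s := a x - b x) (δ := 2 * K) (by linarith) (by linarith)
  have h4 := chi_nonneg (a x - b x)
  rw [mx, abs_le]
  constructor <;> linarith

theorem chi_sub_le {s t δ : ℝ} (hδ : 0 ≤ δ) (h : s - t ≤ δ) : chi s - chi t ≤ δ := by
  rcases le_total s t with h1 | h1
  · linarith [monotone_chi h1]
  · have := monotone_sub_chi h1
    simp only at this
    linarith

namespace Ctx

variable (c : Ctx)

theorem pos_mx (hP : SPt) {a b : E → ℝ} (ha : ContDiff ℝ ∞ a) (hb : ContDiff ℝ ∞ b) {x : E} {t : ℝ}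
    (h1 : c.Pos x (c.T a x + t • c.Om x)) (h2 : c.Pos x (c.T b x + t • c.Om x)) :
    c.Pos x (c.T (mx a b) x + t • c.Om x) := by
  have e1 : c.T (mx a b) x = c.T b x + c.T (fun y => chi (a y - b y)) x :=
    c.T_add hb (contDiff_chi.comp (ha.sub hb)) x
  have e2 := hP.chain c (fun y => a y - b y) chi (ha.sub hb) contDiff_chi x
  rw [c.T_sub ha hb] at e2
  have := ((h1.smul (deriv_chi_nonneg (a x - b x))).add
    (h2.smul (sub_nonneg.2 (deriv_chi_le_one (a x - b x))))).add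
    ((c.s_pos x (grad (fun y => a y - b y) x)).smul (deriv2_chi_nonneg (a x - b x)))
  convert this using 1
  rw [e1, e2]
  module

theorem App.mx (hP : SPt) {c : Ctx} {D : Set E} {a ηa b ηb η : ℕ → E → ℝ} {K : ℝ}
    (ha : c.App D a ηa K) (hb : c.App D b ηb K) (hη : ∀ j, ContDiff ℝ ∞ (η j))
    (h1 : ∀ j, ∀ x ∈ D, ηa j x ≤ η j x ∧ ηb j x ≤ η j x ∧ η j x ≤ 3 * K) :
    c.App D (fun j => H82.mx (a j) (b j)) η (3 * K) :=
  ⟨fun j => contDiff_mx (ha.smooth j) (hb.smooth j), hη,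
    fun j x hx => mx_mono (ha.anti j x hx) (hb.anti j x hx),
    fun j x hx => abs_mx_le (ha.bdd j x hx) (hb.bdd j x hx),
    fun j x hx => (ha.nonneg j x hx).trans (h1 j x hx).1, fun j x hx => (h1 j x hx).2.2,
    fun j x hx => c.pos_mx hP (ha.smooth j) (hb.smooth j) ((ha.pos j x hx).mono (h1 j x hx).1)
      ((hb.pos j x hx).mono (h1 j x hx).2.1)⟩

/-- Strict positivity at a point spreads to a neighbourhood. -/
theorem strict (hP : SPt) {f : E → ℝ} (hf : ContDiff ℝ ∞ f) {p : E}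
    (h : ∀ Z : E, Z ≠ 0 → 0 < c.L Z f p) :
    ∃ a : ℝ, 0 < a ∧ ∃ ρ : ℝ, 0 < ρ ∧ ∀ x ∈ closedBall p ρ, c.Pos x (c.T f x + (-a) • c.Om x) := by
  set F : E → V → ℝ := fun x Z => Z ⬝ᵥ (c.T f x *ᵥ (c.M x *ᵥ Z)) with hF
  set G : E → V → ℝ := fun x Z => Z ⬝ᵥ (c.Om x *ᵥ (c.M x *ᵥ Z)) with hG
  have hT := c.continuous_T hf
  have hM := c.continuous_M
  have hO := c.continuous_Om
  have cF : Continuous fun z : E × V => F z.1 z.2 := by simp only [hF]; fun_prop
  have cG : Continuous fun z : E × V => G z.1 z.2 := by simp only [hG]; fun_prop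
  have hS : IsCompact (sphere (0 : V) 1) := isCompact_sphere _ _
  have hne : (sphere (0 : V) 1).Nonempty := NormedSpace.sphere_nonempty.2 zero_le_one
  obtain ⟨Z₀, hZ₀, hmin⟩ := hS.exists_isMinOn hne
    (cF.comp (Continuous.prodMk_right p)).continuousOn
  obtain ⟨γ, hγ⟩ := hS.exists_bound_of_continuousOn
    (cG.comp (Continuous.prodMk_right p)).continuousOn
  have hα : 0 < F p Z₀ := by
    have h1 := hP.TL c f hf p (WithLp.toLp 2 Z₀)
    have h2 := h (WithLp.toLp 2 Z₀) (by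
      intro h0
      have : Z₀ = 0 := by simpa using congrArg WithLp.ofLp h0
      simp [this] at hZ₀)
    rw [← h1] at h2
    exact h2
  have hγ0 : 0 ≤ γ := (norm_nonneg _).trans (hγ Z₀ hZ₀)
  set a := F p Z₀ / (2 * (γ + 1)) with ha
  have ha0 : 0 < a := by positivity
  have hev : ∀ᶠ x in 𝓝 p, ∀ Z ∈ sphere (0 : V) 1, 0 < F x Z - a * G x Z := by
    refine hS.eventually_forall_of_forall_eventually fun Z hZ => ?_
    have hc : Continuous fun z : E × V => F z.1 z.2 - a * G z.1 z.2 :=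
      cF.sub (continuous_const.mul cG)
    refine hc.continuousAt.eventually (lt_mem_nhds ?_)
    have h1 : F p Z₀ ≤ F p Z := hmin hZ
    have h2 : G p Z ≤ γ := (le_abs_self _).trans (hγ Z hZ)
    have h3 : a * (γ + 1) = F p Z₀ / 2 := by rw [ha]; field_simp
    show 0 < F p Z - a * G p Z
    nlinarith
  obtain ⟨ρ, hρ, hball⟩ := Metric.nhds_basis_closedBall.mem_iff.1 hev
  refine ⟨a, ha0, ρ, hρ, fun x hx => ⟨(c.T_inv f x).add ((c.Om_pos x).1.smul _), fun Z => ?_⟩⟩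
  have key : ∀ Z : V, Z ⬝ᵥ ((c.T f x + (-a) • c.Om x) *ᵥ (c.M x *ᵥ Z)) = F x Z - a * G x Z := by
    intro Z
    rw [Matrix.add_mulVec, dotProduct_add, Matrix.smul_mulVec, dotProduct_smul, smul_eq_mul]
    simp only [hF, hG]; ring
  rcases eq_or_ne Z 0 with rfl | hZ
  · simp
  have hn : 0 < ‖Z‖ := norm_pos_iff.2 hZ
  have h1 := hball hx (‖Z‖⁻¹ • Z) (by simp [norm_smul, hn.ne'])
  rw [← key] at h1
  simp only [Matrix.mulVec_smul, smul_dotProduct, dotProduct_smul, smul_eq_mul] at h1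
  have h2 := mul_pos (mul_pos hn hn) h1
  have h3 : ∀ y : ℝ, ‖Z‖ * ‖Z‖ * (‖Z‖⁻¹ * (‖Z‖⁻¹ * y)) = y := fun y => by field_simp
  rw [h3] at h2
  exact h2.le

theorem sq_pos (hP : SPt) (p : E) :
    ∃ ρ : ℝ, 0 < ρ ∧ ∀ x ∈ closedBall p ρ, c.Pos x (c.T (fun y => ‖y - p‖ ^ 2) x) := by
  obtain ⟨a, ha, ρ, hρ, h⟩ := c.strict hP (H61.contDiff_sq p) (p := p) fun Z hZ => by
    rw [H61.L_sq]
    have : 0 < ‖Z‖ ^ 2 := by positivity
    nlinarith [sq_nonneg ‖c.J p Z‖]
  exact ⟨ρ, hρ, fun x hx => by simpa using (h x hx).mono (t := 0) (by linarith)⟩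

end Ctx

/-- The modification that equals `g` where `g` is large and `ρ` where `g` is small. -/
def hat (ρ g : E → ℝ) : E → ℝ := mx (fun x => g x + (1 - chi 1)) ρ

theorem le_hat (ρ g : E → ℝ) (x : E) : ρ x ≤ hat ρ g x := le_mx _ ρ x

theorem c1_mem : 0 ≤ 1 - chi 1 ∧ 1 - chi 1 ≤ 1 :=
  ⟨sub_nonneg.2 (chi_le_self zero_le_one le_rfl), by linarith [chi_nonneg 1]⟩

theorem hat_sub_le {ρ g g' : E → ℝ} {x : E} {δ : ℝ} (hδ : 0 ≤ δ) (h : g x - g' x ≤ δ) :
    hat ρ g x - hat ρ g' x ≤ δ := by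
  simp only [hat, mx]
  linarith [chi_sub_le (s := g x + (1 - chi 1) - ρ x) (t := g' x + (1 - chi 1) - ρ x) hδ
    (by linarith)]

theorem exists_rho (p : E) {r R K : ℝ} (hr : 0 < r) (h : r < R) (hK : 0 ≤ K) :
    ∃ A A' : ℝ, 0 ≤ A ∧ ∀ g : E → ℝ, (∀ x, |g x| ≤ K) →
      (∀ x ∈ closedBall p r, hat (fun y => A * ‖y - p‖ ^ 2 + A') g x = g x) ∧
      ∀ x, x ∉ ball p R → hat (fun y => A * ‖y - p‖ ^ 2 + A') g x = A * ‖x - p‖ ^ 2 + A' := by
  have hd : 0 < R ^ 2 - r ^ 2 := by nlinarith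
  set A := (2 * K + 2) / (R ^ 2 - r ^ 2) with hA
  have hA0 : 0 ≤ A := by positivity
  have hA1 : A * (R ^ 2 - r ^ 2) = 2 * K + 2 := by rw [hA]; field_simp
  refine ⟨A, -K - 1 - A * r ^ 2, hA0, fun g hg => ⟨fun x hx => ?_, fun x hx => ?_⟩⟩
  · have h1 : ‖x - p‖ ≤ r := by simpa [dist_eq_norm] using hx
    have h2 : ‖x - p‖ ^ 2 ≤ r ^ 2 := pow_le_pow_left₀ (norm_nonneg _) h1 2
    have h3 := mul_le_mul_of_nonneg_left h2 hA0
    simp only [hat, mx]
    rw [chi_of_one_le (by linarith [(abs_le.1 (hg x)).1, c1_mem.1])]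
    ring
  · have h1 : R ≤ ‖x - p‖ := by simpa [dist_eq_norm] using hx
    have h2 : R ^ 2 ≤ ‖x - p‖ ^ 2 := pow_le_pow_left₀ (by linarith) h1 2
    have h3 := mul_le_mul_of_nonneg_left h2 hA0
    simp only [hat, mx]
    rw [chi_of_nonpos (by nlinarith [(abs_le.1 (hg x)).2, c1_mem.2])]
    ring

theorem Ctx.App.hat (hP : SPt) {c : Ctx} {D : Set E} (hD : IsCompact D) {f η : ℕ → E → ℝ} {K : ℝ}
    (hf : c.App D f η K) {ρ : E → ℝ} (hρ : ContDiff ℝ ∞ ρ) (hpos : ∀ x ∈ D, c.Pos x (c.T ρ x)) :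
    ∃ K₀ : ℝ, ∀ K' ≥ K₀, c.App D (fun j => H82.hat ρ (f j)) η K' := by
  obtain ⟨B, hB, hb⟩ := exists_bound hD hρ.continuous
  set K₁ := |K| + 1 + B with hK₁
  have h1 : c.App D (fun j x => f j x + (1 - chi 1)) η K₁ :=
    ⟨fun j => (hf.smooth j).add contDiff_const, hf.smooth',
      fun j x hx => by linarith [hf.anti j x hx],
      fun j x hx => by
        have := abs_le.1 (hf.bdd j x hx)
        rw [abs_le]
        constructor <;> linarith [c1_mem.1, c1_mem.2, le_abs_self K],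
      hf.nonneg, fun j x hx => by linarith [hf.le j x hx, le_abs_self K],
      fun j x hx => by rw [c.T_add_const (hf.smooth j)]; exact hf.pos j x hx⟩
  have h2 : c.App D (fun _ => ρ) (fun _ _ => 0) K₁ :=
    ⟨fun _ => hρ, fun _ => contDiff_const, fun _ _ _ => le_rfl,
      fun _ x hx => (hb x hx).trans (by linarith [abs_nonneg K]), fun _ _ _ => le_rfl,
      fun _ _ _ => by positivity, fun _ x hx => by simpa using hpos x hx⟩
  refine ⟨3 * K₁, fun K' hK' => (Ctx.App.mx hP h1 h2 hf.smooth' fun j x hx =>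
    ⟨le_rfl, hf.nonneg j x hx, ?_⟩).mono Subset.rfl hK'⟩
  have := h1.le j x hx
  have := hf.nonneg j x hx
  linarith

theorem pos_rho {c : Ctx} {p x : E} (h : c.Pos x (c.T (fun y => ‖y - p‖ ^ 2) x)) {A : ℝ}
    (hA : 0 ≤ A) (A' : ℝ) : c.Pos x (c.T (fun y => A * ‖y - p‖ ^ 2 + A') x) := by
  rw [c.T_add_const (contDiff_const.mul (H61.contDiff_sq p)), c.T_const_mul (H61.contDiff_sq p)]
  exact h.smul hA

theorem contDiff_rho (p : E) (A A' : ℝ) : ContDiff ℝ ∞ fun y : E => A * ‖y - p‖ ^ 2 + A' :=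
  (contDiff_const.mul (H61.contDiff_sq p)).add contDiff_const

theorem eventuallyEq_of_ball {f g : E → ℝ} {p x : E} {r R : ℝ} (h : r < R)
    (he : ∀ y ∈ closedBall p R, f y = g y) (hx : x ∈ closedBall p r) : f =ᶠ[𝓝 x] g :=
  Filter.eventually_of_mem (isOpen_ball.mem_nhds (closedBall_subset_ball h hx))
    fun y hy => he y (ball_subset_closedBall hy)

/-- Local `W^{1,2}` convergence. -/
theorem cau_loc (hP : SPt) (hW : SW12) {c : Ctx} {p : E} {r R K : ℝ} (hr : 0 < r) (h : r < R)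
    {f η : ℕ → E → ℝ} (hf : c.App (closedBall p R) f η K) (hb : ∀ j x, |f j x| ≤ K)
    (hq : ∀ x ∈ closedBall p R, c.Pos x (c.T (fun y => ‖y - p‖ ^ 2) x)) :
    Cau (closedBall p r) f := by
  have hK : 0 ≤ K := (abs_nonneg _).trans (hb 0 p)
  obtain ⟨A, A', hA, hh⟩ := exists_rho p (r := (r + R) / 2) (R := R) (by linarith) (by linarith) hK
  obtain ⟨K₀, hK₀⟩ := hf.hat hP (isCompact_closedBall p R) (contDiff_rho p A A')
    fun x hx => pos_rho (hq x hx) hA A'
  have h1 := hW c _ (isCompact_closedBall p R) _ _ _ _ (hK₀ K₀ le_rfl) (contDiff_rho p A A')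
    (fun j x hx => (hh _ (hb j)).2 x fun h' => hx (ball_subset_closedBall h'))
    (fun j x _ => le_hat (fun y => A * ‖y - p‖ ^ 2 + A') _ x)
  have h2 := h1.mono (isCompact_closedBall p R) (closedBall_subset_closedBall h.le)
    (hK₀ K₀ le_rfl).smooth
  intro ε hε
  obtain ⟨N, hN⟩ := h2 ε hε
  refine ⟨N, fun j hj k hk => le_trans (le_of_eq ?_) (hN j hj k hk)⟩
  refine int_congr (isCompact_closedBall p r) fun x hx => ?_
  rw [grad_congr (eventuallyEq_of_ball (R := (r + R) / 2) (by linarith) (hh _ (hb j)).1 hx),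
    grad_congr (eventuallyEq_of_ball (R := (r + R) / 2) (by linarith) (hh _ (hb k)).1 hx)]

/-- A good approximating sequence for `u` on `D`. -/
structure Good (c : Ctx) (D : Set E) (f η : ℕ → E → ℝ) (K : ℝ) (u : E → ℝ) : Prop where
  app : c.App D f η K
  bdd : ∀ j x, |f j x| ≤ K
  lim : ∀ x ∈ D, Tendsto (fun j => f j x) atTop (𝓝 (u x))
  cau : Cau D f
  small : Small D η

theorem Small.mono {D D' : Set E} (hD' : IsCompact D') (hD : IsCompact D) (hs : D ⊆ D')
    {η : ℕ → E → ℝ} (hη : ∀ j, ContDiff ℝ ∞ (η j)) (h : Small D' η) : Small D η := by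
  constructor
  · refine squeeze_zero (fun j => int_nonneg hD fun x _ => sq_nonneg _) (fun j => ?_) h.1
    exact int_mono_set hD' hs ((hη j).continuous.pow 2) fun x _ => sq_nonneg _
  · refine squeeze_zero (fun j => int_nonneg hD fun x _ => sq_nonneg _) (fun j => ?_) h.2
    exact int_mono_set hD' hs ((continuous_grad (hη j)).norm.pow 2) fun x _ => sq_nonneg _

theorem Good.mono {c : Ctx} {D D' : Set E} (hD' : IsCompact D') (hD : IsCompact D) (hs : D ⊆ D')
    {f η : ℕ → E → ℝ} {K K' : ℝ} (hK : K ≤ K') {u : E → ℝ} (h : Good c D' f η K u) :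
    Good c D f η K' u :=
  ⟨h.app.mono hs hK, fun j x => (h.bdd j x).trans hK, fun x hx => h.lim x (hs hx),
    h.cau.mono hD' hs h.app.smooth, h.small.mono hD' hD hs h.app.smooth'⟩

theorem Good.subseq {c : Ctx} {D : Set E} {f η : ℕ → E → ℝ} {K : ℝ} {u : E → ℝ}
    (h : Good c D f η K u) {φ : ℕ → ℕ} (hφ : StrictMono φ) :
    Good c D (fun j => f (φ j)) (fun j => η (φ j)) K u :=
  ⟨⟨fun j => h.app.smooth _, fun j => h.app.smooth' _,
      fun j _ hx => anti_of_succ h.app.anti hx (hφ.monotone (Nat.le_succ j)),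
      fun j => h.app.bdd _, fun j => h.app.nonneg _, fun j => h.app.le _, fun j => h.app.pos _⟩,
    fun j => h.bdd _, fun x hx => (h.lim x hx).comp hφ.tendsto_atTop,
    fun ε hε => by
      obtain ⟨N, hN⟩ := h.cau ε hε
      exact ⟨N, fun j hj k hk => hN _ (hj.trans (hφ.id_le j)) _ (hk.trans (hφ.id_le k))⟩,
    ⟨h.small.1.comp hφ.tendsto_atTop, h.small.2.comp hφ.tendsto_atTop⟩⟩

theorem Good.le {c : Ctx} {D : Set E} {f η : ℕ → E → ℝ} {K : ℝ} {u : E → ℝ}
    (h : Good c D f η K u) (j : ℕ) {x : E} (hx : x ∈ D) : u x ≤ f j x :=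
  (anti_of_succ h.app.anti hx).le_of_tendsto (h.lim x hx) j

theorem exists_good (hP : SPt) (hW : SW12) (hAP : SAP) (c : Ctx) (p : E) {R K : ℝ} {u : E → ℝ}
    (hR : 0 < R) (hu : c.Psh (ball p R) u) (hb : ∀ x ∈ ball p R, |u x| ≤ K) :
    ∃ R' : ℝ, 0 < R' ∧ R' < R ∧ ∃ f η K', Good c (closedBall p R') f η K' u := by
  obtain ⟨R₁, hR₁, hlt, f, C, K', hC, hs, hbd, hanti, hlim, hL⟩ := hAP c p R K u hR hu hb
  obtain ⟨ρ, hρ, hq⟩ := c.sq_pos hP p
  set R₂ := min R₁ ρ with hR₂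
  have hR₂0 : 0 < R₂ := lt_min hR₁ hρ
  have hsub : closedBall p R₂ ⊆ closedBall p R₁ := closedBall_subset_closedBall (min_le_left _ _)
  have hK' : 0 ≤ K' := (abs_nonneg _).trans (hbd 0 p)
  set K₂ := K' + C * (2 * K') with hK₂
  have hKK : K' ≤ K₂ := by rw [hK₂]; nlinarith [mul_nonneg hC hK']
  have happ : ∀ i : ℕ, c.App (closedBall p R₂) (fun j => f (j + i + 1))
      (fun j x => C * (f (j + i) x - f (j + i + 1) x)) K₂ := fun i =>
    ⟨fun j => hs _, fun j => contDiff_const.mul ((hs _).sub (hs _)),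
      fun j x hx => by
        have := hanti (j + i + 1) x (hsub hx)
        rwa [show j + 1 + i + 1 = j + i + 1 + 1 by ring],
      fun j x _ => (hbd _ x).trans hKK,
      fun j x hx => mul_nonneg hC (sub_nonneg.2 (hanti _ x (hsub hx))),
      fun j x _ => by
        have h1 := abs_le.1 (hbd (j + i) x)
        have h2 := abs_le.1 (hbd (j + i + 1) x)
        have := mul_le_mul_of_nonneg_left
          (show f (j + i) x - f (j + i + 1) x ≤ 2 * K' by linarith) hC
        linarith,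
      fun j x hx => c.pos_of_L hP (hs _) (mul_nonneg hC (sub_nonneg.2 (hanti _ x (hsub hx))))
        (hL _ x (hsub hx))⟩
  have hD := isCompact_closedBall p (R₂ / 2)
  have hsub2 : closedBall p (R₂ / 2) ⊆ closedBall p R₂ := closedBall_subset_closedBall (by linarith)
  have hcau : Cau (closedBall p (R₂ / 2)) fun j => f (j + 0 + 1) :=
    cau_loc hP hW (by linarith) (by linarith) (happ 0) (fun j x => (hbd _ x).trans hKK)
      fun x hx => hq x (closedBall_subset_closedBall (min_le_right _ _) hx)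
  refine ⟨R₂ / 2, by linarith, by linarith [min_le_left R₁ ρ], _, _, K₂,
    (happ 1).mono hsub2 le_rfl, fun j x => (hbd _ x).trans hKK, fun x hx => ?_, fun ε hε => ?_,
    ?_, ?_⟩
  · exact (hlim x (hsub (hsub2 hx))).comp (tendsto_add_atTop_nat 2)
  · obtain ⟨N, hN⟩ := hcau ε hε
    exact ⟨N, fun j hj k hk => hN (j + 1) (by omega) (k + 1) (by omega)⟩
  · rw [Metric.tendsto_atTop]
    intro ε hε
    obtain ⟨N, hN⟩ := l1_cauchy hD (fun j => (hs j).continuous)
      (fun j x hx => hanti j x (hsub (hsub2 hx))) (fun j x _ => hbd j x)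
      (ε / (2 * (C * K₂ + 1))) (by positivity)
    refine ⟨N, fun j hj => ?_⟩
    have h0 : 0 ≤ ∫ x in closedBall p (R₂ / 2), (C * (f (j + 1) x - f (j + 1 + 1) x)) ^ 2 :=
      int_nonneg hD fun x _ => sq_nonneg _
    rw [Real.dist_eq, sub_zero, abs_of_nonneg h0]
    have h1 : ∫ x in closedBall p (R₂ / 2), (C * (f (j + 1) x - f (j + 1 + 1) x)) ^ 2 ≤
        ∫ x in closedBall p (R₂ / 2), (C * K₂ + 1) * (f (j + 1) x - f (j + 1 + 1) x) := by
      have c1 := (hs (j + 1)).continuous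
      have c2 := (hs (j + 1 + 1)).continuous
      refine int_mono hD (by fun_prop) (by fun_prop) fun x hx => ?_
      have k1 := (happ 1).le j x (hsub2 hx)
      have k2 := sub_nonneg.2 (hanti (j + 1) x (hsub (hsub2 hx)))
      have k3 := mul_le_mul_of_nonneg_left k1 (mul_nonneg hC k2)
      nlinarith
    rw [integral_const_mul] at h1
    have h2 := mul_le_mul_of_nonneg_left (hN (j + 1) (by omega) (j + 1 + 1) (by omega))
      (show 0 ≤ C * K₂ + 1 by positivity)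
    have h4 : 0 < C * K₂ + 1 := by positivity
    have h3 : (C * K₂ + 1) * (ε / (2 * (C * K₂ + 1))) = ε / 2 := by field_simp
    linarith
  · rw [Metric.tendsto_atTop]
    intro ε hε
    obtain ⟨N, hN⟩ := hcau (ε / (2 * (C ^ 2 + 1))) (by positivity)
    refine ⟨N, fun j hj => ?_⟩
    have h0 : 0 ≤ ∫ x in closedBall p (R₂ / 2),
        ‖grad (fun x => C * (f (j + 1) x - f (j + 1 + 1) x)) x‖ ^ 2 :=
      int_nonneg hD fun x _ => sq_nonneg _
    rw [Real.dist_eq, sub_zero, abs_of_nonneg h0]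
    have h1 : ∫ x in closedBall p (R₂ / 2),
        ‖grad (fun x => C * (f (j + 1) x - f (j + 1 + 1) x)) x‖ ^ 2 =
        C ^ 2 * ∫ x in closedBall p (R₂ / 2), ‖grad (f (j + 1)) x - grad (f (j + 1 + 1)) x‖ ^ 2 := by
      rw [← integral_const_mul]
      refine int_congr hD fun x _ => ?_
      rw [grad_const_mul ((hs _).sub (hs _)), grad_sub (hs _) (hs _), norm_smul, mul_pow,
        Real.norm_eq_abs, sq_abs]
    have h2 := mul_le_mul_of_nonneg_left (hN j hj (j + 1) (by omega)) (sq_nonneg C)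
    have h3 : C ^ 2 * (ε / (2 * (C ^ 2 + 1))) < ε := by
      rw [mul_div_assoc', div_lt_iff₀ (by positivity)]
      nlinarith [sq_nonneg C]
    rw [h1]
    exact h2.trans_lt h3

/-- A Dini type lemma. -/
theorem dini {S : Set E} (hS : IsCompact S) {g : ℕ → E → ℝ} (hg : ∀ k, Continuous (g k))
    (ha : ∀ k, ∀ x ∈ S, g (k + 1) x ≤ g k x) {t : ℝ} (h : ∀ x ∈ S, ∃ k, g k x < t) :
    ∀ᶠ k in atTop, ∀ x ∈ S, g k x < t := by
  obtain ⟨s, hs⟩ := hS.elim_finite_subcover (fun k => {x | g k x < t})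
    (fun k => isOpen_lt (hg k) continuous_const) fun x hx => mem_iUnion.2 (h x hx)
  filter_upwards [eventually_ge_atTop (s.sup id)] with k hk x hx
  obtain ⟨i, hi, hx'⟩ := mem_iUnion₂.1 (hs hx)
  exact (anti_of_succ ha hx ((Finset.le_sup (f := id) hi).trans hk)).trans_lt hx'

end Pool.Agent.MP_13e7a1_an.H82
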