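import Pool.Agent.MP_13e7a1_an.H82.Hat

/-!
The local theorem.
-/

open scoped ContDiff Topology Matrix
open Set Metric MeasureTheory Filter

noncomputable section

namespace Pool.Agent.MP_13e7a1_an.H82

theorem Ctx.Psh.mono {c : Ctx} {U U' : Set E} {u : E → ℝ} (h : c.Psh U u) (hs : U' ⊆ U) :
    c.Psh U' u :=
  ⟨h.1.mono hs, fun γ hγ hm => h.2 γ hγ (hm.mono_right hs)⟩

theorem Small.tendsto_int {D : Set E} (hD : IsCompact D) {η : ℕ → E → ℝ}
    (hη : ∀ j, Continuous (η j)) (h : Small D η) :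
    ∀ δ > 0, ∀ᶠ j in atTop, ∫ x in D, η j x ≤ δ := by
  intro δ hδ
  have h1 : Tendsto (fun j => √(volume.real D) * √(∫ x in D, η j x ^ 2)) atTop (𝓝 0) := by
    simpa using (h.1.sqrt).const_mul √(volume.real D)
  filter_upwards [h1.eventually (ge_mem_nhds hδ)] with j hj
  exact (int_le_sqrt hD (hη j)).trans hj

/-- The core estimate: the cut differences tend to zero in `L¹`. -/
theorem core (hP : SPt) (hW : SW12) (hU : SCTU) (hL : SCTL) (hG : SWG) {c : Ctx} {p : E}
    {r R₀ R₃ K δ₀ c' C : ℝ} (hr : 0 < r) (hr₀ : r < R₀) (hR₀ : R₀ < R₃) (hδ₀ : 0 < δ₀)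
    (hc' : 0 < c') (hC : 0 ≤ C) {w u v : E → ℝ} (hw : ContDiff ℝ ∞ w) (hwb : ∀ x, |w x| ≤ K)
    (hwp : ∀ x ∈ closedBall p R₃, c.Pos x (c.T w x))
    (hq : ∀ x ∈ closedBall p R₃, c.Pos x (c.T (fun y => ‖y - p‖ ^ 2) x))
    (habs : ∀ u a b η₁ η₂ : E → ℝ, ContDiff ℝ ∞ u →
      ContDiff ℝ ∞ a → ContDiff ℝ ∞ b → Continuous η₁ → Continuous η₂ →
      (∀ x ∈ ball p R₀, a x = u x + w x) →
      (∀ x ∈ closedBall p R₀, |a x| ≤ 2 * K ∧ 0 ≤ η₁ x ∧ η₁ x ≤ 2 * K ∧ 0 ≤ η₂ x ∧
        c.Pos x (c.T u x + η₁ x • c.Om x) ∧ c.Pos x (c.T b x + η₂ x • c.Om x)) →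
      (∀ x, x ∉ ball p r → a x - b x ≤ 0) → (∀ x, a x - b x ≤ δ₀) →
      c' * ∫ x in closedBall p R₀, chi (a x - b x) ≤
        c.N (closedBall p R₀) (fun x => chi (a x - b x)) b b
          - c.N (closedBall p R₀) (fun x => chi (a x - b x)) u u
          + C * (∫ x in closedBall p R₀, η₁ x)
          + C * ∫ x in closedBall p R₀, (η₁ x + η₂ x) * ‖grad a x - grad b x‖ ^ 2)
    {f ηf g ηg : ℕ → E → ℝ} (hf : Good c (closedBall p R₃) f ηf K u)
    (hg : Good c (closedBall p R₃) g ηg K v)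
    (hMA : ∀ Gu Gv : E → E →L[ℝ] ℝ, IsWeakGrad (ball p R₀) u Gu →
      IsWeakGrad (ball p R₀) v Gv → ∀ φ : E → ℝ, IsTest (ball p R₀) φ → (∀ y, 0 ≤ φ y) →
      ∫ x in ball p R₀, c.o * Eden c.J φ (cov (Gv x)) (cov (Gv x)) x ≤
        ∫ x in ball p R₀, c.o * Eden c.J φ (cov (Gu x)) (cov (Gu x)) x)
    {t : ℝ} (ht : |t| ≤ K)
    (h1 : ∀ j, ∀ x ∈ closedBall p R₃, f j x + w x - (g j x + t) ≤ δ₀)
    (h2 : ∀ j, ∀ x ∈ closedBall p R₃, x ∉ ball p r → f j x + w x - (g j x + t) ≤ 0) :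
    ∀ ε > 0, ∀ᶠ j in atTop, ∫ x in closedBall p R₀, chi (f j x + w x - (g j x + t)) ≤ ε := by
  have hK : 0 ≤ K := (abs_nonneg _).trans ht
  set R₁ := (R₀ + R₃) / 2 with hR₁
  set R₂ := (R₁ + R₃) / 2 with hR₂
  have l1 : R₀ < R₁ := by rw [hR₁]; linarith
  have l2 : R₁ < R₂ := by rw [hR₂]; linarith
  have l3 : R₂ < R₃ := by rw [hR₂]; linarith
  have hD := isCompact_closedBall p R₃
  have hD₀ := isCompact_closedBall p R₀
  have hDr := isCompact_closedBall p r
  have s0 : closedBall p R₀ ⊆ closedBall p R₃ := closedBall_subset_closedBall hR₀.le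
  have sr : closedBall p r ⊆ closedBall p R₀ := closedBall_subset_closedBall hr₀.le
  have s01 : closedBall p R₀ ⊆ closedBall p R₁ := closedBall_subset_closedBall l1.le
  obtain ⟨A, A', hA, hh⟩ := exists_rho p (r := R₁) (R := R₂) (K := 2 * K) (by linarith) l2
    (by linarith)
  set ρ : E → ℝ := fun y => A * ‖y - p‖ ^ 2 + A' with hρ
  have sρ : ContDiff ℝ ∞ ρ := contDiff_rho p A A'
  have pρ : ∀ x ∈ closedBall p R₃, c.Pos x (c.T ρ x) := fun x hx => pos_rho (hq x hx) hA A'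
  -- the three sequences
  set a : ℕ → E → ℝ := fun j x => f j x + w x with ha
  set b : ℕ → E → ℝ := fun j x => g j x + t with hb
  have bf : ∀ j x, |f j x| ≤ 2 * K := fun j x => (hf.bdd j x).trans (by linarith)
  have ba : ∀ j x, |a j x| ≤ 2 * K := fun j x =>
    (abs_add_le _ _).trans (by linarith [hf.bdd j x, hwb x])
  have bb : ∀ j x, |b j x| ≤ 2 * K := fun j x =>
    (abs_add_le _ _).trans (by linarith [hg.bdd j x])
  have appa : c.App (closedBall p R₃) a ηf (2 * K) :=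
    ⟨fun j => (hf.app.smooth j).add hw, hf.app.smooth',
      fun j x hx => by simp only [ha]; linarith [hf.app.anti j x hx], fun j x _ => ba j x,
      hf.app.nonneg, fun j x hx => (hf.app.le j x hx).trans (by linarith), fun j x hx => by
        have := (hf.app.pos j x hx).add (hwp x hx)
        convert this using 1
        simp only [ha]
        rw [c.T_add (hf.app.smooth j) hw]; abel⟩
  have appb : c.App (closedBall p R₃) b ηg (2 * K) :=
    ⟨fun j => (hg.app.smooth j).add contDiff_const, hg.app.smooth',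
      fun j x hx => by simp only [hb]; linarith [hg.app.anti j x hx], fun j x _ => bb j x,
      hg.app.nonneg, fun j x hx => (hg.app.le j x hx).trans (by linarith), fun j x hx => by
        simp only [hb]
        rw [c.T_add_const (hg.app.smooth j)]; exact hg.app.pos j x hx⟩
  obtain ⟨K1, hK1⟩ := hf.app.hat hP hD sρ pρ
  obtain ⟨K2, hK2⟩ := appa.hat hP hD sρ pρ
  obtain ⟨K3, hK3⟩ := appb.hat hP hD sρ pρ
  set K4 := max (max K1 K2) (max K3 K) with hK4
  have hK4K : K ≤ K4 := (le_max_right _ _).trans (le_max_right _ _)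
  have A2 := hK2 K4 ((le_max_right _ _).trans (le_max_left _ _))
  have A3 := hK3 K4 ((le_max_left _ _).trans (le_max_right _ _))
  have A1 := (hK1 K4 ((le_max_left _ _).trans (le_max_left _ _))).mono Subset.rfl
    (show K4 ≤ 3 * K4 by linarith)
  have A4 := Ctx.App.mx hP A2 A3 (η := fun j x => ηf j x + ηg j x)
    (fun j => (hf.app.smooth' j).add (hg.app.smooth' j)) fun j x hx =>
      ⟨by linarith [hg.app.nonneg j x hx], by linarith [hf.app.nonneg j x hx],
        by linarith [hf.app.le j x hx, hg.app.le j x hx]⟩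
  replace A2 := A2.mono Subset.rfl (show K4 ≤ 3 * K4 by linarith)
  replace A3 := A3.mono Subset.rfl (show K4 ≤ 3 * K4 by linarith)
  set uh : ℕ → E → ℝ := fun j => hat ρ (f j) with huh
  set ah : ℕ → E → ℝ := fun j => hat ρ (a j) with hah
  set bh : ℕ → E → ℝ := fun j => hat ρ (b j) with hbh
  set mh : ℕ → E → ℝ := fun j => mx (ah j) (bh j) with hmh
  have ou : ∀ j x, x ∉ ball p R₂ → uh j x = ρ x := fun j => (hh _ (bf j)).2
  have oa : ∀ j x, x ∉ ball p R₂ → ah j x = ρ x := fun j => (hh _ (ba j)).2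
  have ob : ∀ j x, x ∉ ball p R₂ → bh j x = ρ x := fun j => (hh _ (bb j)).2
  have om' : ∀ j x, x ∉ ball p R₂ → mh j x = ρ x := fun j x hx => by
    simp only [hmh, mx, oa j x hx, ob j x hx, sub_self, chi_of_nonpos le_rfl, add_zero]
  have iu : ∀ j, ∀ x ∈ closedBall p R₁, uh j x = f j x := fun j => (hh _ (bf j)).1
  have ia : ∀ j, ∀ x ∈ closedBall p R₁, ah j x = a j x := fun j => (hh _ (ba j)).1
  have ib : ∀ j, ∀ x ∈ closedBall p R₁, bh j x = b j x := fun j => (hh _ (bb j)).1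
  have gu : ∀ j x, ρ x ≤ uh j x := fun j => le_hat ρ _
  have ga : ∀ j x, ρ x ≤ ah j x := fun j => le_hat ρ _
  have gb : ∀ j x, ρ x ≤ bh j x := fun j => le_hat ρ _
  have gm : ∀ j x, ρ x ≤ mh j x := fun j x => (gb j x).trans (le_mx _ _ x)
  have s23 : ∀ x, x ∉ closedBall p R₃ → x ∉ ball p R₂ := fun x hx h' =>
    hx (ball_subset_closedBall (ball_subset_ball l3.le h'))
  have cu := hW c _ hD _ _ _ ρ A1 sρ (fun j x hx => ou j x (s23 x hx)) fun j x _ => gu j x
  have ca := hW c _ hD _ _ _ ρ A2 sρ (fun j x hx => oa j x (s23 x hx)) fun j x _ => ga j x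
  have cb := hW c _ hD _ _ _ ρ A3 sρ (fun j x hx => ob j x (s23 x hx)) fun j x _ => gb j x
  have cm := hW c _ hD _ _ _ ρ A4 sρ (fun j x hx => om' j x (s23 x hx)) fun j x _ => gm j x
  have hR2 : 0 < R₂ := by linarith
  have D1 : CTData c p R₃ R₂ (3 * K4) ρ mh _ uh ηf :=
    ⟨hR2, l3, sρ, A4, A1, om', ou, gm, gu, cm, cu, hf.small⟩
  have D2 : CTData c p R₃ R₂ (3 * K4) ρ bh _ uh ηf :=
    ⟨hR2, l3, sρ, A3, A1, ob, ou, gb, gu, cb, cu, hf.small⟩
  have D3 : CTData c p R₃ R₂ (3 * K4) ρ mh _ bh ηg :=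
    ⟨hR2, l3, sρ, A4, A3, om', ob, gm, gb, cm, cb, hg.small⟩
  have D4 : CTData c p R₃ R₂ (3 * K4) ρ bh _ bh ηg :=
    ⟨hR2, l3, sρ, A3, A3, ob, ob, gb, gb, cb, cb, hg.small⟩
  -- the weights
  set φ : ℕ → E → ℝ := fun j x => chi (ah j x - bh j x) with hφ
  have sφ : ∀ j, ContDiff ℝ ∞ (φ j) := fun j => contDiff_chi.comp ((A2.smooth j).sub (A3.smooth j))
  have d0 : ∀ j x, x ∉ ball p r → ah j x - bh j x ≤ 0 := fun j x hx => by
    by_cases hx' : x ∈ closedBall p R₃
    · exact hat_sub_le le_rfl (h2 j x hx' hx)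
    · rw [oa j x (s23 x hx'), ob j x (s23 x hx'), sub_self]
  have d1' : ∀ j x, ah j x - bh j x ≤ δ₀ := fun j x => by
    by_cases hx' : x ∈ closedBall p R₃
    · exact hat_sub_le hδ₀.le (h1 j x hx')
    · rw [oa j x (s23 x hx'), ob j x (s23 x hx'), sub_self]; exact hδ₀.le
  have zφ : ∀ j x, x ∉ closedBall p r → φ j x = 0 := fun j x hx =>
    chi_of_nonpos (d0 j x fun h' => hx (ball_subset_closedBall h'))
  have tφ : ∀ j, IsTest (ball p R₀) (φ j) := fun j => by
    have hs : tsupport (φ j) ⊆ closedBall p r :=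
      closure_minimal (fun x hx => by_contra fun h' => hx (zφ j x h')) isClosed_closedBall
    exact ⟨sφ j, hDr.of_isClosed_subset (isClosed_tsupport _) hs,
      hs.trans (closedBall_subset_ball hr₀)⟩
  have split : ∀ j (s : E → ℝ), ContDiff ℝ ∞ s → c.N (closedBall p R₃) (φ j) s s =
      c.N (closedBall p R₃) (fun x => mh j x - ρ x) s s
        - c.N (closedBall p R₃) (fun x => bh j x - ρ x) s s := fun j s hs => by
    rw [← c.N_sub hD ((A4.smooth j).sub sρ).continuous ((A3.smooth j).sub sρ).continuous hs hs]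
    congr 1
    funext x
    simp only [hφ, hmh, mx]; ring
  have loc : ∀ j (s s' : E → ℝ), (∀ x ∈ closedBall p r, s =ᶠ[𝓝 x] s') →
      c.N (closedBall p R₃) (φ j) s s = c.N (closedBall p R₀) (φ j) s' s' := fun j s s' h => by
    rw [c.N_congr hDr (sr.trans s0) (zφ j) h h,
      c.N_congr hDr sr (zφ j) (fun _ _ => EventuallyEq.rfl) fun _ _ => EventuallyEq.rfl]
  have locu : ∀ j k, c.N (closedBall p R₃) (φ j) (uh k) (uh k) =
      c.N (closedBall p R₀) (φ j) (f k) (f k) := fun j k =>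
    loc j _ _ fun x hx => eventuallyEq_of_ball (hr₀.trans l1) (iu k) hx
  have locb : ∀ j k, c.N (closedBall p R₃) (φ j) (bh k) (bh k) =
      c.N (closedBall p R₀) (φ j) (g k) (g k) := fun j k => by
    rw [loc j _ (b k) fun x hx => eventuallyEq_of_ball (hr₀.trans l1) (ib k) hx]
    simp only [Ctx.N, hb, c.T_add_const (hg.app.smooth k)]
  have locb' : ∀ j k, c.N (closedBall p R₃) (φ j) (bh k) (bh k) =
      c.N (closedBall p R₀) (φ j) (bh k) (bh k) := fun j k =>
    loc j _ _ fun _ _ => EventuallyEq.rfl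
  obtain ⟨Gu, hGu, lu⟩ := hG c p R₀ K f u hf.app.smooth (fun j x _ => hf.bdd j x)
    (fun x hx => hf.lim x (s0 hx)) (hf.cau.mono hD s0 hf.app.smooth)
  obtain ⟨Gv, hGv, lv⟩ := hG c p R₀ K g v hg.app.smooth (fun j x _ => hg.bdd j x)
    (fun x hx => hg.lim x (s0 hx)) (hg.cau.mono hD s0 hg.app.smooth)
  have key : ∀ ε > 0, ∀ᶠ j in atTop, c.N (closedBall p R₀) (φ j) (bh j) (bh j)
      - c.N (closedBall p R₀) (φ j) (f j) (f j) ≤ 5 * ε := by
    intro ε hε
    filter_upwards [hL _ _ _ _ _ _ _ _ _ _ D1 ε hε, hU _ _ _ _ _ _ _ _ _ _ D2 ε hε,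
      hU _ _ _ _ _ _ _ _ _ _ D3 ε hε, hL _ _ _ _ _ _ _ _ _ _ D4 ε hε] with j e1 e2 e3 e4
    have lim := (lv (φ j) (tφ j)).sub (lu (φ j) (tφ j))
    have hle := hMA Gu Gv hGu hGv (φ j) (tφ j) fun y => chi_nonneg _
    have e5 := lim.eventually (gt_mem_nhds (show _ < ε by linarith))
    obtain ⟨k, k1, k2, k3, k4, k5⟩ := (e1.and (e2.and (e3.and (e4.and e5)))).exists
    rw [← locu, ← locb, split j _ (A3.smooth k), split j _ (A1.smooth k)] at k5
    rw [← locu, ← locb', split j _ (A3.smooth j), split j _ (A1.smooth j)]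
    linarith
  intro ε hε
  set ε' := c' * ε / (6 + 5 * C) with hε'
  have hε'0 : 0 < ε' := by positivity
  have ca0 := ca.mono hD s0 A2.smooth
  have cb0 := cb.mono hD s0 A3.smooth
  obtain ⟨δa, hδa, Na, hNa⟩ := ca0.ui hD₀ A2.smooth (2 * K) ε' hε'0
  obtain ⟨δb, hδb, Nb, hNb⟩ := cb0.ui hD₀ A3.smooth (2 * K) ε' hε'0
  have cf : ∀ j, Continuous (ηf j) := fun j => (hf.app.smooth' j).continuous
  have cg : ∀ j, Continuous (ηg j) := fun j => (hg.app.smooth' j).continuous
  have sf := (hf.small.mono hD hD₀ s0 hf.app.smooth').tendsto_int hD₀ cf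
  have sg := (hg.small.mono hD hD₀ s0 hg.app.smooth').tendsto_int hD₀ cg
  filter_upwards [key ε' hε'0, sf ε' hε'0, sf (min δa δb / 2) (by positivity),
    sg (min δa δb / 2) (by positivity), eventually_ge_atTop Na, eventually_ge_atTop Nb]
    with j e1 e2 e3 e4 e5 e6
  have hmain := habs (f j) (ah j) (bh j) (ηf j) (ηg j) (hf.app.smooth j) (A2.smooth j)
    (A3.smooth j) (cf j) (cg j) (fun x hx => ia j x (s01 (ball_subset_closedBall hx)))
    (fun x hx => ⟨by rw [ia j x (s01 hx)]; exact ba j x, hf.app.nonneg j x (s0 hx),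
      (hf.app.le j x (s0 hx)).trans (by linarith), hg.app.nonneg j x (s0 hx),
      hf.app.pos j x (s0 hx), A3.pos j x (s0 hx)⟩) (d0 j) (d1' j)
  have hη : ∀ x ∈ closedBall p R₀, 0 ≤ ηf j x + ηg j x ∧ ηf j x + ηg j x ≤ 2 * K := fun x hx =>
    ⟨add_nonneg (hf.app.nonneg j x (s0 hx)) (hg.app.nonneg j x (s0 hx)),
      by linarith [hf.app.le j x (s0 hx), hg.app.le j x (s0 hx)]⟩
  have hi : ∫ x in closedBall p R₀, (ηf j x + ηg j x) ≤ min δa δb := by
    rw [int_add hD₀ (cf j) (cg j)]; linarith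
  have u1 := hNa j e5 (fun x => ηf j x + ηg j x) ((cf j).add (cg j)) hη (hi.trans (min_le_left _ _))
  have u2 := hNb j e6 (fun x => ηf j x + ηg j x) ((cf j).add (cg j)) hη
    (hi.trans (min_le_right _ _))
  have g1 := continuous_grad (A2.smooth j)
  have g2 := continuous_grad (A3.smooth j)
  have c1 := cf j
  have c2 := cg j
  have u3 : ∫ x in closedBall p R₀, (ηf j x + ηg j x) * ‖grad (ah j) x - grad (bh j) x‖ ^ 2 ≤
      ∫ x in closedBall p R₀, (2 * ((ηf j x + ηg j x) * ‖grad (ah j) x‖ ^ 2)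
        + 2 * ((ηf j x + ηg j x) * ‖grad (bh j) x‖ ^ 2)) := by
    refine int_mono hD₀ (by fun_prop) (by fun_prop) fun x hx => ?_
    have k1 : ‖grad (ah j) x - grad (bh j) x‖ ^ 2 ≤
        2 * ‖grad (ah j) x‖ ^ 2 + 2 * ‖grad (bh j) x‖ ^ 2 := by
      have := norm_sub_le (grad (ah j) x) (grad (bh j) x)
      nlinarith [norm_nonneg (grad (ah j) x - grad (bh j) x), norm_nonneg (grad (ah j) x),
        norm_nonneg (grad (bh j) x), sq_nonneg (‖grad (ah j) x‖ - ‖grad (bh j) x‖)]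
    nlinarith [mul_le_mul_of_nonneg_left k1 (hη x hx).1]
  rw [int_add hD₀ (by fun_prop) (by fun_prop), integral_const_mul, integral_const_mul] at u3
  have e7 : ∫ x in closedBall p R₀, chi (f j x + w x - (g j x + t)) =
      ∫ x in closedBall p R₀, chi (ah j x - bh j x) :=
    int_congr hD₀ fun x hx => by rw [ia j x (s01 hx), ib j x (s01 hx)]
  rw [e7]
  have e8 : c' * ∫ x in closedBall p R₀, chi (ah j x - bh j x) ≤ 5 * ε' + C * ε' + C * (4 * ε') := by
    refine hmain.trans (add_le_add (add_le_add e1 (mul_le_mul_of_nonneg_left e2 hC))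
      (mul_le_mul_of_nonneg_left (by linarith) hC))
  have e9 : (6 + 5 * C) * ε' = c' * ε := by rw [hε']; field_simp
  exact le_of_mul_le_mul_left (by nlinarith) hc'

/-- From `L¹` smallness of the cut differences to an almost everywhere inequality. -/
theorem ae_le {D : Set E} (hD : IsCompact D) {g : ℕ → E → ℝ} (hg : ∀ j, Continuous (g j))
    (h : ∀ ε > 0, ∀ᶠ j in atTop, ∫ x in D, chi (g j x) ≤ ε) {q : E → ℝ}
    (hq : ∀ᶠ j in atTop, ∀ x ∈ D, q x ≤ g j x) : ∀ᵐ x ∂(volume.restrict D), q x ≤ 0 := by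
  have : IsFiniteMeasure (volume.restrict D) := isFiniteMeasure_restrict.2 hD.measure_lt_top.ne
  have key : ∀ t > 0, (volume.restrict D) ({x | t ≤ q x} ∩ D) = 0 := by
    intro t ht
    have hχ := chi_pos ht
    have h1 : ∀ ε > 0, (volume.restrict D).real ({x | t ≤ q x} ∩ D) ≤ ε := by
      intro ε hε
      obtain ⟨j, j1, j2⟩ := ((h (chi t * ε) (by positivity)).and hq).exists
      have h2 := mul_meas_ge_le_integral_of_nonneg (μ := volume.restrict D)
        (f := fun x => chi (g j x)) (Eventually.of_forall fun x => chi_nonneg _)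
        (intOn hD (continuous_chi.comp (hg j))) (chi t)
      have h3 : (volume.restrict D).real ({x | t ≤ q x} ∩ D) ≤
          (volume.restrict D).real {x | chi t ≤ chi (g j x)} :=
        measureReal_mono fun x hx => monotone_chi (hx.1.trans (j2 x hx.2))
      exact h3.trans (le_of_mul_le_mul_left (h2.trans j1) hχ)
    have h2 : (volume.restrict D).real ({x | t ≤ q x} ∩ D) = 0 :=
      le_antisymm (le_of_forall_pos_le_add fun ε hε => by simpa using h1 ε hε) measureReal_nonneg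
    exact (measureReal_eq_zero_iff (measure_ne_top _ _)).1 h2
  have h2 : ∀ᵐ x ∂(volume.restrict D), ∀ n : ℕ, x ∉ {x | 1 / ((n : ℝ) + 1) ≤ q x} ∩ D :=
    ae_all_iff.2 fun n => measure_eq_zero_iff_ae_notMem.1 (key _ Nat.one_div_pos_of_nat)
  filter_upwards [h2, ae_restrict_mem hD.measurableSet] with x hx hxD
  by_contra hpos
  obtain ⟨n, hn⟩ := exists_nat_one_div_lt (not_le.1 hpos)
  exact hx n ⟨hn.le, hxD⟩

theorem local_ (hP : SPt) (hAP : SAP) (hAE : SAE) (hW : SW12) (hU : SCTU) (hL : SCTL)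
    (hAbs : SAbs) (hG : SWG) : SLocal := by
  intro c p R K m u v w hR hu hv hub hvb hMA hw hLw hle hnear
  set q : E → ℝ := fun y => ‖y - p‖ ^ 2 with hqdef
  have sq' : ContDiff ℝ ∞ q := H61.contDiff_sq p
  obtain ⟨a, ha, ρ₁, hρ₁, hpos⟩ := c.strict hP hw hLw
  obtain ⟨ρ₂, hρ₂, hq⟩ := c.sq_pos hP p
  obtain ⟨K₂, hK₂, hdom⟩ := c.T_dominate (isCompact_closedBall p ρ₁) sq'
  set μ := a / (2 * (K₂ + 1)) with hμ
  have hμ0 : 0 < μ := by positivity
  have hμ1 : μ * (K₂ + 1) = a / 2 := by rw [hμ]; field_simp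
  obtain ⟨β, sβ, hβ, hβ1, hβ0⟩ := exists_cutoff p hρ₁ (show ρ₁ < 2 * ρ₁ by linarith)
  set w₁ : E → ℝ := fun x => w x - μ * q x with hw₁
  have sw₁ : ContDiff ℝ ∞ w₁ := hw.sub (contDiff_const.mul sq')
  set w₂ : E → ℝ := fun x => β x * w₁ x with hw₂
  have sw₂ : ContDiff ℝ ∞ w₂ := sβ.mul sw₁
  obtain ⟨Kw, hKw, hwb⟩ := exists_bound (isCompact_closedBall p (2 * ρ₁)) sw₂.continuous
  have bw : ∀ x, |w₂ x| ≤ Kw := fun x => by
    by_cases hx : x ∈ closedBall p (2 * ρ₁)
    · exact hwb x hx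
    · simp only [hw₂, hβ0 x fun h' => hx (ball_subset_closedBall h'), zero_mul, abs_zero, hKw]
  have ew : ∀ x ∈ closedBall p ρ₁, w₂ x = w₁ x := fun x hx => by simp only [hw₂, hβ1 x hx, one_mul]
  obtain ⟨Ru, hRu, hRuR, f, ηf, Kf, hf⟩ := exists_good hP hW hAP c p hR hu hub
  obtain ⟨Rv, hRv, -, g, ηg, Kg, hg⟩ := exists_good hP hW hAP c p hR hv hvb
  set R₃ := min (min Ru Rv) (min (ρ₁ / 2) ρ₂) with hR₃
  have hR₃0 : 0 < R₃ := by positivity
  have r1 : R₃ ≤ Ru := (min_le_left _ _).trans (min_le_left _ _)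
  have r2 : R₃ ≤ Rv := (min_le_left _ _).trans (min_le_right _ _)
  have r3 : R₃ ≤ ρ₁ / 2 := (min_le_right _ _).trans (min_le_left _ _)
  have r4 : R₃ ≤ ρ₂ := (min_le_right _ _).trans (min_le_right _ _)
  have hD := isCompact_closedBall p R₃
  have sR : closedBall p R₃ ⊆ ball p R := closedBall_subset_ball (by linarith)
  have s1 : closedBall p R₃ ⊆ closedBall p ρ₁ := closedBall_subset_closedBall (by linarith)
  have pw : ∀ x ∈ closedBall p R₃, c.Pos x (c.T w₂ x - (a / 2) • c.Om x) := fun x hx => by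
    rw [c.T_congr (eventuallyEq_of_ball (show R₃ < ρ₁ by linarith) ew hx), hw₁,
      c.T_sub hw (contDiff_const.mul sq'), c.T_const_mul sq']
    have := ((hpos x (s1 hx)).add ((hdom x (s1 hx)).2.smul hμ0.le)).add ((c.Om_pos x).smul hμ0.le)
    convert this using 1
    have e : a = 2 * (μ * (K₂ + 1)) := by linarith
    rw [e]
    module
  set K₀ := max (max Kf Kg) (max Kw (|m| + 1)) with hK₀
  have k1 : Kf ≤ K₀ := (le_max_left _ _).trans (le_max_left _ _)
  have k2 : Kg ≤ K₀ := (le_max_right _ _).trans (le_max_left _ _)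
  have k3 : Kw ≤ K₀ := (le_max_left _ _).trans (le_max_right _ _)
  have k4 : |m| + 1 ≤ K₀ := (le_max_right _ _).trans (le_max_right _ _)
  replace hf := hf.mono (isCompact_closedBall p Ru) hD (closedBall_subset_closedBall r1) k1
  replace hg := hg.mono (isCompact_closedBall p Rv) hD (closedBall_subset_closedBall r2) k2
  have s0 : closedBall p (R₃ / 2) ⊆ closedBall p R₃ := closedBall_subset_closedBall (by linarith)
  obtain ⟨δ₀, c', C, hδ₀, hc', hC, habs⟩ := hAbs c p (R₃ / 2) (R₃ / 4) (2 * K₀) (a / 2) w₂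
    (by positivity) (by linarith) (by positivity) sw₂ fun x hx => pw x (s0 hx)
  set δ := min (min (δ₀ / 2) 1) (μ * (R₃ / 4) ^ 2 / 2) with hδ
  have hδ0 : 0 < δ := by positivity
  have e1 : δ ≤ δ₀ / 2 := (min_le_left _ _).trans (min_le_left _ _)
  have e2 : δ ≤ 1 := (min_le_left _ _).trans (min_le_right _ _)
  have e3 : δ ≤ μ * (R₃ / 4) ^ 2 / 2 := min_le_right _ _
  have base : ∀ x ∈ closedBall p R₃, ∀ j, u x + w₂ x - (g j x + (m - δ)) ≤ δ - μ * q x :=
    fun x hx j => by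
      rw [ew x (s1 hx)]
      simp only [hw₁]
      linarith [hle x (sR hx), hg.le j hx]
  have cf : ∀ j, Continuous (f j) := fun j => (hf.app.smooth j).continuous
  have cg : ∀ j, Continuous (g j) := fun j => (hg.app.smooth j).continuous
  have cw := sw₂.continuous
  have ev : ∀ (j : ℕ) (S : Set E) (t : ℝ), IsCompact S → S ⊆ closedBall p R₃ →
      (∀ x ∈ S, δ - μ * q x < t) →
      ∀ᶠ k in atTop, ∀ x ∈ S, f k x + w₂ x - (g j x + (m - δ)) < t := fun j S t hS hs ht => by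
    refine dini hS (g := fun k x => f k x + w₂ x - (g j x + (m - δ)))
      (fun k => by have := cf k; have := cg j; fun_prop)
      (fun k x hx => by linarith [hf.app.anti k x (hs hx)]) fun x hx => ?_
    have lim := ((hf.lim x (hs hx)).add_const (w₂ x)).sub_const (g j x + (m - δ))
    exact (lim.eventually (gt_mem_nhds ((base x (hs hx) j).trans_lt (ht x hx)))).exists
  have hq0 : ∀ x, 0 ≤ μ * q x := fun x => mul_nonneg hμ0.le (sq_nonneg _)
  obtain ⟨φ, hφ, hsub⟩ := extraction_forall_of_eventually (P := fun j k =>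
    (∀ x ∈ closedBall p R₃, f k x + w₂ x - (g j x + (m - δ)) < δ₀) ∧
      ∀ x ∈ closedBall p R₃ \ ball p (R₃ / 4), f k x + w₂ x - (g j x + (m - δ)) < 0) fun j =>
    (ev j _ δ₀ hD Subset.rfl fun x _ => by linarith [hq0 x]).and
      (ev j _ 0 (hD.diff isOpen_ball) sdiff_subset fun x hx => by
        have h1 : R₃ / 4 ≤ ‖x - p‖ := by simpa [dist_eq_norm] using hx.2
        have h2 : (R₃ / 4) ^ 2 ≤ q x := pow_le_pow_left₀ (by positivity) h1 2
        have h3 := mul_le_mul_of_nonneg_left h2 hμ0.le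
        have h4 : 0 < μ * (R₃ / 4) ^ 2 := by positivity
        linarith)
  have hf' := hf.subseq hφ
  have hcore := core hP hW hU hL hG (r := R₃ / 4) (R₀ := R₃ / 2) (by positivity) (by linarith)
    (by linarith) hδ₀ hc' hC sw₂ (fun x => (bw x).trans k3)
    (fun x hx => by
      have := (pw x hx).add ((c.Om_pos x).smul (show 0 ≤ a / 2 by positivity))
      simpa using this)
    (fun x hx => hq x (closedBall_subset_closedBall r4 hx)) habs hf' hg
    (hMA (R₃ / 2) (by positivity) (by linarith)) (t := m - δ)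
    ((abs_sub _ _).trans (by rw [abs_of_pos hδ0]; linarith))
    (fun j x hx => ((hsub j).1 x hx).le) fun j x hx hx' => ((hsub j).2 x ⟨hx, hx'⟩).le
  have every : ∀ i, ∀ x ∈ ball p (R₃ / 2), u x ≤ g i x + (m - δ) - w₂ x := fun i => by
    have h1 := ae_le (isCompact_closedBall p (R₃ / 2))
      (g := fun j x => f (φ j) x + w₂ x - (g j x + (m - δ)))
      (fun j => by have := cf (φ j); have := cg j; fun_prop) hcore
      (q := fun x => u x + w₂ x - (g i x + (m - δ))) (by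
        filter_upwards [eventually_ge_atTop i] with j hj x hx
        have := anti_of_succ hg.app.anti (s0 hx) hj
        simp only at this
        linarith [hf'.le j (s0 hx)])
    have sb : ball p (R₃ / 2) ⊆ ball p R := ball_subset_closedBall.trans (s0.trans sR)
    refine hAE c _ u _ K isOpen_ball (hu.mono sb) (fun x hx => hub x (sb hx))
      (by have := cg i; fun_prop) ?_
    filter_upwards [ae_restrict_of_ae_restrict_of_subset ball_subset_closedBall h1] with x hx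
    linarith
  set γ := min (min (R₃ / 2) 1) (δ / (2 * (1 + μ))) with hγ
  have hγ0 : 0 < γ := by positivity
  have g1 : γ ≤ R₃ / 2 := (min_le_left _ _).trans (min_le_left _ _)
  have g2 : γ ≤ 1 := (min_le_left _ _).trans (min_le_right _ _)
  have g3 : γ * (2 * (1 + μ)) ≤ δ := (le_div_iff₀ (by positivity)).1 (min_le_right _ _)
  obtain ⟨x, hx, hx'⟩ := hnear γ hγ0
  have hx2 : x ∈ ball p (R₃ / 2) := ball_subset_ball g1 hx
  have hx3 : x ∈ closedBall p R₃ := s0 (ball_subset_closedBall hx2)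
  have lim := ((hg.lim x hx3).add_const (m - δ)).sub_const (w₂ x)
  have h1 : u x ≤ v x + (m - δ) - w₂ x := ge_of_tendsto' lim fun i => every i x hx2
  rw [ew x (s1 hx3)] at h1
  simp only [hw₁] at h1
  have h2 : ‖x - p‖ ≤ γ := by simpa [dist_eq_norm] using (mem_ball.1 hx).le
  have h3 : q x ≤ γ := (pow_le_pow_left₀ (norm_nonneg _) h2 2).trans (by nlinarith)
  have h4 := mul_le_mul_of_nonneg_left h3 hμ0.le
  nlinarith

end Pool.Agent.MP_13e7a1_an.H82
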