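import Pool.Agent.MP_13e7a1_an.H82.Core

/-!
Statements of the steps of the proof, as propositions.
-/

open scoped Manifold ContDiff Topology Matrix NNReal BoundedContinuousFunction
open Set Metric MeasureTheory Filter

noncomputable section

namespace Pool.Agent.MP_13e7a1_an.H82

/-! ### Bridge from the literal density to the real formalism -/

/-- First term, locality, orientation. -/
structure SB1 : Prop where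
  t1 : ∀ (J : E → E →L[ℝ] E), ContDiff ℝ ∞ J → (∀ y Z, J y (J y Z) = -Z) →
    ∀ φ : E → ℝ, ContDiff ℝ ∞ φ → ∀ (P : E →L[ℝ] ℝ) (x : E),
      (wedge (del J 0 (delBar J 0 (form0 φ)) x)
        (wedge (proj (J x) 1 (form1 P)) (proj (J x) 0 (form1 P))) bas).re =
      -pf (wd (cov P) (cj (mat (J x)) (cov P))) (ddc J φ x) / 4
  congr : ∀ (J J' : E → E →L[ℝ] E) (x : E), J =ᶠ[𝓝 x] J' → ∀ (φ : E → ℝ) (P Q : E →L[ℝ] ℝ),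
    maDensity J φ P Q x = maDensity J' φ P Q x
  kah : ∀ A : E →L[ℝ] E, (∀ Z, A (A Z) = -Z) →
    (wedge (kahler A) (kahler A) bas).re = pf (om (mat A)) (om (mat A)) / 4

/-- Second, third and fifth terms. -/
structure SB2 : Prop where
  t23 : ∀ (J : E → E →L[ℝ] E), ContDiff ℝ ∞ J → (∀ y Z, J y (J y Z) = -Z) →
    ∀ φ : E → ℝ, ContDiff ℝ ∞ φ → ∀ (P : E →L[ℝ] ℝ) (x : E),
      (wedge (del J 0 (form0 φ) x)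
          (wedge (proj (J x) 1 (form1 P)) (thetaBar J 0 (proj (J x) 1 (form1 P)) x)) bas
        + wedge (delBar J 0 (form0 φ) x)
          (wedge (theta J 0 (proj (J x) 0 (form1 P)) x) (proj (J x) 0 (form1 P))) bas).re =
      -pf (wd (cov P) (cj (mat (J x)) (grad φ x)) - wd (grad φ x) (cj (mat (J x)) (cov P)))
        (nu J x (cov P)) / 4
  t5 : ∀ (J : E → E →L[ℝ] E), ContDiff ℝ ∞ J → (∀ y Z, J y (J y Z) = -Z) →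
    ∀ (P : E →L[ℝ] ℝ) (x : E),
      (wedge (theta J 0 (proj (J x) 0 (form1 P)) x)
        (thetaBar J 0 (proj (J x) 1 (form1 P)) x) bas).re =
      pf (nu J x (cov P)) (nu J x (cov P)) / 8

/-- Fourth term. -/
def SB3 : Prop :=
  ∀ (J : E → E →L[ℝ] E), ContDiff ℝ ∞ J → (∀ y Z, J y (J y Z) = -Z) →
    ∀ (P : E →L[ℝ] ℝ) (x : E),
      wedge (theta J 0 (thetaBar J 0 (proj (J x) 1 (form1 P)) x) x) (proj (J x) 0 (form1 P)) bas =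
        -wedge (theta J 0 (proj (J x) 0 (form1 P)) x)
          (thetaBar J 0 (proj (J x) 1 (form1 P)) x) bas

/-! ### Pointwise linear algebra -/

structure SLinA : Prop where
  ne : ∀ J : Mat, J * J = -1 → pf (om J) (om J) ≠ 0
  pos_pos : ∀ (J : Mat) (o : ℝ), J * J = -1 → 0 < o * pf (om J) (om J) →
    ∀ β γ : Mat, IsPos J β → IsPos J γ → 0 ≤ o * pf β γ
  anti_nonneg : ∀ (J : Mat) (o : ℝ), J * J = -1 → 0 < o * pf (om J) (om J) →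
    ∀ β : Mat, IsAnti J β → 0 ≤ o * pf β β
  strict : ∀ (J : Mat), J * J = -1 → ∀ β : Mat, IsPos J β → pf β (om J) = 0 → β = 0

structure SLinB : Prop where
  orth : ∀ J : Mat, J * J = -1 → ∀ β γ : Mat, IsInv J β → IsAnti J γ → pf β γ = 0
  rot : ∀ J : Mat, J * J = -1 → ∀ β γ : Mat, IsAnti J β → IsAnti J γ →
    pf (Jᵀ * β) (Jᵀ * γ) = pf β γ
  trace : ∀ K : ℝ, ∃ C : ℝ, 0 < C ∧ ∀ (J : Mat) (o : ℝ), J * J = -1 → (o = 1 ∨ o = -1) →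
    0 < o * pf (om J) (om J) → (∀ i j, |J i j| ≤ K) →
    ∀ β : Mat, IsPos J β → ∀ i j, |β i j| ≤ C * (o * pf β (om J))

/-! ### Holomorphic discs -/

def SNemy : Prop :=
  ∀ (F G : Type) [NormedAddCommGroup F] [NormedSpace ℝ F] [FiniteDimensional ℝ F]
    [NormedAddCommGroup G] [NormedSpace ℝ G] (g : F → G), ContDiff ℝ ∞ g →
    ∃ N : (ℂ →ᵇ F) → (ℂ →ᵇ G), ContDiff ℝ ∞ N ∧ (∀ f z, N f z = g (f z)) ∧
      ∀ f h z, fderiv ℝ N f h z = fderiv ℝ g (f z) (h z)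

structure SCauA : Prop where
  integ : ∀ (F : Type) [NormedAddCommGroup F] [NormedSpace ℝ F] [FiniteDimensional ℝ F]
    (A : F →L[ℝ] F) (g : ℂ → F), Continuous g → HasCompactSupport g →
    ∀ z, Integrable (fun ζ : ℂ => k1 ζ • g (z - ζ) - k2 ζ • A (g (z - ζ)))
  bound : ∀ (F : Type) [NormedAddCommGroup F] [NormedSpace ℝ F] [FiniteDimensional ℝ F]
    (A : F →L[ℝ] F) (R : ℝ), ∃ C : ℝ, 0 ≤ C ∧ ∀ (g : ℂ → F) (B : ℝ), Continuous g →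
      (∀ z, R ≤ ‖z‖ → g z = 0) → (∀ z, ‖g z‖ ≤ B) →
      Continuous (cT A g) ∧ ∀ z, ‖cT A g z‖ ≤ C * B
  smooth : ∀ (F : Type) [NormedAddCommGroup F] [NormedSpace ℝ F] [FiniteDimensional ℝ F]
    (A : F →L[ℝ] F) (g : ℂ → F), ContDiff ℝ ∞ g → HasCompactSupport g →
    ContDiff ℝ ∞ (cT A g) ∧ ∀ z v, fderiv ℝ (cT A g) z v = cT A (fun ζ => fderiv ℝ g ζ v) z
  decay : ∀ (F : Type) [NormedAddCommGroup F] [NormedSpace ℝ F] [FiniteDimensional ℝ F]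
    (A : F →L[ℝ] F) (g : ℂ → F), Continuous g → HasCompactSupport g →
    Tendsto (cT A g) (cocompact ℂ) (𝓝 0)

structure SCauB : Prop where
  pomp : ∀ (F : Type) [NormedAddCommGroup F] [NormedSpace ℝ F] [FiniteDimensional ℝ F]
    (A : F →L[ℝ] F), (∀ v, A (A v) = -v) → ∀ g : ℂ → F, ContDiff ℝ ∞ g → HasCompactSupport g →
    ∀ z, cT A (dbar A g) z = g z
  solve : ∀ (F : Type) [NormedAddCommGroup F] [NormedSpace ℝ F] [FiniteDimensional ℝ F]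
    (A : F →L[ℝ] F), (∀ v, A (A v) = -v) → ∀ g : ℂ → F, ContDiff ℝ ∞ g → HasCompactSupport g →
    ∀ z, dbar A (cT A g) z = g z
  uniq : ∀ (F : Type) [NormedAddCommGroup F] [NormedSpace ℝ F] [FiniteDimensional ℝ F]
    (A : F →L[ℝ] F), (∀ v, A (A v) = -v) → ∀ h : ℂ → F, ContDiff ℝ ∞ h →
    Tendsto h (cocompact ℂ) (𝓝 0) → HasCompactSupport (dbar A h) →
    ∀ z, h z = cT A (dbar A h) z

def SSemi : Prop :=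
  ∀ (F Q : Type) [NormedAddCommGroup F] [NormedSpace ℝ F] [FiniteDimensional ℝ F]
    [NormedAddCommGroup Q] [NormedSpace ℝ Q] [FiniteDimensional ℝ Q]
    (A : F →L[ℝ] F) (Φ : ℂ × Q × F → F) (q₀ : Q), ContDiff ℝ ∞ Φ →
    (∀ ζ q v, 3 ≤ ‖ζ‖ → Φ (ζ, q, v) = 0) → (∀ ζ, Φ (ζ, q₀, 0) = 0) →
    (∀ ζ, fderiv ℝ (fun y : Q × F => Φ (ζ, y)) (q₀, 0) = 0) →
    ∃ δ : ℝ, 0 < δ ∧ ∃ f : Q × ℂ → F, ContDiffOn ℝ ∞ f (ball q₀ δ ×ˢ univ) ∧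
      (∀ q ∈ ball q₀ δ, ∀ z, f (q, z) = cT A (fun ζ => Φ (ζ, q, f (q, ζ))) z) ∧
      (∀ γ : ℝ, 0 < γ → ∀ᶠ q in 𝓝 q₀, ∀ z, ‖f (q, z)‖ ≤ γ) ∧
      ∀ z, HasFDerivAt (fun q => f (q, z)) (0 : Q →L[ℝ] F) q₀

def SDisc : Prop :=
  ∀ (c : Ctx) (p : E) (R : ℝ), 0 < R → ∃ δ : ℝ, 0 < δ ∧ δ ≤ R ∧ ∃ lam, c.Fam p R δ lam

structure SLap : Prop where
  lim : ∀ g : ℂ → ℝ, ContDiff ℝ ∞ g →
    Tendsto (fun r : ℝ => (Real.circleAverage g 0 r - g 0) / r ^ 2) (𝓝[>] 0)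
      (𝓝 ((fderiv ℝ (fderiv ℝ g) 0 1 1 + fderiv ℝ (fderiv ℝ g) 0 Complex.I Complex.I) / 4))
  disc : ∀ (c : Ctx) (γ : ℂ → E), ContDiff ℝ ∞ γ → c.Hol γ → ∀ f : E → ℝ, ContDiff ℝ ∞ f →
    fderiv ℝ (fderiv ℝ (fun ζ => f (γ ζ))) 0 1 1
      + fderiv ℝ (fderiv ℝ (fun ζ => f (γ ζ))) 0 Complex.I Complex.I =
    c.L (fderiv ℝ γ 0 1) f (γ 0)
  smul : ∀ (c : Ctx) (t : ℝ) (Z : E) (f : E → ℝ) (x : E), c.L (t • Z) f x = t ^ 2 * c.L Z f x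

def SPshL : Prop :=
  ∀ (c : Ctx) (U : Set E) (f : E → ℝ) (p : E), IsOpen U → p ∈ U → ContDiff ℝ ∞ f → c.Psh U f →
    ∀ Z, 0 ≤ c.L Z f p

/-! ### Approximation -/

structure SSup : Prop where
  lip : ∀ (p : E) (R K : ℝ) (u : E → ℝ), 0 < R → (∀ x ∈ ball p R, |u x| ≤ K) →
    ∀ ε : ℝ, 0 < ε → ∃ Lc : ℝ≥0, LipschitzOnWith Lc (supc (ball p R) u ε) (ball p R)
  mono : ∀ (p : E) (R K : ℝ) (u : E → ℝ), 0 < R → (∀ x ∈ ball p R, |u x| ≤ K) →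
    ∀ ε ε' : ℝ, 0 < ε → ε ≤ ε' → ∀ x, supc (ball p R) u ε x ≤ supc (ball p R) u ε' x
  bdd : ∀ (p : E) (R K : ℝ) (u : E → ℝ), 0 < R → (∀ x ∈ ball p R, |u x| ≤ K) →
    ∀ ε : ℝ, 0 < ε → ∀ x ∈ ball p R, |supc (ball p R) u ε x| ≤ K
  lim : ∀ (p : E) (R K : ℝ) (u : E → ℝ), 0 < R → (∀ x ∈ ball p R, |u x| ≤ K) →
    UpperSemicontinuousOn u (ball p R) → ∀ x ∈ ball p R,
    Tendsto (fun ε => supc (ball p R) u ε x) (𝓝[>] 0) (𝓝 (u x))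
  asm : ∀ (c : Ctx) (p : E) (R δ K : ℝ) (lam : E × E × ℂ → E) (u : E → ℝ), 0 < δ → δ ≤ R →
    c.Fam p R δ lam → c.Psh (ball p R) u → (∀ x ∈ ball p R, |u x| ≤ K) →
    ∃ A ε₀ : ℝ, 0 ≤ A ∧ 0 < ε₀ ∧ ∀ ε : ℝ, 0 < ε → ε ≤ ε₀ → ∀ x ∈ ball p (δ / 2),
      ∀ Z ∈ ball (0 : E) δ, ∀ r : ℝ, 0 < r → r < 1 →
        supc (ball p R) u ε x - A * r ^ 2 * (supc (ball p R) u (2 * ε) x - supc (ball p R) u ε x) ≤
          Real.circleAverage (fun ζ => supc (ball p R) u ε (lam (x, Z, ζ))) 0 r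

def SKer : Prop :=
  ∀ (c : Ctx) (p : E) (R δ : ℝ) (lam : E × E × ℂ → E), c.Fam p R δ lam →
    ∀ σ : E → ℝ, ContDiff ℝ ∞ σ → (∀ y, 1 ≤ ‖y‖ → σ y = 0) → ∫ y, σ y ^ 2 = 1 →
    ∀ δ₂ : ℝ, 0 < δ₂ → δ₂ < δ →
    ∃ C r₀ κ₀ : ℝ, 0 ≤ C ∧ 0 < r₀ ∧ r₀ ≤ 1 ∧ 0 < κ₀ ∧
      (∀ x ∈ ball p δ, ∀ Z ∈ ball (0 : E) δ, ∀ ζ : ℂ, ‖ζ‖ < 1 → ‖lam (x, Z, ζ) - x‖ ≤ C * ‖ζ‖) ∧
      ∀ κ : ℝ, 0 < κ → κ < κ₀ → ∀ x₀ ∈ ball p δ₂, ∀ Z ∈ ball (0 : E) δ,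
        ∃ (Θ : ℂ × E → ℝ) (k : E → ℂ →L[ℝ] ℝ), Continuous Θ ∧ Continuous k ∧
          (∀ y, ‖y‖ ≤ 2 → ‖k y‖ ≤ C) ∧ ∀ ζ : ℂ, ‖ζ‖ < r₀ →
            (∀ y, 2 ≤ ‖y‖ → Θ (ζ, y) = 0) ∧
            (∀ y, ‖y‖ ≤ 2 → |Θ (ζ, y) - σ y ^ 2 - σ y * k y ζ| ≤ C * ‖ζ‖ ^ 2) ∧
            (∫ y, σ y * k y ζ = 0) ∧
            ∀ h : E → ℝ, Continuous h →
              moll σ κ h (lam (x₀, Z, ζ)) = ∫ y, h (lam (x₀ - κ • y, Z, ζ)) * Θ (ζ, y)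

def SSmooth : Prop :=
  ∀ (c : Ctx) (p : E) (R δ : ℝ) (lam : E × E × ℂ → E), c.Fam p R δ lam →
    ∀ (f η : E → ℝ) (Lc : ℝ≥0) (A z₀ δ₁ δ₂ : ℝ), LipschitzWith Lc f → Continuous η →
    (∀ x ∈ ball p δ₁, 0 ≤ η x) → 0 ≤ A → 0 < z₀ → z₀ < δ → 0 < δ₂ → δ₂ < δ₁ → δ₁ ≤ δ →
    (∀ x ∈ ball p δ₁, ∀ Z : E, ‖Z‖ = z₀ → ∀ r : ℝ, 0 < r → r < 1 →
      f x - A * r ^ 2 * η x ≤ Real.circleAverage (fun ζ => f (lam (x, Z, ζ))) 0 r) →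
    ∀ γ : ℝ, 0 < γ → ∃ g : E → ℝ, ContDiff ℝ ∞ g ∧ ∀ x ∈ ball p δ₂,
      |g x - f x| ≤ γ ∧ ∀ Z : E, -(6 * A / z₀ ^ 2 * η x + γ) * ‖Z‖ ^ 2 ≤ c.L Z g x

def SAP : Prop :=
  ∀ (c : Ctx) (p : E) (R K : ℝ) (u : E → ℝ), 0 < R → c.Psh (ball p R) u →
    (∀ x ∈ ball p R, |u x| ≤ K) →
    ∃ R' : ℝ, 0 < R' ∧ R' < R ∧ ∃ (f : ℕ → E → ℝ) (C K' : ℝ), 0 ≤ C ∧
      (∀ j, ContDiff ℝ ∞ (f j)) ∧ (∀ j x, |f j x| ≤ K') ∧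
      (∀ j, ∀ x ∈ closedBall p R', f (j + 1) x ≤ f j x) ∧
      (∀ x ∈ closedBall p R', Tendsto (fun j => f j x) atTop (𝓝 (u x))) ∧
      ∀ j, ∀ x ∈ closedBall p R', ∀ Z : E,
        -(C * (f j x - f (j + 1) x)) * ‖Z‖ ^ 2 ≤ c.L Z (f (j + 1)) x

def SAE : Prop :=
  ∀ (c : Ctx) (U : Set E) (u β : E → ℝ) (K : ℝ), IsOpen U → c.Psh U u → (∀ x ∈ U, |u x| ≤ K) →
    Continuous β → (∀ᵐ x ∂(volume.restrict U), u x ≤ β x) → ∀ x ∈ U, u x ≤ β x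

/-! ### Calculus -/

structure SPt : Prop where
  split : ∀ (c : Ctx) (f : E → ℝ), ContDiff ℝ ∞ f → ∀ x,
    ddc c.J f x = c.T f x + c.Nu x (grad f x)
  TL : ∀ (c : Ctx) (f : E → ℝ), ContDiff ℝ ∞ f → ∀ x Z : E,
    Z.ofLp ⬝ᵥ (c.T f x *ᵥ (c.M x *ᵥ Z.ofLp)) = c.L Z f x
  chain : ∀ (c : Ctx) (f : E → ℝ) (ψ : ℝ → ℝ), ContDiff ℝ ∞ f → ContDiff ℝ ∞ ψ → ∀ x,
    c.T (fun y => ψ (f y)) x =
      deriv ψ (f x) • c.T f x + deriv (deriv ψ) (f x) • c.s x (grad f x) (grad f x)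
  rot : ∀ (c : Ctx) (x : E) (p : V), c.Nu x (cj (c.M x) p) = (c.M x)ᵀ * c.Nu x p

structure SIntA : Prop where
  ephi : ∀ (c : Ctx) (D : Set E), IsCompact D → ∀ φ a b : E → ℝ, ContDiff ℝ ∞ φ →
    ContDiff ℝ ∞ a → ContDiff ℝ ∞ b → (∀ x, x ∉ D → φ x = 0) →
    c.N D φ a b = ∫ x in D, c.o * Eden c.J φ (grad a x) (grad b x) x
  swap : ∀ (c : Ctx) (D : Set E), IsCompact D → ∀ F G S : E → ℝ, ContDiff ℝ ∞ F →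
    ContDiff ℝ ∞ G → ContDiff ℝ ∞ S → (∀ x, x ∉ D → F x = 0) → (∀ x, x ∉ D → G x = 0) →
    c.N D F G S - c.N D G F S =
      -(∫ x in D, c.w (c.al x (grad F x) (grad G x)) (c.Nu x (grad S x)))
        - (∫ x in D, F x * c.n x (grad G x) (grad S x))
        + ∫ x in D, G x * c.n x (grad F x) (grad S x)
  energy : ∀ (c : Ctx) (D : Set E), IsCompact D → ∀ (g S : E → ℝ) (ψ : ℝ → ℝ), ContDiff ℝ ∞ g →
    ContDiff ℝ ∞ S → ContDiff ℝ ∞ ψ → (∀ x, x ∉ D → ψ (g x) = 0) →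
    c.N D (fun x => ψ (g x)) g S =
      -(∫ x in D, deriv ψ (g x) * c.w (c.s x (grad g x) (grad g x)) (c.T S x))
        - ∫ x in D, ψ (g x) * c.n x (grad g x) (grad S x)

structure SIntB : Prop where
  lap : ∀ c : Ctx, ∃ Y : E → V, Continuous Y ∧ ∀ D : Set E, IsCompact D → ∀ h g : E → ℝ,
    ContDiff ℝ ∞ h → ContDiff ℝ ∞ g → (∀ x, x ∉ D → h x = 0) →
    ∫ x in D, h x * c.w (c.T g x) (c.Om x) =
      -(∫ x in D, c.w (c.s x (grad h x) (grad g x)) (c.Om x)) + ∫ x in D, h x * (Y x ⬝ᵥ grad g x)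
  tors : ∀ c : Ctx, ∃ (τ : E → Mat) (X : E → V), Continuous τ ∧ ContDiff ℝ ∞ X ∧
    ∀ D : Set E, IsCompact D → ∀ H a : E → ℝ, ContDiff ℝ ∞ H → ContDiff ℝ ∞ a →
    (∀ x, x ∉ D → H x = 0) →
    ∫ x in D, c.n x (grad H x) (grad a x) =
      (∫ x in D, H x * pf (c.T a x) (τ x)) + ∫ x in D, H x * (X x ⬝ᵥ grad a x)
  div : ∀ X : E → V, ContDiff ℝ ∞ X → ∃ Y : E → ℝ, Continuous Y ∧ ∀ D : Set E, IsCompact D →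
    ∀ h a : E → ℝ, ContDiff ℝ ∞ h → ContDiff ℝ ∞ a → (∀ x, x ∉ D → h x = 0) →
    ∫ x in D, h x * (X x ⬝ᵥ grad a x) =
      -(∫ x in D, a x * (X x ⬝ᵥ grad h x)) - ∫ x in D, a x * h x * Y x

/-! ### Pluripotential estimates -/

def SW12 : Prop :=
  ∀ (c : Ctx) (D : Set E), IsCompact D → ∀ (f η : ℕ → E → ℝ) (K : ℝ) (ρ : E → ℝ),
    c.App D f η K → ContDiff ℝ ∞ ρ → (∀ j x, x ∉ D → f j x = ρ x) →
    (∀ j, ∀ x ∈ D, ρ x ≤ f j x) → Cau D f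

def STri : Prop :=
  ∀ (c : Ctx) (p : E) (R R₁ K : ℝ), 0 < R₁ → R₁ < R → ∃ C : ℝ, 0 ≤ C ∧ ∀ F A : E → ℝ,
    ContDiff ℝ ∞ F → ContDiff ℝ ∞ A → (∀ x, x ∉ ball p R₁ → F x = 0) →
    (∀ x ∈ closedBall p R, 0 ≤ F x ∧ F x ≤ K ∧ 0 ≤ A x ∧ A x ≤ K ∧
      c.Pos x (c.T F x + K • c.Om x) ∧ c.Pos x (c.T A x + K • c.Om x)) →
    ∫ x in closedBall p R, c.w (c.al x (grad F x) (grad A x)) (c.al x (grad F x) (grad A x)) ≤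
      C * (1 + (∫ x in closedBall p R, ‖grad F x‖ ^ 2) + ∫ x in closedBall p R, ‖grad A x‖ ^ 2)

/-- The data of the convergence theorem. -/
structure CTData (c : Ctx) (p : E) (R R₁ K : ℝ) (ρ : E → ℝ) (f ηf a ηa : ℕ → E → ℝ) : Prop where
  pos : 0 < R₁
  lt : R₁ < R
  smooth : ContDiff ℝ ∞ ρ
  appf : c.App (closedBall p R) f ηf K
  appa : c.App (closedBall p R) a ηa K
  outf : ∀ j x, x ∉ ball p R₁ → f j x = ρ x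
  outa : ∀ j x, x ∉ ball p R₁ → a j x = ρ x
  gef : ∀ j x, ρ x ≤ f j x
  gea : ∀ j x, ρ x ≤ a j x
  cauf : Cau (closedBall p R) f
  caua : Cau (closedBall p R) a
  small : Small (closedBall p R) ηa

def SCTU : Prop :=
  ∀ (c : Ctx) (p : E) (R R₁ K : ℝ) (ρ : E → ℝ) (f ηf a ηa : ℕ → E → ℝ),
    CTData c p R R₁ K ρ f ηf a ηa → ∀ ε : ℝ, 0 < ε → ∀ᶠ j in atTop, ∀ᶠ k in atTop,
      c.N (closedBall p R) (fun x => f j x - ρ x) (a j) (a j)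
        - c.N (closedBall p R) (fun x => f j x - ρ x) (a k) (a k) ≤ ε

def SCTL : Prop :=
  ∀ (c : Ctx) (p : E) (R R₁ K : ℝ) (ρ : E → ℝ) (f ηf a ηa : ℕ → E → ℝ),
    CTData c p R R₁ K ρ f ηf a ηa → ∀ ε : ℝ, 0 < ε → ∀ᶠ j in atTop, ∀ᶠ k in atTop,
      -ε ≤ c.N (closedBall p R) (fun x => f j x - ρ x) (a j) (a j)
        - c.N (closedBall p R) (fun x => f j x - ρ x) (a k) (a k)

def SAbs : Prop :=
  ∀ (c : Ctx) (p : E) (R r K c₀ : ℝ) (w : E → ℝ), 0 < r → r < R → 0 < c₀ → ContDiff ℝ ∞ w →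
    (∀ x ∈ closedBall p R, c.Pos x (c.T w x - c₀ • c.Om x)) →
    ∃ δ₀ c' C : ℝ, 0 < δ₀ ∧ 0 < c' ∧ 0 ≤ C ∧ ∀ u a b η₁ η₂ : E → ℝ, ContDiff ℝ ∞ u →
      ContDiff ℝ ∞ a → ContDiff ℝ ∞ b → Continuous η₁ → Continuous η₂ →
      (∀ x ∈ ball p R, a x = u x + w x) →
      (∀ x ∈ closedBall p R, |a x| ≤ K ∧ 0 ≤ η₁ x ∧ η₁ x ≤ K ∧ 0 ≤ η₂ x ∧
        c.Pos x (c.T u x + η₁ x • c.Om x) ∧ c.Pos x (c.T b x + η₂ x • c.Om x)) →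
      (∀ x, x ∉ ball p r → a x - b x ≤ 0) → (∀ x, a x - b x ≤ δ₀) →
      c' * ∫ x in closedBall p R, chi (a x - b x) ≤
        c.N (closedBall p R) (fun x => chi (a x - b x)) b b
          - c.N (closedBall p R) (fun x => chi (a x - b x)) u u
          + C * (∫ x in closedBall p R, η₁ x)
          + C * ∫ x in closedBall p R, (η₁ x + η₂ x) * ‖grad a x - grad b x‖ ^ 2

def SWG : Prop :=
  ∀ (c : Ctx) (p : E) (r K : ℝ) (f : ℕ → E → ℝ) (u : E → ℝ), (∀ j, ContDiff ℝ ∞ (f j)) →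
    (∀ j, ∀ x ∈ closedBall p r, |f j x| ≤ K) →
    (∀ x ∈ closedBall p r, Tendsto (fun j => f j x) atTop (𝓝 (u x))) → Cau (closedBall p r) f →
    ∃ G : E → E →L[ℝ] ℝ, IsWeakGrad (ball p r) u G ∧ ∀ φ : E → ℝ, IsTest (ball p r) φ →
      Tendsto (fun k => c.N (closedBall p r) φ (f k) (f k)) atTop
        (𝓝 (∫ x in ball p r, c.o * Eden c.J φ (cov (G x)) (cov (G x)) x))

/-- No interior local maximum of `u + w - v`. -/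
def SLocal : Prop :=
  ∀ (c : Ctx) (p : E) (R K m : ℝ) (u v w : E → ℝ), 0 < R → c.Psh (ball p R) u →
    c.Psh (ball p R) v → (∀ x ∈ ball p R, |u x| ≤ K) → (∀ x ∈ ball p R, |v x| ≤ K) →
    (∀ r : ℝ, 0 < r → r ≤ R → ∀ Gu Gv : E → E →L[ℝ] ℝ, IsWeakGrad (ball p r) u Gu →
      IsWeakGrad (ball p r) v Gv → ∀ φ : E → ℝ, IsTest (ball p r) φ → (∀ y, 0 ≤ φ y) →
      ∫ x in ball p r, c.o * Eden c.J φ (cov (Gv x)) (cov (Gv x)) x ≤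
        ∫ x in ball p r, c.o * Eden c.J φ (cov (Gu x)) (cov (Gu x)) x) →
    ContDiff ℝ ∞ w → (∀ Z : E, Z ≠ 0 → 0 < c.L Z w p) →
    (∀ x ∈ ball p R, u x + w x - v x ≤ m) →
    (∀ γ : ℝ, 0 < γ → ∃ x ∈ ball p γ, m - γ < u x + w x - v x) → False

/-! ### The manifold -/

universe uu

/-- Transfer to a chart. -/
def SChart : Prop :=
  ∀ (M : Type uu) [TopologicalSpace M] [ChartedSpace E M] [IsManifold 𝓘(ℝ, E) ∞ M] (J : End M),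
    IsAlmostComplex J → ∀ (x₀ : M) (W : Set M), IsOpen W → x₀ ∈ W →
    ∃ (c : Ctx) (R : ℝ) (ret : E → E), 0 < R ∧ ContDiff ℝ ∞ ret ∧
      (∀ y ∈ ball (chartAt E x₀ x₀) R, ret y = y) ∧
      (∀ y, ret y ∈ (chartAt E x₀).target ∧ (chartAt E x₀).symm (ret y) ∈ W) ∧
      (∀ y ∈ ball (chartAt E x₀ x₀) R, chartJ J x₀ y = c.J y) ∧
      ∀ (Ω : Set M) (u : M → ℝ) (r : ℝ), r ≤ R → Psh J Ω u →
        MapsTo (chartAt E x₀).symm (ball (chartAt E x₀ x₀) r) Ω →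
        c.Psh (ball (chartAt E x₀ x₀) r) (u ∘ (chartAt E x₀).symm)

def SMain : Prop :=
  ∀ (M : Type uu) [TopologicalSpace M] [ChartedSpace E M] [IsManifold 𝓘(ℝ, E) ∞ M] [T2Space M]
    (J : End M), IsAlmostComplex J → ∀ Ω : Set M, StrictlyPseudoconvex J Ω → ∀ u v : M → ℝ,
    Psh J Ω u → Psh J Ω v → (∃ C : ℝ, ∀ x ∈ Ω, |u x| ≤ C) → (∃ C : ℝ, ∀ x ∈ Ω, |v x| ≤ C) →
    MAGe J Ω u v → ∀ K : Set M, IsCompact K → K ⊆ Ω → (∀ x ∈ Ω \ K, u x ≤ v x) →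
    ∀ x ∈ Ω, u x ≤ v x

end Pool.Agent.MP_13e7a1_an.H82
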