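import Pool.Agent.MP_13e7a1_an.H82.Basic

/-!
Integral tools, the cut `χ`, and the link between `L` and positivity.
-/

open scoped ContDiff Topology Matrix
open Set Metric MeasureTheory Filter

noncomputable section

namespace Pool.Agent.MP_13e7a1_an.H82

/-! ### Integrals over compact sets -/

theorem intOn {D : Set E} (hD : IsCompact D) {h : E → ℝ} (hc : Continuous h) :
    IntegrableOn h D := hc.continuousOn.integrableOn_compact hD

theorem int_add {D : Set E} (hD : IsCompact D) {f g : E → ℝ} (hf : Continuous f)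
    (hg : Continuous g) : ∫ x in D, (f x + g x) = (∫ x in D, f x) + ∫ x in D, g x :=
  integral_add (intOn hD hf) (intOn hD hg)

theorem int_sub {D : Set E} (hD : IsCompact D) {f g : E → ℝ} (hf : Continuous f)
    (hg : Continuous g) : ∫ x in D, (f x - g x) = (∫ x in D, f x) - ∫ x in D, g x :=
  integral_sub (intOn hD hf) (intOn hD hg)

theorem int_mono {D : Set E} (hD : IsCompact D) {f g : E → ℝ} (hf : Continuous f)
    (hg : Continuous g) (h : ∀ x ∈ D, f x ≤ g x) : ∫ x in D, f x ≤ ∫ x in D, g x :=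
  setIntegral_mono_on (intOn hD hf) (intOn hD hg) hD.measurableSet h

theorem int_nonneg {D : Set E} (hD : IsCompact D) {f : E → ℝ} (h : ∀ x ∈ D, 0 ≤ f x) :
    0 ≤ ∫ x in D, f x := setIntegral_nonneg hD.measurableSet h

theorem int_congr {D : Set E} (hD : IsCompact D) {f g : E → ℝ} (h : ∀ x ∈ D, f x = g x) :
    ∫ x in D, f x = ∫ x in D, g x := setIntegral_congr_fun hD.measurableSet h

theorem abs_int_le {D : Set E} (hD : IsCompact D) {f g : E → ℝ} (hf : Continuous f)
    (hg : Continuous g) (h : ∀ x ∈ D, |f x| ≤ g x) : |∫ x in D, f x| ≤ ∫ x in D, g x :=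
  abs_integral_le_integral_abs.trans (int_mono hD hf.abs hg h)

theorem int_const (D : Set E) (t : ℝ) : ∫ _x in D, t = volume.real D * t := by simp

/-- Cauchy-Schwarz. -/
theorem int_cs {D : Set E} (hD : IsCompact D) {f g : E → ℝ} (hf : Continuous f)
    (hg : Continuous g) :
    ∫ x in D, f x * g x ≤ √(∫ x in D, f x ^ 2) * √(∫ x in D, g x ^ 2) := by
  have hA : 0 ≤ ∫ x in D, f x ^ 2 := int_nonneg hD fun x _ => sq_nonneg _
  have hB : 0 ≤ ∫ x in D, g x ^ 2 := int_nonneg hD fun x _ => sq_nonneg _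
  rw [← Real.sqrt_mul hA]
  refine Real.le_sqrt_of_sq_le ?_
  have h : ∀ t : ℝ, 0 ≤ (∫ x in D, f x ^ 2) * (t * t) + (2 * ∫ x in D, f x * g x) * t
      + ∫ x in D, g x ^ 2 := fun t => by
    have h1 : 0 ≤ ∫ x in D, (t * f x + g x) ^ 2 := int_nonneg hD fun x _ => sq_nonneg _
    have h2 : ∫ x in D, (t * f x + g x) ^ 2 =
        ∫ x in D, ((t * t) * f x ^ 2 + (2 * t) * (f x * g x) + g x ^ 2) :=
      int_congr hD fun x _ => by ring
    rw [h2, int_add hD (by fun_prop) (by fun_prop), int_add hD (by fun_prop) (by fun_prop),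
      integral_const_mul, integral_const_mul] at h1
    linarith
  have := discrim_le_zero h
  rw [discrim] at this
  nlinarith

theorem int_le_sqrt {D : Set E} (hD : IsCompact D) {f : E → ℝ} (hf : Continuous f) :
    ∫ x in D, f x ≤ √(volume.real D) * √(∫ x in D, f x ^ 2) := by
  have := int_cs hD (f := fun _ => 1) continuous_const hf
  simpa using this

theorem integral_pd {D : Set E} (hD : IsCompact D) {h : E → ℝ} (hh : ContDiff ℝ ∞ h)
    (h0 : ∀ x, x ∉ D → h x = 0) (i : Fin 4) : ∫ x in D, pd i h x = 0 := by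
  have hz : ∀ x, x ∉ D → pd i h x = 0 := fun x hx => congrFun (grad_zero_off hD.isClosed h0 hx) i
  rw [setIntegral_eq_integral_of_forall_compl_eq_zero hz]
  have i1 : Integrable h := (intOn hD hh.continuous).integrable_of_forall_notMem_eq_zero h0
  have i2 : Integrable (pd i h) :=
    (intOn hD (contDiff_pd hh i).continuous).integrable_of_forall_notMem_eq_zero hz
  have := integral_mul_fderiv_eq_neg_fderiv_mul_of_integrable (μ := (volume : Measure E))
    (f := fun _ : E => (1 : ℝ)) (g := h) (v := bas i) (by simp) (by simp only [one_mul]; exact i2)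
    (by simpa using i1) (fun x _ => differentiableAt_const _) (fun x _ => diffAt hh x)
  simpa [pd] using this

/-- Integration by parts. -/
theorem integral_mul_pd {D : Set E} (hD : IsCompact D) {h g : E → ℝ} (hh : ContDiff ℝ ∞ h)
    (hg : ContDiff ℝ ∞ g) (h0 : ∀ x, x ∉ D → h x = 0) (i : Fin 4) :
    ∫ x in D, h x * pd i g x = -∫ x in D, g x * pd i h x := by
  have h1 := integral_pd hD (hh.mul hg) (fun x hx => by simp [h0 x hx]) i
  have h2 : ∫ x in D, pd i (fun y => h y * g y) x =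
      ∫ x in D, (h x * pd i g x + g x * pd i h x) :=
    int_congr hD fun x _ => pd_mul (diffAt hh x) (diffAt hg x) i
  rw [h2, int_add hD (f := fun x => h x * pd i g x) (g := fun x => g x * pd i h x)
    (hh.continuous.mul (contDiff_pd hg i).continuous)
    (hg.continuous.mul (contDiff_pd hh i).continuous)] at h1
  linarith

theorem int_subset {D D' : Set E} (hs : D ⊆ D')
    {h : E → ℝ} (h0 : ∀ x, x ∉ D → h x = 0) : ∫ x in D', h x = ∫ x in D, h x := by
  rw [setIntegral_eq_integral_of_forall_compl_eq_zero h0,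
    setIntegral_eq_integral_of_forall_compl_eq_zero fun x hx => h0 x fun h => hx (hs h)]

theorem int_mono_set {D D' : Set E} (hD' : IsCompact D') (hs : D ⊆ D')
    {h : E → ℝ} (hc : Continuous h) (h0 : ∀ x ∈ D', 0 ≤ h x) : ∫ x in D, h x ≤ ∫ x in D', h x :=
  setIntegral_mono_set (intOn hD' hc)
    ((ae_restrict_iff' hD'.measurableSet).2 (Eventually.of_forall h0)) hs.eventuallyLE

/-- The integrals of a decreasing sequence that is bounded below form a Cauchy sequence. -/
theorem l1_cauchy {D : Set E} (hD : IsCompact D) {f : ℕ → E → ℝ} (hf : ∀ j, Continuous (f j))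
    (ha : ∀ j, ∀ x ∈ D, f (j + 1) x ≤ f j x) {K : ℝ} (hK : ∀ j, ∀ x ∈ D, |f j x| ≤ K) :
    ∀ ε > 0, ∃ N : ℕ, ∀ j ≥ N, ∀ k ≥ j, ∫ x in D, (f j x - f k x) ≤ ε := by
  have hanti : Antitone fun j => ∫ x in D, f j x :=
    antitone_nat_of_succ_le fun j => int_mono hD (hf _) (hf _) (ha j)
  have hb : BddBelow (range fun j => ∫ x in D, f j x) := by
    refine ⟨∫ _x in D, -K, ?_⟩
    rintro _ ⟨j, rfl⟩
    exact int_mono hD continuous_const (hf j) fun x hx => (abs_le.1 (hK j x hx)).1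
  have hc := (tendsto_atTop_ciInf hanti hb).cauchySeq
  intro ε hε
  obtain ⟨N, hN⟩ := Metric.cauchySeq_iff.1 hc ε hε
  refine ⟨N, fun j hj k hk => ?_⟩
  rw [int_sub hD (hf j) (hf k)]
  exact (le_abs_self _).trans (hN j hj k (hj.trans hk)).le

theorem anti_of_succ {D : Set E} {f : ℕ → E → ℝ} (ha : ∀ j, ∀ x ∈ D, f (j + 1) x ≤ f j x)
    {x : E} (hx : x ∈ D) : Antitone fun j => f j x :=
  antitone_nat_of_succ_le fun j => ha j x hx

theorem norm_sq_le_two (p q : V) : ‖p‖ ^ 2 ≤ 2 * ‖p - q‖ ^ 2 + 2 * ‖q‖ ^ 2 := by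
  have h : ‖p‖ ≤ ‖p - q‖ + ‖q‖ := by simpa using norm_add_le (p - q) q
  nlinarith [norm_nonneg p, norm_nonneg (p - q), norm_nonneg q, sq_nonneg (‖p - q‖ - ‖q‖)]

/-- A Cauchy sequence is bounded. -/
theorem Cau.bdd {D : Set E} (hD : IsCompact D) {f : ℕ → E → ℝ} (hf : ∀ j, ContDiff ℝ ∞ (f j))
    (h : Cau D f) : ∃ B : ℝ, 0 ≤ B ∧ ∀ j, ∫ x in D, ‖grad (f j) x‖ ^ 2 ≤ B := by
  obtain ⟨N, hN⟩ := h 1 one_pos
  have hc : ∀ j, Continuous (grad (f j)) := fun j => continuous_grad (hf j)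
  have h0 : ∀ j, 0 ≤ ∫ x in D, ‖grad (f j) x‖ ^ 2 := fun j => int_nonneg hD fun x _ => sq_nonneg _
  refine ⟨2 + 2 * ∑ i ∈ Finset.range (N + 1), ∫ x in D, ‖grad (f i) x‖ ^ 2, ?_, fun j => ?_⟩
  · have := Finset.sum_nonneg fun i (_ : i ∈ Finset.range (N + 1)) => h0 i
    linarith
  have hs : ∀ i ≤ N, ∫ x in D, ‖grad (f i) x‖ ^ 2 ≤
      ∑ i ∈ Finset.range (N + 1), ∫ x in D, ‖grad (f i) x‖ ^ 2 := fun i hi =>
    Finset.single_le_sum (f := fun i => ∫ x in D, ‖grad (f i) x‖ ^ 2) (fun i _ => h0 i)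
      (Finset.mem_range.2 (Nat.lt_succ_of_le hi))
  rcases le_total j N with hj | hj
  · linarith [hs j hj, h0 j]
  · have h1 : ∫ x in D, ‖grad (f j) x‖ ^ 2 ≤
        ∫ x in D, (2 * ‖grad (f j) x - grad (f N) x‖ ^ 2 + 2 * ‖grad (f N) x‖ ^ 2) :=
      int_mono hD (by have := hc j; fun_prop) (by have := hc j; have := hc N; fun_prop)
        fun x _ => norm_sq_le_two _ _
    rw [int_add hD (by have := hc j; have := hc N; fun_prop) (by have := hc N; fun_prop),
      integral_const_mul, integral_const_mul] at h1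
    linarith [hN j hj N le_rfl, hs N le_rfl]

/-- Uniform integrability of the squared gradients of a Cauchy sequence. -/
theorem Cau.ui {D : Set E} (hD : IsCompact D) {f : ℕ → E → ℝ} (hf : ∀ j, ContDiff ℝ ∞ (f j))
    (h : Cau D f) (K : ℝ) : ∀ ε > 0, ∃ δ > 0, ∃ N : ℕ, ∀ j ≥ N, ∀ η : E → ℝ, Continuous η →
      (∀ x ∈ D, 0 ≤ η x ∧ η x ≤ K) → ∫ x in D, η x ≤ δ →
      ∫ x in D, η x * ‖grad (f j) x‖ ^ 2 ≤ ε := by
  intro ε hε
  have hc : ∀ j, Continuous (grad (f j)) := fun j => continuous_grad (hf j)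
  obtain ⟨N, hN⟩ := h (ε / (4 * (|K| + 1))) (by positivity)
  obtain ⟨B, hB, hb⟩ := exists_bound hD (hc N)
  refine ⟨ε / (4 * (B ^ 2 + 1)), by positivity, N, fun j hj η hη hK hδ => ?_⟩
  have h1 : ∫ x in D, η x * ‖grad (f j) x‖ ^ 2 ≤
      ∫ x in D, (2 * (|K| + 1) * ‖grad (f j) x - grad (f N) x‖ ^ 2 + 2 * (B ^ 2 + 1) * η x) := by
    refine int_mono hD (by have := hc j; fun_prop) (by have := hc j; have := hc N; fun_prop)
      fun x hx => ?_
    have k1 := norm_sq_le_two (grad (f j) x) (grad (f N) x)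
    have k2 : ‖grad (f N) x‖ ^ 2 ≤ B ^ 2 := pow_le_pow_left₀ (norm_nonneg _) (hb x hx) 2
    have k3 := hK x hx
    have k4 : η x ≤ |K| + 1 := by linarith [k3.2, le_abs_self K]
    nlinarith [mul_le_mul_of_nonneg_left k1 k3.1, mul_le_mul_of_nonneg_left k2 k3.1,
      mul_le_mul_of_nonneg_right k4 (sq_nonneg ‖grad (f j) x - grad (f N) x‖)]
  rw [int_add hD (by have := hc j; have := hc N; fun_prop) (by fun_prop),
    integral_const_mul, integral_const_mul] at h1
  have k1 : 2 * (|K| + 1) * ∫ x in D, ‖grad (f j) x - grad (f N) x‖ ^ 2 ≤ ε / 2 :=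
    (mul_le_mul_of_nonneg_left (hN j hj N le_rfl) (by positivity)).trans
      (le_of_eq (by field_simp; ring))
  have k2 : 2 * (B ^ 2 + 1) * ∫ x in D, η x ≤ ε / 2 :=
    (mul_le_mul_of_nonneg_left hδ (by positivity)).trans (le_of_eq (by field_simp; ring))
  linarith

theorem Cau.mono {D D' : Set E} (hD' : IsCompact D') (hs : D ⊆ D') {f : ℕ → E → ℝ}
    (hf : ∀ j, ContDiff ℝ ∞ (f j)) (h : Cau D' f) : Cau D f := fun ε hε => by
  obtain ⟨N, hN⟩ := h ε hε
  refine ⟨N, fun j hj k hk => le_trans (int_mono_set hD' hs ?_ fun x _ => sq_nonneg _)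
    (hN j hj k hk)⟩
  have := continuous_grad (hf j)
  have := continuous_grad (hf k)
  fun_prop

/-- A smooth cutoff for two concentric balls. -/
theorem exists_cutoff (p : E) {r R : ℝ} (hr : 0 < r) (h : r < R) :
    ∃ φ : E → ℝ, ContDiff ℝ ∞ φ ∧ (∀ x, 0 ≤ φ x ∧ φ x ≤ 1) ∧ (∀ x ∈ closedBall p r, φ x = 1) ∧
      ∀ x, x ∉ ball p R → φ x = 0 := by
  let b : ContDiffBump p := ⟨r, R, hr, h⟩
  refine ⟨b, b.contDiff, fun x => ⟨b.nonneg, b.le_one⟩, fun x hx => b.one_of_mem_closedBall hx,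
    fun x hx => b.zero_of_le_dist ?_⟩
  simpa [mem_ball] using hx

namespace Ctx

variable (c : Ctx)

theorem continuous_NI {φ a b : E → ℝ} (hφ : Continuous φ) (ha : ContDiff ℝ ∞ a)
    (hb : ContDiff ℝ ∞ b) : Continuous fun x => φ x * c.w (c.T a x) (c.T b x) :=
  hφ.mul (c.continuous_w (c.continuous_T ha) (c.continuous_T hb))

theorem N_comm (D : Set E) (φ a b : E → ℝ) : c.N D φ a b = c.N D φ b a := by
  simp only [N, c.w_comm (c.T a _)]

theorem N_sub {D : Set E} (hD : IsCompact D) {φ ψ a b : E → ℝ} (hφ : Continuous φ)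
    (hψ : Continuous ψ) (ha : ContDiff ℝ ∞ a) (hb : ContDiff ℝ ∞ b) :
    c.N D (fun x => φ x - ψ x) a b = c.N D φ a b - c.N D ψ a b := by
  simp only [N, sub_mul]
  exact int_sub hD (c.continuous_NI hφ ha hb) (c.continuous_NI hψ ha hb)

theorem N_sq_sub {D : Set E} (hD : IsCompact D) {φ a b : E → ℝ} (hφ : Continuous φ)
    (ha : ContDiff ℝ ∞ a) (hb : ContDiff ℝ ∞ b) :
    c.N D φ a a - c.N D φ b b = c.N D φ (fun x => a x - b x) (fun x => a x + b x) := by
  simp only [N]
  rw [← int_sub hD (c.continuous_NI hφ ha ha) (c.continuous_NI hφ hb hb)]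
  refine int_congr hD fun x _ => ?_
  rw [c.T_sub ha hb, c.T_add ha hb, w_sub_left, w_add_right, w_add_right,
    c.w_comm (c.T b x) (c.T a x)]
  ring

/-- `N` only sees the functions near the support of the weight. -/
theorem N_congr {D D' : Set E} (hD : IsCompact D) (hs : D ⊆ D')
    {φ a b a' b' : E → ℝ} (h0 : ∀ x, x ∉ D → φ x = 0) (ha : ∀ x ∈ D, a =ᶠ[𝓝 x] a')
    (hb : ∀ x ∈ D, b =ᶠ[𝓝 x] b') : c.N D' φ a b = c.N D φ a' b' := by
  simp only [N]
  rw [int_subset hs fun x hx => by simp [h0 x hx]]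
  exact int_congr hD fun x hx => by rw [c.T_congr (ha x hx), c.T_congr (hb x hx)]

theorem pos_iff_L (hP : SPt) {f : E → ℝ} (hf : ContDiff ℝ ∞ f) (x : E) (t : ℝ) :
    c.Pos x (c.T f x + t • c.Om x) ↔
      ∀ Z : E, 0 ≤ c.L Z f x + t * (‖Z‖ ^ 2 + ‖c.J x Z‖ ^ 2) := by
  have key : ∀ Z : E, Z.ofLp ⬝ᵥ ((c.T f x + t • c.Om x) *ᵥ (c.M x *ᵥ Z.ofLp)) =
      c.L Z f x + t * (‖Z‖ ^ 2 + ‖c.J x Z‖ ^ 2) := fun Z => by
    rw [Matrix.add_mulVec, dotProduct_add, hP.TL c f hf, Matrix.smul_mulVec, dotProduct_smul, Om,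
      dot_om (c.M_sq x), smul_eq_mul, M, ← apply_eq_mulVec, dot_self_eq, dot_self_eq]
  constructor
  · intro h Z; rw [← key]; exact h.2 _
  · intro h
    refine ⟨(c.T_inv f x).add ((c.Om_pos x).1.smul t), fun Z => ?_⟩
    have := h (WithLp.toLp 2 Z)
    rwa [← key] at this

theorem pos_of_L (hP : SPt) {f : E → ℝ} (hf : ContDiff ℝ ∞ f) {x : E} {t : ℝ} (ht : 0 ≤ t)
    (h : ∀ Z : E, -t * ‖Z‖ ^ 2 ≤ c.L Z f x) : c.Pos x (c.T f x + t • c.Om x) :=
  (c.pos_iff_L hP hf x t).2 fun Z => by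
    nlinarith [h Z, mul_nonneg ht (sq_nonneg ‖c.J x Z‖)]

theorem App.mono {c : Ctx} {D D' : Set E} {f η : ℕ → E → ℝ} {K K' : ℝ} (h : c.App D f η K)
    (hs : D' ⊆ D) (hK : K ≤ K') : c.App D' f η K' :=
  ⟨h.smooth, h.smooth', fun j x hx => h.anti j x (hs hx),
    fun j x hx => (h.bdd j x (hs hx)).trans hK, fun j x hx => h.nonneg j x (hs hx),
    fun j x hx => (h.le j x (hs hx)).trans hK, fun j x hx => h.pos j x (hs hx)⟩

theorem App.posK {c : Ctx} {D : Set E} {f η : ℕ → E → ℝ} {K : ℝ} (h : c.App D f η K) (j : ℕ)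
    {x : E} (hx : x ∈ D) : c.Pos x (c.T (f j) x + K • c.Om x) := (h.pos j x hx).mono (h.le j x hx)

end Ctx

/-! ### The cut `χ` -/

theorem hasDerivAt_chi (s : ℝ) : HasDerivAt chi (Real.smoothTransition s) s :=
  Real.smoothTransition.continuous.deriv_integral _ 0 s ▸
    (intervalIntegral.integral_hasDerivAt_right
      (Real.smoothTransition.continuous.intervalIntegrable _ _)
      (Real.smoothTransition.continuous.stronglyMeasurableAtFilter _ _)
      Real.smoothTransition.continuous.continuousAt).differentiableAt.hasDerivAt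

theorem deriv_chi : deriv chi = Real.smoothTransition := funext fun s => (hasDerivAt_chi s).deriv

theorem contDiff_chi : ContDiff ℝ ∞ chi := by
  rw [contDiff_infty_iff_deriv, deriv_chi]
  exact ⟨fun s => (hasDerivAt_chi s).differentiableAt, Real.smoothTransition.contDiff⟩

theorem continuous_chi : Continuous chi := contDiff_chi.continuous

theorem hasDerivAt_chi2 (s : ℝ) : HasDerivAt chi2 (chi s) s :=
  intervalIntegral.integral_hasDerivAt_right (continuous_chi.intervalIntegrable _ _)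
    (continuous_chi.stronglyMeasurableAtFilter _ _) continuous_chi.continuousAt

theorem deriv_chi2 : deriv chi2 = chi := funext fun s => (hasDerivAt_chi2 s).deriv

theorem contDiff_chi2 : ContDiff ℝ ∞ chi2 := by
  rw [contDiff_infty_iff_deriv, deriv_chi2]
  exact ⟨fun s => (hasDerivAt_chi2 s).differentiableAt, contDiff_chi⟩

theorem deriv_chi_nonneg (s : ℝ) : 0 ≤ deriv chi s := by
  rw [deriv_chi]; exact Real.smoothTransition.nonneg s

theorem deriv_chi_le_one (s : ℝ) : deriv chi s ≤ 1 := by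
  rw [deriv_chi]; exact Real.smoothTransition.le_one s

theorem deriv2_chi_nonneg (s : ℝ) : 0 ≤ deriv (deriv chi) s := by
  rw [deriv_chi]; exact Real.smoothTransition.monotone.deriv_nonneg

theorem deriv_chi_of_nonpos {s : ℝ} (hs : s ≤ 0) : deriv chi s = 0 := by
  rw [deriv_chi]; exact Real.smoothTransition.zero_of_nonpos hs

theorem integral_zero_of_nonpos {g : ℝ → ℝ} (hg : ∀ t ≤ 0, g t = 0) {s : ℝ} (hs : s ≤ 0) :
    ∫ t in (0 : ℝ)..s, g t = 0 := by
  rw [intervalIntegral.integral_congr (g := fun _ => 0)]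
  · simp
  · intro t ht
    rw [uIcc_of_ge hs] at ht
    exact hg t ht.2

theorem chi_of_nonpos {s : ℝ} (hs : s ≤ 0) : chi s = 0 :=
  integral_zero_of_nonpos (fun _ ht => Real.smoothTransition.zero_of_nonpos ht) hs

theorem chi2_of_nonpos {s : ℝ} (hs : s ≤ 0) : chi2 s = 0 :=
  integral_zero_of_nonpos (fun _ ht => chi_of_nonpos ht) hs

theorem monotone_chi : Monotone chi :=
  monotone_of_deriv_nonneg (contDiff_chi.differentiable (by simp)) deriv_chi_nonneg

theorem chi_nonneg (s : ℝ) : 0 ≤ chi s := by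
  rcases le_total s 0 with h | h
  · rw [chi_of_nonpos h]
  · simpa [chi_of_nonpos le_rfl] using monotone_chi h

theorem chi_pos {s : ℝ} (hs : 0 < s) : 0 < chi s :=
  intervalIntegral.intervalIntegral_pos_of_pos_on
    (Real.smoothTransition.continuous.intervalIntegrable _ _)
    (fun _ ht => Real.smoothTransition.pos_of_pos ht.1) hs

theorem integral_le_mul {g : ℝ → ℝ} (hc : Continuous g) (hg : Monotone g) {s : ℝ} (hs : 0 ≤ s) :
    ∫ t in (0 : ℝ)..s, g t ≤ s * g s := by
  have := intervalIntegral.integral_mono_on hs (hc.intervalIntegrable (μ := volume) _ _)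
    (continuous_const (y := g s).intervalIntegrable _ _) fun t ht => hg ht.2
  simpa using this

theorem chi_le {s : ℝ} (hs : 0 ≤ s) : chi s ≤ s * deriv chi s := by
  rw [deriv_chi]
  exact integral_le_mul Real.smoothTransition.continuous Real.smoothTransition.monotone hs

theorem chi2_le {s : ℝ} (hs : 0 ≤ s) : chi2 s ≤ s * chi s :=
  integral_le_mul continuous_chi monotone_chi hs

theorem chi2_nonneg (s : ℝ) : 0 ≤ chi2 s := by
  rcases le_total s 0 with h | h
  · rw [chi2_of_nonpos h]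
  · exact intervalIntegral.integral_nonneg h fun t _ => chi_nonneg t

theorem chi_le_delta {s δ : ℝ} (hδ : 0 ≤ δ) (h : s ≤ δ) : chi s ≤ δ * deriv chi s := by
  rcases le_total s 0 with h0 | h0
  · rw [chi_of_nonpos h0]; exact mul_nonneg hδ (deriv_chi_nonneg s)
  · exact (chi_le h0).trans (mul_le_mul_of_nonneg_right h (deriv_chi_nonneg s))

theorem chi2_le_delta {s δ : ℝ} (hδ : 0 ≤ δ) (h : s ≤ δ) : chi2 s ≤ δ * chi s := by
  rcases le_total s 0 with h0 | h0
  · rw [chi2_of_nonpos h0]; exact mul_nonneg hδ (chi_nonneg s)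
  · exact (chi2_le h0).trans (mul_le_mul_of_nonneg_right h (chi_nonneg s))

theorem chi_le_self {s δ : ℝ} (hδ : 0 ≤ δ) (h : s ≤ δ) : chi s ≤ δ :=
  (chi_le_delta hδ h).trans (by nlinarith [deriv_chi_le_one s])

theorem monotone_sub_chi : Monotone fun s => s - chi s := by
  refine monotone_of_deriv_nonneg
    (differentiable_id.sub (contDiff_chi.differentiable (by simp))) fun s => ?_
  rw [((hasDerivAt_id' s).fun_sub (hasDerivAt_chi s)).deriv]
  linarith [Real.smoothTransition.le_one s]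

theorem chi_of_one_le {s : ℝ} (hs : 1 ≤ s) : chi s = s - (1 - chi 1) := by
  have h := intervalIntegral.integral_add_adjacent_intervals (μ := volume)
    (Real.smoothTransition.continuous.intervalIntegrable 0 1)
    (Real.smoothTransition.continuous.intervalIntegrable 1 s)
  have h2 : ∫ t in (1 : ℝ)..s, Real.smoothTransition t = s - 1 := by
    rw [intervalIntegral.integral_congr (g := fun _ => 1)]
    · simp
    · intro t ht
      rw [uIcc_of_le hs] at ht
      exact Real.smoothTransition.one_of_one_le ht.1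
  rw [h2] at h
  unfold chi
  linarith

end Pool.Agent.MP_13e7a1_an.H82
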